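import Pool.Agent.P.MP_1b6414_an.Germ

/-! The theorem for smooth vector fields near a point of a real coordinate space. -/

namespace Pool.Agent.P.MP_1b6414_an

open Filter Topology Finset Asymptotics
open scoped ContDiff

variable {N : ℕ} {p : Fin N → ℝ}

theorem sum_pdF (v : Fin N → ℝ) (f : (Fin N → ℝ) → ℂ) (x : Fin N → ℝ) :
    ∑ i, (v i : ℂ) * pdF i f x = fderiv ℝ f x v := by
  conv_rhs => rw [pi_eq_sum_univ' v]
  simp [pdF]

theorem Rep.cstD {f : (Fin N → ℝ) → ℂ} {g : OO p} (h : Rep f g) (v : Fin N → ℝ) :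
    (jet p).ev ((jet p).D (cst fun i => (v i : ℂ)) g) = fderiv ℝ f p v := by
  rw [Jet.D_apply, ← sum_pdF]
  exact (Rep.sum univ fun i => (Rep.const (v i : ℂ)).mul (h.pdG i)).evG

theorem exists_arc {n : ℕ} (hN : N = 2 * n + 1) (y : Fin n → (Fin N → ℝ) → ℂ)
    (u : (Fin N → ℝ) → ℂ) (hy : ∀ j, y j ∈ smS p) (hu : u ∈ smS p) (hy0 : ∀ j, y j p = 0)
    (hu0 : u p = 0) (hur : ∀ᶠ x in 𝓝 p, (u x).im = 0)
    (hnd : ∀ v : Fin N → ℝ, (∀ j, fderiv ℝ (y j) p v = 0) → fderiv ℝ u p v = 0 → v = 0)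
    (γ : ℝ → (Fin n → ℂ) × ℝ) (hγ : DifferentiableAt ℝ γ 0) (hγ0 : γ 0 = 0) :
    ∃ c : ℝ → Fin N → ℝ, DifferentiableAt ℝ c 0 ∧ c 0 = p ∧
      ∀ᶠ t in 𝓝 (0 : ℝ), (∀ j, y j (c t) = (γ t).1 j) ∧ u (c t) = (γ t).2 := by
  let Ψ : (Fin N → ℝ) → (Fin n → ℂ) × ℝ := fun x => (fun j => y j x, (u x).re)
  have hd : ∀ {f : (Fin N → ℝ) → ℂ}, f ∈ smS p → HasStrictFDerivAt f (fderiv ℝ f p) p :=
    fun h => (mem_smS.1 h).hasStrictFDerivAt (by simp)
  let Ψ' : (Fin N → ℝ) →L[ℝ] (Fin n → ℂ) × ℝ :=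
    (ContinuousLinearMap.pi fun j => fderiv ℝ (y j) p).prod (Complex.reCLM.comp (fderiv ℝ u p))
  have hΨ : HasStrictFDerivAt Ψ Ψ' p :=
    (hasStrictFDerivAt_pi.2 fun j => hd (hy j)).prodMk
      (Complex.reCLM.hasStrictFDerivAt.comp p (hd hu))
  have him : Complex.imCLM.comp (fderiv ℝ u p) = 0 := by
    have h1 := (Complex.imCLM.hasFDerivAt.comp p (hd hu).hasFDerivAt)
    exact h1.unique ((hasFDerivAt_const (0 : ℝ) p).congr_of_eventuallyEq hur)
  have hinj : Function.Injective Ψ'.toLinearMap := by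
    rw [injective_iff_map_eq_zero]
    intro v hv
    refine hnd v (fun j => congrFun (congrArg Prod.fst hv) j) (Complex.ext ?_ ?_)
    · exact congrArg Prod.snd hv
    · exact congrArg (fun A => A v) him
  let e : (Fin N → ℝ) ≃L[ℝ] (Fin n → ℂ) × ℝ :=
    (Ψ'.toLinearMap.linearEquivOfInjective hinj (by
      simp [Module.finrank_pi_fintype, hN, mul_comm])).toContinuousLinearEquiv
  have hΨe : HasStrictFDerivAt Ψ (e : (Fin N → ℝ) →L[ℝ] (Fin n → ℂ) × ℝ) p := hΨ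
  have hp : Ψ p = γ 0 := by
    rw [hγ0]; simp only [Ψ, hy0, hu0]; rfl
  have h1 := hΨe.to_localInverse.hasFDerivAt.differentiableAt
  have h2 := hΨe.localInverse_apply_image
  have h3 := hΨe.eventually_right_inverse
  rw [hp] at h1 h2 h3
  have hc : DifferentiableAt ℝ (fun t => hΨe.localInverse Ψ e p (γ t)) 0 := h1.comp 0 hγ
  refine ⟨_, hc, h2, ?_⟩
  have h4 : Tendsto (fun t => hΨe.localInverse Ψ e p (γ t)) (𝓝 0) (𝓝 p) := by
    have := hc.continuousAt.tendsto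
    rwa [h2] at this
  filter_upwards [hγ.continuousAt.tendsto.eventually h3, h4.eventually hur] with t a b
  exact ⟨fun j => congrFun (congrArg Prod.fst a) j,
    Complex.ext (congrArg Prod.snd a) (by simpa using b)⟩

/-- Composition of germs with an arc. -/
noncomputable def compG {c : ℝ → Fin N → ℝ} (hc : Tendsto c (𝓝 0) (𝓝 p)) (h0 : c 0 = p) :
    OO p →ₐ[ℂ] TT :=
  Ideal.Quotient.liftₐ (evI (smS p) (𝓝 p))
    ((GQ.mk contS (𝓝 0)).comp
      { toFun := fun f => ⟨fun t => f.1 (c t), by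
          change Tendsto (fun t => f.1 (c t)) (𝓝 0) (𝓝 (f.1 (c 0)))
          rw [h0]
          exact (mem_smS.1 f.2).continuousAt.tendsto.comp hc⟩
        map_one' := rfl
        map_mul' := fun _ _ => rfl
        map_zero' := rfl
        map_add' := fun _ _ => rfl
        commutes' := fun _ => rfl })
    fun f (hf : ∀ᶠ x in 𝓝 p, f.1 x = 0) => Ideal.Quotient.eq_zero_iff_mem.2 (hc.eventually hf)

theorem Rep.compG {c : ℝ → Fin N → ℝ} (hc : Tendsto c (𝓝 0) (𝓝 p)) (h0 : c 0 = p)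
    {f : (Fin N → ℝ) → ℂ} {g : OO p} (h : Rep f g) : Rep (fun t => f (c t)) (compG hc h0 g) := by
  obtain ⟨_, rfl⟩ := h
  exact ⟨_, rfl⟩

theorem arcPos {n : ℕ} (hN : N = 2 * n + 1) {lam : Fin n → Fin n → (Fin N → ℝ) → ℂ}
    {lg : Fin n → Fin n → OO p} (hl : ∀ j k, Rep (lam j k) (lg j k))
    (hpos : ∀ᶠ x in 𝓝 p, ∀ a : Fin n → ℂ,
      0 ≤ (∑ j, ∑ k, a j * starRingEnd ℂ (a k) * lam j k x).re) :
    ArcPos (jet p) arc lg := by
  intro y u hy0 hu0 hur hnd Zt Ut hZ hU hUr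
  choose yr hyr using fun j => Rep.exists (y j)
  obtain ⟨ur, hu⟩ := Rep.exists u
  have hev : ∀ Q : Polynomial ℂ, DifferentiableAt ℝ (fun t : ℝ => Q.eval (t : ℂ)) 0 := fun Q =>
    (Q.differentiableAt.restrictScalars ℝ).comp 0 Complex.ofRealCLM.differentiableAt
  have hev0 : ∀ Q : Polynomial ℂ, Polynomial.X ∣ Q → Q.eval 0 = 0 := by
    rintro _ ⟨Q, rfl⟩; simp
  obtain ⟨c, hc, h0, hcy⟩ := exists_arc hN yr ur (fun j => (hyr j).mem) hu.mem
    (fun j => (hyr j).evG.symm.trans (hy0 j)) (hu.evG.symm.trans hu0)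
    (((hu.star.eq_iff hu).1 hur).mono fun x hx => Complex.conj_eq_iff_im.1 hx)
    (fun v h1 h2 => hnd v (fun j => ((hyr j).cstD v).trans (h1 j)) ((hu.cstD v).trans h2))
    (fun t => (fun j => (Zt j).eval (t : ℂ), (Ut.eval (t : ℂ)).re))
    ((differentiableAt_pi.2 fun j => hev _).prodMk
      (Complex.reCLM.differentiableAt.comp 0 (hev _)))
    (by simp only [Complex.ofReal_zero, hev0 _ (hZ _), hev0 _ hU]; rfl)
  have hc' : Tendsto c (𝓝 0) (𝓝 p) := h0 ▸ hc.continuousAt.tendsto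
  refine ⟨compG hc' h0, fun g => ?_, fun m g hg => ?_, fun j => ?_, ?_, fun a => ?_⟩
  · obtain ⟨f, h⟩ := Rep.exists g
    exact ((h.star.compG hc' h0).eq_iff (h.compG hc' h0).star).2 EventuallyEq.rfl
  · obtain ⟨f, h⟩ := Rep.exists g
    refine ⟨_, h.compG hc' h0, ((littleO_of_I m h hg).comp_tendsto hc').trans_isBigO ?_⟩
    have := hc.isBigO_sub.norm_left.pow m
    simp only [h0, sub_zero] at this
    exact this
  · exact (((hyr j).compG hc' h0).eq_iff (rep_t.aeval _)).2 (hcy.mono fun t h => h.1 j)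
  · refine ((hu.compG hc' h0).eq_iff (rep_t.aeval _)).2 (hcy.mono fun t h => h.2.trans ?_)
    refine Complex.conj_eq_iff_re.1 ?_
    have := Polynomial.eval₂_at_apply (p := Ut) (starRingEnd ℂ) (t : ℂ)
    rw [← this, Complex.conj_ofReal, ← Polynomial.eval_map]
    exact congrArg (Polynomial.eval (t : ℂ)) hUr
  · choose ar har using fun j => Rep.exists (a j)
    exact ⟨_, Rep.sum univ fun j => Rep.sum univ fun k =>
      ((har j).mul (har k).star).mul ((hl j k).compG hc' h0),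
      (hc'.eventually hpos).mono fun t h => h fun j => ar j t⟩

/-- The vector field `V` represents the germ `W`. -/
def RepV (V : (Fin N → ℝ) → Fin N → ℂ) (W : Fin N → OO p) : Prop :=
  ∀ i, Rep (fun x => V x i) (W i)

theorem RepV.exists {V : (Fin N → ℝ) → Fin N → ℂ} (h : ContDiffAt ℝ ∞ V p) :
    ∃ W : Fin N → OO p, RepV V W :=
  ⟨fun i => GQ.mk _ _ ⟨fun x => V x i, mem_smS.2 (contDiffAt_pi.1 h i)⟩, fun _ => Rep.of_mem _⟩

/-- Action of a vector field on a function. -/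
noncomputable def actF (V : (Fin N → ℝ) → Fin N → ℂ) (f : (Fin N → ℝ) → ℂ) (x : Fin N → ℝ) : ℂ :=
  ∑ i, V x i * fderiv ℝ f x (Pi.single i 1)

/-- Bracket of vector fields. -/
noncomputable def brF (V W : (Fin N → ℝ) → Fin N → ℂ) (x : Fin N → ℝ) (i : Fin N) : ℂ :=
  actF V (fun y => W y i) x - actF W (fun y => V y i) x

/-- Conjugate vector field. -/
def cjF (V : (Fin N → ℝ) → Fin N → ℂ) (x : Fin N → ℝ) (i : Fin N) : ℂ := starRingEnd ℂ (V x i)

/-- Pairing with a real one-form. -/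
noncomputable def prF (η : (Fin N → ℝ) → Fin N → ℝ) (V : (Fin N → ℝ) → Fin N → ℂ)
    (x : Fin N → ℝ) : ℂ := ∑ i, (η x i : ℂ) * V x i

/-- The field or its conjugate. -/
def pkF (L : (Fin N → ℝ) → Fin N → ℂ) (b : Bool) : (Fin N → ℝ) → Fin N → ℂ :=
  if b then L else cjF L

theorem RepV.act {V : (Fin N → ℝ) → Fin N → ℂ} {W : Fin N → OO p} (h : RepV V W)
    {f : (Fin N → ℝ) → ℂ} {g : OO p} (h' : Rep f g) : Rep (actF V f) ((jet p).D W g) := by
  rw [Jet.D_apply]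
  exact Rep.sum univ fun i => (h i).mul (h'.pdG i)

theorem RepV.br {V V' : (Fin N → ℝ) → Fin N → ℂ} {W W' : Fin N → OO p} (h : RepV V W)
    (h' : RepV V' W') : RepV (brF V V') ((jet p).br W W') :=
  fun i => (h.act (h' i)).sub (h'.act (h i))

theorem RepV.cj {V : (Fin N → ℝ) → Fin N → ℂ} {W : Fin N → OO p} (h : RepV V W) :
    RepV (cjF V) (star W) := fun i => (h i).star

theorem RepV.pk {V : (Fin N → ℝ) → Fin N → ℂ} {W : Fin N → OO p} (h : RepV V W) (b : Bool) :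
    RepV (pkF V b) (pk W b) := by
  cases b
  · exact h.cj
  · exact h

theorem RepV.pr {η : (Fin N → ℝ) → Fin N → ℝ} {θ : Fin N → OO p}
    (hη : RepV (fun x i => (η x i : ℂ)) θ) {V : (Fin N → ℝ) → Fin N → ℂ} {W : Fin N → OO p}
    (h : RepV V W) : Rep (prF η V) (pairO θ W) := Rep.sum univ fun i => (hη i).mul (h i)

theorem RepV.span {n : ℕ} {Z : Fin n → (Fin N → ℝ) → Fin N → ℂ} {Zg : Fin n → Fin N → OO p}
    (hZ : ∀ j, RepV (Z j) (Zg j)) (hli : LinearIndependent ℂ fun j => Z j p)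
    {V : (Fin N → ℝ) → Fin N → ℂ} {W : Fin N → OO p} (h : RepV V W)
    (hV : ∀ᶠ x in 𝓝 p, V x ∈ Submodule.span ℂ (Set.range fun j => Z j x)) :
    W ∈ Submodule.span (OO p) (Set.range Zg) := by
  obtain ⟨g, hg⟩ := (Fintype.linearCombination ℂ fun j => Z j p).exists_leftInverse_of_injective
    (LinearMap.ker_eq_bot.2 (linearIndependent_iff_injective_fintypeLinearCombination.1 hli))
  have hg' : ∀ j, g (Z j p) = Pi.single j 1 := fun j => by
    simpa using congrArg (fun A => A (Pi.single j 1)) hg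
  have hgs : ∀ (v : Fin N → ℂ) k, g v k = ∑ i, g (Pi.single i 1) k * v i := by
    intro v k
    conv_lhs => rw [pi_eq_sum_univ' v]
    simp [mul_comm]
  have hgr : ∀ {V : (Fin N → ℝ) → Fin N → ℂ} {W : Fin N → OO p}, RepV V W → ∀ k,
      Rep (fun x => g (V x) k) (∑ i, g (Pi.single i 1) k • W i) := by
    intro V W h k
    simp only [hgs (V _)]
    exact Rep.sum univ fun i => (h i).smul _
  obtain ⟨C, -, hC⟩ := (jet p).matrix_unit
    (Matrix.of fun j k => ∑ i, g (Pi.single i 1) k • Zg j i) (by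
      have : (Matrix.of fun j k => ∑ i, g (Pi.single i 1) k • Zg j i).map (jet p).ev = 1 := by
        ext j k
        rw [Matrix.map_apply, Matrix.of_apply, Matrix.one_apply]
        refine (hgr (hZ j) k).evG.trans ?_
        rw [hg', Pi.single_apply]; simp only [eq_comm]
      rw [this]; exact isUnit_one)
  choose Cr hCr using fun k j => Rep.exists (C k j)
  have hC' : ∀ᶠ x in 𝓝 p, ∀ j l, ∑ k, g (Z j x) k * Cr k l x = if j = l then 1 else 0 := by
    refine eventually_all.2 fun j => eventually_all.2 fun l => ?_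
    have h1 : Rep (fun _ => if j = l then 1 else 0) (if j = l then (1 : OO p) else 0) := by
      split_ifs
      · exact Rep.one
      · exact Rep.zero
    have h2 := congrFun (congrFun hC j) l
    rw [Matrix.mul_apply, Matrix.one_apply] at h2
    exact ((Rep.sum univ fun k => (hgr (hZ j) k).mul (hCr k l)).eq_iff h1).1 h2
  refine (Submodule.mem_span_range_iff_exists_fun _).2
    ⟨fun l => ∑ k, (∑ i, g (Pi.single i 1) k • W i) * C k l, funext fun i => ?_⟩
  rw [Finset.sum_apply]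
  refine ((Rep.sum univ fun l => (Rep.sum univ fun k => (hgr h k).mul (hCr k l)).mul
    (hZ l i)).eq_iff (h i)).2 ?_
  filter_upwards [hV, hC'] with x h1 h2
  obtain ⟨a, ha⟩ := (Submodule.mem_span_range_iff_exists_fun _).1 h1
  have : ∀ l, ∑ k, g (V x) k * Cr k l x = a l := by
    intro l
    simp only [← ha, map_sum, map_smul, Finset.sum_apply, Pi.smul_apply, smul_eq_mul, sum_mul,
      mul_assoc]
    rw [sum_comm]
    simp [← mul_sum, h2]
  simp only [this]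
  rw [← ha]; simp

theorem concrete {n : ℕ} (hN : N = 2 * n + 1) (Z : Fin n → (Fin N → ℝ) → Fin N → ℂ)
    (hZ : ∀ j, ContDiffAt ℝ ∞ (Z j) p)
    (hli : LinearIndependent ℂ (Sum.elim (fun j => Z j p) (fun j => cjF (Z j) p)))
    (hint : ∀ j k, ∀ᶠ x in 𝓝 p, brF (Z j) (Z k) x ∈ Submodule.span ℂ (Set.range fun l => Z l x))
    (η₀ η : (Fin N → ℝ) → Fin N → ℝ) (h₀ : ContDiffAt ℝ ∞ η₀ p) (h : ContDiffAt ℝ ∞ η p)
    (n₀ : η₀ p ≠ 0) (n₁ : η p ≠ 0) (a₀ : ∀ j, ∀ᶠ x in 𝓝 p, prF η₀ (Z j) x = 0)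
    (a₁ : ∀ j, ∀ᶠ x in 𝓝 p, prF η (Z j) x = 0)
    (hpos : ∀ᶠ x in 𝓝 p, ∀ a : Fin n → ℂ, 0 ≤ (∑ j, ∑ k, a j * starRingEnd ℂ (a k) *
      (-Complex.I * prF η₀ (brF (Z j) (cjF (Z k))) x)).re)
    (L : (Fin N → ℝ) → Fin N → ℂ) (hL : ContDiffAt ℝ ∞ L p)
    (hLZ : ∀ᶠ x in 𝓝 p, L x ∈ Submodule.span ℂ (Set.range fun l => Z l x)) (m : ℕ) :
    (∀ (b : Bool) (l : List Bool), l.length + 1 ≤ m →
      prF η (l.foldr (fun c V => brF (pkF L c) V) (pkF L b)) p = 0) ↔
    (∀ w : List Bool, w.length + 2 ≤ m →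
      w.foldr (fun c f => actF (pkF L c) f) (prF η (brF L (cjF L))) p = 0) := by
  choose Zg hZg using fun j => RepV.exists (hZ j)
  obtain ⟨Lg, hLg⟩ := RepV.exists hL
  have hli' : LinearIndependent ℂ fun j => Z j p := hli.comp Sum.inl Sum.inl_injective
  let F : CRF (jet p) n :=
    { hN := hN
      Z := Zg
      int := fun j k => RepV.span hZg hli' ((hZg j).br (hZg k)) (hint j k)
      li := by
        have e : ∀ j i, (jet p).ev (Zg j i) = Z j p i := fun j i => (hZg j i).evG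
        simp only [e]
        exact hli }
  have form : ∀ η : (Fin N → ℝ) → Fin N → ℝ, ContDiffAt ℝ ∞ η p → η p ≠ 0 →
      (∀ j, ∀ᶠ x in 𝓝 p, prF η (Z j) x = 0) →
      ∃ θ : Fin N → OO p, RepV (fun x i => (η x i : ℂ)) θ ∧ F.Form θ := by
    intro η h n₁ a₁
    obtain ⟨θ, hθ⟩ := RepV.exists (V := fun x i => (η x i : ℂ)) (contDiffAt_pi.2 fun i =>
      Complex.ofRealCLM.contDiff.contDiffAt.comp p (contDiffAt_pi.1 h i))
    refine ⟨θ, hθ, fun i => ((hθ i).star.eq_iff (hθ i)).2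
      (Eventually.of_forall fun x => Complex.conj_ofReal _),
      fun j => ((hθ.pr (hZg j)).eq_iff Rep.zero).2 (a₁ j), ?_⟩
    obtain ⟨i, hi⟩ := Function.ne_iff.1 n₁
    exact ⟨i, fun e => hi (by simpa using (hθ i).evG.symm.trans e)⟩
  obtain ⟨θ₀, r₀, f₀⟩ := form η₀ h₀ n₀ a₀
  obtain ⟨θ, r, f⟩ := form η h n₁ a₁
  have := main_abstract F f₀ f arc
    (arcPos hN (fun j k => (r₀.pr ((hZg j).br (hZg k).cj)).smul (-Complex.I)) hpos)
    (RepV.span hZg hli' hLg hLZ) m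
  have e1 : ∀ (b : Bool) (l : List Bool),
      RepV (l.foldr (fun c V => brF (pkF L c) V) (pkF L b)) ((jet p).itBr Lg b l) := by
    intro b l
    induction l with
    | nil => exact hLg.pk b
    | cons c l ih => exact (hLg.pk c).br ih
  have e2 : ∀ w : List Bool, Rep (w.foldr (fun c f => actF (pkF L c) f) (prF η (brF L (cjF L))))
      (wordD (fun b => (jet p).D (pk Lg b)) w (pairO θ ((jet p).br Lg (star Lg)))) := by
    intro w
    induction w with
    | nil => exact r.pr (hLg.br hLg.cj)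
    | cons c w ih => exact (hLg.pk c).act ih
  have e3 : ∀ b l, (jet p).ev (pairO θ ((jet p).itBr Lg b l)) = _ := fun b l => (r.pr (e1 b l)).evG
  have e4 : ∀ w, (jet p).ev (wordD (fun b => (jet p).D (pk Lg b)) w
      (pairO θ ((jet p).br Lg (star Lg)))) = _ := fun w => (e2 w).evG
  simpa only [e3, e4] using this

end Pool.Agent.P.MP_1b6414_an
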