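import Pool.Agent.P.MP_1b6414_an.PFun

/-! The core: plurisubharmonic polynomials on the complex group that vanish on the real group. -/

namespace Pool.Agent.P.MP_1b6414_an

open Set Complex

variable {B : Type*} [Ring B] [Algebra ℂ B]

/-- Hypotheses on the polarised polynomial. -/
structure Hyp (N : Nil B) (q : PFun (B × B)) : Prop where
  real0 : ∀ x y, starRingEnd ℂ (q.f (x, y)) = q.f (N.σ y, N.σ x)
  real1 : ∀ x y u v, starRingEnd ℂ (q.d (x, y) (u, v)) = q.d (N.σ y, N.σ x) (N.σ v, N.σ u)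
  real2 : ∀ x y u v u' v', starRingEnd ℂ (q.dd (x, y) (u, v) (u', v')) =
    q.dd (N.σ y, N.σ x) (N.σ v, N.σ u) (N.σ v', N.σ u')
  zeroG : ∀ x ∈ N.g, N.σ x = x → q.f (ex x, ex x) = 0
  inv0 : ∀ x y u v, q.f (x + u * N.σ N.a, y + v * N.a) = q.f (x, y)
  inv1 : ∀ p u v, q.d p (u * N.σ N.a, v * N.a) = 0
  inv2 : ∀ p u v w, q.dd p (u * N.σ N.a, v * N.a) w = 0
  psd : ∀ x ∈ N.g, ∀ ν ∈ N.g,
    0 ≤ (q.dd (ex x, N.σ (ex x)) (ν * ex x, 0) (0, N.σ (ν * ex x))).re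

namespace Nil

variable (N : Nil B)

/-- Elements of the complex group. -/
def CG (γ : B) : Prop := ∃ x ∈ N.g, γ = ex x

/-- Elements of the real group. -/
def RG (γ : B) : Prop := ∃ x ∈ N.g, N.σ x = x ∧ γ = ex x

/-- Tangent vectors at a group element. -/
def Tan (γ u : B) : Prop := ∃ ν ∈ N.g, u = ν * γ

variable {N}

theorem RG.cg {γ : B} (h : N.RG γ) : N.CG γ := by
  obtain ⟨x, hx, -, rfl⟩ := h; exact ⟨x, hx, rfl⟩

theorem RG.σ_eq {γ : B} (h : N.RG γ) : N.σ γ = γ := by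
  obtain ⟨x, hx, h1, rfl⟩ := h; rw [N.σ_ex (N.g_F hx), h1]

theorem CG.mul {γ δ : B} (h : N.CG γ) (h' : N.CG δ) : N.CG (γ * δ) := by
  obtain ⟨x, hx, rfl⟩ := h
  obtain ⟨y, hy, rfl⟩ := h'
  exact N.bch hx hy

theorem CG.σ {γ : B} (h : N.CG γ) : N.CG (N.σ γ) := by
  obtain ⟨x, hx, rfl⟩ := h
  exact ⟨N.σ x, N.g_σ hx, N.σ_ex (N.g_F hx)⟩

theorem RG.mul {γ δ : B} (h : N.RG γ) (h' : N.RG δ) : N.RG (γ * δ) := by
  obtain ⟨x, hx, hx', rfl⟩ := h
  obtain ⟨y, hy, hy', rfl⟩ := h'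
  obtain ⟨z, hz, e⟩ := N.bch hx hy
  exact ⟨z, hz, N.bch_real hx hy hz hx' hy' e, e⟩

theorem RG_one : N.RG 1 := ⟨0, zero_mem _, map_zero _, ex_zero.symm⟩

theorem σ_real_smul {x : B} (hx : N.σ x = x) (s : ℝ) : N.σ ((s : ℂ) • x) = (s : ℂ) • x := by
  rw [N.σ_smul, hx, conj_ofReal]

theorem RG_ex {x : B} (hx : x ∈ N.g) (hr : N.σ x = x) (s : ℝ) : N.RG (ex ((s : ℂ) • x)) :=
  ⟨_, Submodule.smul_mem _ _ hx, σ_real_smul hr s, rfl⟩

theorem σ_ex_smul {x : B} (hx : x ∈ N.g) (hr : N.σ x = x) (z : ℂ) :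
    N.σ (ex (z • x)) = ex (starRingEnd ℂ z • x) := by
  rw [N.σ_ex (N.g_F (Submodule.smul_mem _ _ hx)), N.σ_smul, hr]

theorem CG.tan_left {γ ν : B} (h : N.CG γ) (hν : ν ∈ N.g) : N.Tan γ (γ * ν) := by
  obtain ⟨x, hx, rfl⟩ := h
  refine ⟨_, N.conj_g hx hν, ?_⟩
  rw [mul_assoc, ex_neg_mul (N.g_nilp hx), mul_one]

theorem Tan.mul_right {γ u : B} (h : N.Tan γ u) (δ : B) : N.Tan (γ * δ) (u * δ) := by
  obtain ⟨ν, hν, rfl⟩ := h
  exact ⟨ν, hν, mul_assoc _ _ _⟩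

theorem real_decomp {x : B} (hx : x ∈ N.g) :
    ∃ y ∈ N.g, ∃ z ∈ N.g, N.σ y = y ∧ N.σ z = z ∧ x = y + I • z := by
  refine ⟨(2 : ℂ)⁻¹ • (x + N.σ x), Submodule.smul_mem _ _ (add_mem hx (N.g_σ hx)),
    (-I * 2⁻¹) • (x - N.σ x), Submodule.smul_mem _ _ (sub_mem hx (N.g_σ hx)), ?_, ?_, ?_⟩
  · rw [N.σ_smul, map_add, N.σσ, map_inv₀, show (starRingEnd ℂ) 2 = 2 from conj_ofNat 2, add_comm]
  · rw [N.σ_smul, map_sub, N.σσ, map_mul, map_inv₀, show (starRingEnd ℂ) 2 = 2 from conj_ofNat 2,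
      map_neg, conj_I]
    module
  · rw [smul_smul, show I * (-I * 2⁻¹) = 2⁻¹ by rw [← mul_assoc]; simp]
    module

end Nil

open Nil

namespace Hyp

variable {N : Nil B} {q : PFun (B × B)} (H : Hyp N q)
include H

theorem psd' {γ u : B} (hγ : N.CG γ) (hu : N.Tan γ u) :
    0 ≤ (q.dd (γ, N.σ γ) (u, 0) (0, N.σ u)).re := by
  obtain ⟨x, hx, rfl⟩ := hγ
  obtain ⟨ν, hν, rfl⟩ := hu
  exact H.psd x hx ν hν

theorem herm (γ u v : B) : starRingEnd ℂ (q.dd (γ, N.σ γ) (u, 0) (0, N.σ v)) =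
    q.dd (γ, N.σ γ) (v, 0) (0, N.σ u) := by
  rw [H.real2, N.σσ, N.σσ, map_zero, q.symm]

theorem null {γ u v : B} (hγ : N.CG γ) (hu : N.Tan γ u) (hv : N.Tan γ v)
    (h0 : q.dd (γ, N.σ γ) (v, 0) (0, N.σ v) = 0) : q.dd (γ, N.σ γ) (u, 0) (0, N.σ v) = 0 := by
  set β := q.dd (γ, N.σ γ) (u, 0) (0, N.σ v) with hβ
  have hβ' : q.dd (γ, N.σ γ) (v, 0) (0, N.σ u) = starRingEnd ℂ β := (H.herm γ u v).symm
  have key : ∀ t : ℝ, 0 ≤ (q.dd (γ, N.σ γ) (u, 0) (0, N.σ u)).re - 2 * t * normSq β := by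
    intro t
    have ht : N.Tan γ (u + (-(t : ℂ) * β) • v) := by
      obtain ⟨ν, hν, rfl⟩ := hu
      obtain ⟨μ, hμ, rfl⟩ := hv
      exact ⟨ν + (-(t : ℂ) * β) • μ, add_mem hν (Submodule.smul_mem _ _ hμ), by
        rw [add_mul, smul_mul_assoc]⟩
    have h1 := H.psd' hγ ht
    have e1 : ((u + (-(t : ℂ) * β) • v, 0) : B × B) = (u, 0) + (-(t : ℂ) * β) • (v, 0) := by simp
    have e2 : ((0, N.σ (u + (-(t : ℂ) * β) • v)) : B × B) =
        (0, N.σ u) + (starRingEnd ℂ (-(t : ℂ) * β)) • (0, N.σ v) := by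
      rw [map_add, N.σ_smul]; simp
    rw [e1, e2] at h1
    simp only [map_add, map_smul, LinearMap.add_apply, LinearMap.smul_apply, smul_eq_mul] at h1
    rw [h0, hβ', ← hβ] at h1
    simp only [map_mul, map_neg, conj_ofReal, mul_zero, add_zero, add_re, mul_re, neg_re,
      ofReal_re, neg_im, ofReal_im, conj_re, conj_im, mul_im] at h1
    rw [normSq_apply]
    nlinarith
  by_contra hne
  have hpos : 0 < normSq β := normSq_pos.2 hne
  have := key (((q.dd (γ, N.σ γ) (u, 0) (0, N.σ u)).re + 1) / (2 * normSq β))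
  have e : 2 * (((q.dd (γ, N.σ γ) (u, 0) (0, N.σ u)).re + 1) / (2 * normSq β)) * normSq β =
      (q.dd (γ, N.σ γ) (u, 0) (0, N.σ u)).re + 1 := by field_simp
  linarith

theorem zeroRG {γ : B} (h : N.RG γ) : q.f (γ, γ) = 0 := by
  obtain ⟨x, hx, hr, rfl⟩ := h
  exact H.zeroG x hx hr

/-- The set of group elements whose real orbit lies in the zero set. -/
def ZZ (N : Nil B) (q : PFun (B × B)) (γ : B) : Prop :=
  ∀ δ, N.RG δ → q.f (δ * γ, δ * N.σ γ) = 0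

/-- Critical points on the real group. -/
def Zs (N : Nil B) (q : PFun (B × B)) (γ : B) : Prop := ∀ ν ∈ N.g, q.d (γ, γ) (ν * γ, 0) = 0

theorem ZZ_of_RG {γ : B} (h : N.RG γ) : ZZ N q γ := fun δ hδ => by
  rw [h.σ_eq]; exact H.zeroRG (hδ.mul h)

omit H in
theorem ZZ.left {γ δ : B} (h : ZZ N q γ) (hδ : N.RG δ) : ZZ N q (δ * γ) := fun ε hε => by
  rw [map_mul, hδ.σ_eq, ← mul_assoc, ← mul_assoc]; exact h _ (hε.mul hδ)

theorem ZZ.right {γ : B} (h : ZZ N q γ) (c : ℂ) : ZZ N q (γ * ex (c • N.σ N.a)) := fun δ hδ => by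
  obtain ⟨u, hu⟩ := ex_eq_one_add (N.nilp (N.σ_F N.a_F)) c
  rw [hu, map_mul, map_add, map_one, map_mul, N.σσ]
  have := H.inv0 (δ * γ) (δ * N.σ γ) (δ * γ * u) (δ * N.σ γ * N.σ u)
  rw [h δ hδ] at this
  rw [← this]
  congr 2 <;> noncomm_ring

theorem ZZ.re_d {γ ν : B} (h : ZZ N q γ) (hν : ν ∈ N.g) (hr : N.σ ν = ν) :
    (q.d (γ, N.σ γ) (ν * γ, 0)).re = 0 := by
  have h1 := q.chain ((WD.ex (N.g_nilp hν) 1 γ (hasDerivAt_id (0 : ℂ))).prod
    (WD.ex (N.g_nilp hν) 1 (N.σ γ) (hasDerivAt_id (0 : ℂ))))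
  have h2 := deriv_eq_zero_of_real h1 fun s => by
    simpa using h _ (RG_ex hν hr s)
  simp only [id, zero_smul, ex_zero, one_mul, mul_one, one_smul] at h2
  have h3 := H.real1 γ (N.σ γ) (ν * γ) 0
  rw [N.σσ, map_zero, map_mul, hr] at h3
  have e : ((ν * γ, ν * N.σ γ) : B × B) = (ν * γ, 0) + (0, ν * N.σ γ) := by simp
  rw [e, map_add, ← h3, add_conj] at h2
  simpa using h2

theorem strip {q0 ξ : B} (hq : N.RG q0) (hZ : Zs N q q0) (hξ : ξ ∈ N.g) (hr : N.σ ξ = ξ)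
    (hI : ZZ N q (ex (I • ξ))) :
    (∀ a b : ℂ, q.f (q0 * ex ((a + I * b) • ξ), q0 * ex ((a + -I * b) • ξ)) = 0) ∧
      ∀ s : ℝ, Zs N q (q0 * ex ((s : ℂ) • ξ)) := by
  have hn := N.g_nilp hξ
  let h : B → ℂ → B := fun A z => A * ex (z • ξ) * 1
  have hWD : ∀ (A : B) {c : ℂ → ℂ} {c' z : ℂ}, HasDerivAt c c' z →
      WD (fun w => h A (c w)) (c' • h (A * ξ) (c z)) z := fun A _ _ _ hc => WD.ex hn A 1 hc
  have hσ : ∀ A z, N.σ A = A → N.σ (h A z) = h A (starRingEnd ℂ z) := by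
    intro A z hA
    simp only [h, mul_one, map_mul, hA, σ_ex_smul hξ hr]
  have hCG : ∀ z, N.CG (h q0 z) := fun z => by
    simpa [h] using hq.cg.mul ⟨_, Submodule.smul_mem _ z hξ, rfl⟩
  have hTan : ∀ z, N.Tan (h q0 z) (h (q0 * ξ) z) := fun z => by
    simpa [h] using (hq.cg.tan_left hξ).mul_right (ex (z • ξ))
  have hq0ξ : N.σ (q0 * ξ) = q0 * ξ := by rw [map_mul, hq.σ_eq, hr]
  let Γ : B → ℂ → ℂ → B × B := fun A a b => (h A (a + I * b), h A (a + -I * b))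
  let V : B → ℂ → ℂ → B × B := fun A a b => (I • h A (a + I * b), -I • h A (a + -I * b))
  have da : ∀ A a b, WD (fun w => Γ A w b) (Γ (A * ξ) a b) a := fun A a b => by
    simpa [Γ] using (hWD A ((hasDerivAt_id a).add_const (I * b))).prod
      (hWD A ((hasDerivAt_id a).add_const (-I * b)))
  have lb : ∀ (c a b : ℂ), HasDerivAt (fun w => a + c * w) c b := fun c a b => by
    simpa using ((hasDerivAt_id b).const_mul c).const_add a
  have db : ∀ A a b, WD (fun w => Γ A a w) (V (A * ξ) a b) b := fun A a b =>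
    (hWD A (lb I a b)).prod (hWD A (lb (-I) a b))
  have db2 : ∀ A a b, WD (fun w => V A a w) (-Γ (A * ξ) a b) b := fun A a b => by
    have := ((hWD A (lb I a b)).smul I).prod ((hWD A (lb (-I) a b)).smul (-I))
    simpa [Γ, V, smul_smul] using this
  have lap : ∀ a b, q.dd (Γ q0 a b) (Γ (q0 * ξ) a b) (Γ (q0 * ξ) a b) +
      q.d (Γ q0 a b) (Γ (q0 * ξ * ξ) a b) +
      (q.dd (Γ q0 a b) (V (q0 * ξ) a b) (V (q0 * ξ) a b) + q.d (Γ q0 a b) (-Γ (q0 * ξ * ξ) a b)) =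
      4 * q.dd (Γ q0 a b) (h (q0 * ξ) (a + I * b), 0) (0, h (q0 * ξ) (a + -I * b)) := by
    intro a b
    set P : B × B := (h (q0 * ξ) (a + I * b), 0) with hP
    set R : B × B := (0, h (q0 * ξ) (a + -I * b)) with hR
    have e1 : Γ (q0 * ξ) a b = P + R := by simp [Γ, hP, hR]
    have e2 : V (q0 * ξ) a b = I • P + -I • R := by simp [V, hP, hR]
    rw [e1, e2]
    simp only [map_add, map_smul, map_neg, LinearMap.add_apply, LinearMap.smul_apply,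
      smul_eq_mul, q.symm _ R P]
    linear_combination (q.dd (Γ q0 a b) P P - 2 * q.dd (Γ q0 a b) P R + q.dd (Γ q0 a b) R R) *
      I_mul_I
  have hconj : ∀ s t : ℝ, starRingEnd ℂ ((s : ℂ) + I * t) = s + -I * t := by intro s t; simp
  have hΓreal : ∀ s t : ℝ, Γ q0 s t = (h q0 (s + I * t), N.σ (h q0 (s + I * t))) := by
    intro s t; rw [hσ _ _ hq.σ_eq, hconj]
  have hS2 : (fun p : ℝ × ℝ => q.f (Γ q0 p.1 p.2)) ∈ S2 :=
    q.alg ((InAlg.ex hn q0 1 (lin_mem_S2 I)).prod (InAlg.ex hn q0 1 (lin_mem_S2 (-I))))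
  have hsub : SubH (fun s t : ℝ => (q.f (Γ q0 s t)).re) := by
    refine ⟨continuous_re.comp hS2.1,
      fun s t => (q.d (Γ q0 s t) (Γ (q0 * ξ) s t)).re,
      fun s t => (q.dd (Γ q0 s t) (Γ (q0 * ξ) s t) (Γ (q0 * ξ) s t) +
        q.d (Γ q0 s t) (Γ (q0 * ξ * ξ) s t)).re,
      fun s t => (q.d (Γ q0 s t) (V (q0 * ξ) s t)).re,
      fun s t => (q.dd (Γ q0 s t) (V (q0 * ξ) s t) (V (q0 * ξ) s t) +
        q.d (Γ q0 s t) (-Γ (q0 * ξ * ξ) s t)).re,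
      fun s t => (q.chain (da q0 s t)).real_of_complex,
      fun s t => (q.chain2 (da q0 s t) (da (q0 * ξ) s t)).real_of_complex,
      fun s t => (q.chain (db q0 s t)).real_of_complex,
      fun s t => (q.chain2 (db q0 s t) (db2 (q0 * ξ) s t)).real_of_complex, fun s t => ?_⟩
    rw [← add_re, lap, hΓreal, ← hconj, ← hσ _ _ hq0ξ]
    have := H.psd' (hCG (s + I * t)) (hTan _)
    simp only [mul_re, re_ofNat, im_ofNat, zero_mul, sub_zero]
    linarith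
  obtain ⟨C, d, hgr⟩ := hS2.2
  have hb0 : ∀ s : ℝ, ZZ N q (h q0 s) := fun s =>
    H.ZZ_of_RG (by simpa [h] using hq.mul (RG_ex hξ hr s))
  have hb1 : ∀ s : ℝ, ZZ N q (h q0 (s + I)) := fun s => by
    have := ZZ.left hI (hq.mul (RG_ex hξ hr s))
    simpa [h, ex_smul_add hn, mul_assoc] using this
  have hre := hsub.strip_eq_zero (C := C) (d := d)
    (fun s t ht => (re_le_norm _).trans (hgr s t ht))
    (fun s => by
      have := hb0 s 1 RG_one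
      rw [one_mul, one_mul, hσ _ _ hq.σ_eq, conj_ofReal] at this
      simp [Γ, this])
    (fun s => by
      have := hb1 s 1 RG_one
      rw [one_mul, one_mul] at this
      show (q.f (Γ q0 s ((1 : ℝ) : ℂ))).re = 0
      rw [hΓreal, ofReal_one, mul_one, this, zero_re])
    (by
      have h1 := (q.chain (db q0 ((0 : ℝ) : ℂ) ((0 : ℝ) : ℂ))).real_of_complex
      obtain ⟨ν, hν, e⟩ := hq.cg.tan_left hξ
      have h2 : q.d (q0, q0) (q0 * ξ, 0) = 0 := by rw [e]; exact hZ ν hν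
      have h3 := H.real1 q0 q0 (q0 * ξ) 0
      rw [h2, map_zero, map_zero, hq.σ_eq, hq0ξ] at h3
      have e2 : V (q0 * ξ) ((0 : ℝ) : ℂ) ((0 : ℝ) : ℂ) =
          I • (q0 * ξ, 0) + -I • ((0, q0 * ξ) : B × B) := by simp [V, h]
      have e3 : Γ q0 ((0 : ℝ) : ℂ) ((0 : ℝ) : ℂ) = (q0, q0) := by simp [Γ, h]
      rw [e2, e3, map_add, map_smul, map_smul, h2, ← h3] at h1
      simpa using h1)
  have inA : ∀ A (c b : ℂ), InAlg P1 (fun a => h A (a + c * b)) := fun A c b => by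
    have := InAlg.ex hn A 1 (affine_mem_P1 1 (c * b))
    simpa [h] using this
  have inB : ∀ A (c a : ℂ), InAlg P1 (fun b => h A (a + c * b)) := fun A c a => by
    have := InAlg.ex hn A 1 (affine_mem_P1 c a)
    simpa [h, add_comm] using this
  have hF : ∀ a b, q.f (Γ q0 a b) = 0 := by
    refine P1_eq_zero2 (fun b => q.alg ((inA _ _ _).prod (inA _ _ _)))
      (fun a => q.alg ((inB _ _ _).prod (inB _ _ _))) fun s t ht => ?_
    have h1 := hre s t ht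
    have h2 := H.real0 (h q0 (s + I * t)) (N.σ (h q0 (s + I * t)))
    rw [N.σσ, ← hΓreal] at h2
    exact Complex.ext h1 (conj_eq_iff_im.1 h2)
  refine ⟨fun a b => by simpa [Γ, h] using hF a b, ?_⟩
  have hPR : ∀ a b, q.dd (Γ q0 a b) (h (q0 * ξ) (a + I * b), 0) (0, h (q0 * ξ) (a + -I * b)) = 0 := by
    intro a b
    have a1 : ∀ a b, q.d (Γ q0 a b) (Γ (q0 * ξ) a b) = 0 := fun a b =>
      deriv_eq_zero_of_zero (f := fun w => q.f (Γ q0 w b)) (q.chain (da q0 a b)) fun w => hF w b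
    have a2 : ∀ a b, q.d (Γ q0 a b) (V (q0 * ξ) a b) = 0 := fun a b =>
      deriv_eq_zero_of_zero (q.chain (db q0 a b)) fun w => hF a w
    have a3 := deriv_eq_zero_of_zero (q.chain2 (da q0 a b) (da (q0 * ξ) a b)) fun w => a1 w b
    have a4 := deriv_eq_zero_of_zero (q.chain2 (db q0 a b) (db2 (q0 * ξ) a b)) fun w => a2 a w
    have := lap a b
    rw [a3, a4] at this
    simpa using this
  have hreal : ∀ ν ∈ N.g, N.σ ν = ν → ∀ s : ℝ, q.d (h q0 s, h q0 s) (ν * h q0 s, 0) = 0 := by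
    intro ν hν hνr
    have hmul : ∀ z, ν * h q0 z = h (ν * q0) z := fun z => by simp [h, mul_assoc]
    have hG : ∀ a b, q.dd (Γ q0 a b) (h (ν * q0) (a + I * b), 0)
        (0, h (q0 * ξ) (a + -I * b)) = 0 := by
      refine P1_eq_zero2
        (fun b => q.alg2 ((inA _ _ _).prod (inA _ _ _)) ((inA _ _ _).prod (InAlg.const _ _))
          ((InAlg.const _ _).prod (inA _ _ _)))
        (fun a => q.alg2 ((inB _ _ _).prod (inB _ _ _)) ((inB _ _ _).prod (InAlg.const _ _))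
          ((InAlg.const _ _).prod (inB _ _ _))) fun s t _ => ?_
      have h1 := hPR s t
      rw [hΓreal, ← hconj, ← hσ _ _ hq0ξ] at h1 ⊢
      exact H.null (hCG _) ⟨ν, hν, (hmul _).symm⟩ (hTan _) h1
    have hω : ∀ ζ ω, q.d (h q0 ζ, h q0 ω) (h (ν * q0) ζ, 0) =
        q.d (h q0 ζ, h q0 0) (h (ν * q0) ζ, 0) := by
      intro ζ ω
      have hd : ∀ w, HasDerivAt (fun w => q.d (h q0 ζ, h q0 w) (h (ν * q0) ζ, 0)) 0 w := by
        intro w
        have h1 := q.chain2 ((WD.const (h q0 ζ) w).prod (hWD q0 (hasDerivAt_id w)))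
          (WD.const ((h (ν * q0) ζ, 0) : B × B) w)
        have h2 := hG ((ζ + w) / 2) ((ζ - w) / (2 * I))
        have e1 : (ζ + w) / 2 + I * ((ζ - w) / (2 * I)) = ζ := by field_simp; ring
        have e2 : (ζ + w) / 2 + -I * ((ζ - w) / (2 * I)) = w := by field_simp; ring
        simp only [Γ, e1, e2] at h2
        simp only [id, one_smul, map_zero, add_zero, h2] at h1
        exact h1
      exact is_const_of_deriv_eq_zero (fun w => (hd w).differentiableAt)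
        (fun w => (hd w).deriv) ω 0
    have hp : (fun ζ => q.d (h q0 ζ, h q0 0) (h (ν * q0) ζ, 0)) ∈ P1 := by
      have i1 : ∀ A, InAlg P1 (fun a => h A a) := fun A => by simpa using inA A 0 0
      exact q.alg1 ((i1 _).prod (InAlg.const _ _)) ((i1 _).prod (InAlg.const _ _))
    have hre' : ∀ ζ, ZZ N q (h q0 ζ) → (q.d (h q0 ζ, h q0 0) (h (ν * q0) ζ, 0)).re = 0 := by
      intro ζ hζ
      rw [← hω ζ (starRingEnd ℂ ζ), ← hσ _ _ hq.σ_eq, ← hmul]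
      exact ZZ.re_d H hζ hν hνr
    intro s
    have := P1_const hp (fun s => hre' _ (hb0 s)) (fun s => hre' _ (hb1 s)) s
    rw [hmul, hω, this]
    simpa [h] using hZ ν hν
  intro s ν hν
  obtain ⟨y, hy, z, hz, hyr, hzr, rfl⟩ := real_decomp hν
  have e : (((y + I • z) * (q0 * ex ((s : ℂ) • ξ)), 0) : B × B) =
      (y * h q0 s, 0) + I • (z * h q0 s, 0) := by simp [h, add_mul]
  have e2 : q0 * ex ((s : ℂ) • ξ) = h q0 s := by simp [h]
  rw [e, e2, map_add, map_smul, hreal y hy hyr, hreal z hz hzr]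
  simp

omit H in
theorem ex_neg_of_mul {x y z : B} (hx : x ∈ N.g) (hy : y ∈ N.g) (hz : z ∈ N.g)
    (h : ex x * ex y = ex z) : ex (-z) = ex (-y) * ex (-x) := by
  calc ex (-z) = ex (-z) * (ex x * (ex y * ex (-y)) * ex (-x)) := by
        rw [ex_mul_neg (N.g_nilp hy), mul_one, ex_mul_neg (N.g_nilp hx), mul_one]
    _ = ex (-z) * (ex x * ex y) * (ex (-y) * ex (-x)) := by simp only [mul_assoc]
    _ = ex (-y) * ex (-x) := by rw [h, ex_neg_mul (N.g_nilp hz), one_mul]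

theorem Zs_all (h1 : Zs N q 1) {γ : B} (hγ : N.RG γ) : Zs N q γ := by
  let T : Set B := {y | y ∈ N.g ∧ N.σ y = y ∧
    ∀ δ, N.RG δ → Zs N q δ → Zs N q (δ * ex y) ∧ Zs N q (δ * ex (-y))}
  have hneg : ∀ {y}, N.σ y = y → N.σ (-y) = -y := fun h => by rw [map_neg, h]
  have hT := chow_real (N := N) (T := T) (fun x hx => hx.1)
    ⟨zero_mem _, map_zero _, fun δ _ h => by simpa using h⟩
    (fun x hx => ⟨neg_mem hx.1, hneg hx.2.1, fun δ h h' => by
      rw [neg_neg]; exact (hx.2.2 δ h h').symm⟩)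
    (fun x hx y hy z hz e => ⟨hz, N.bch_real hx.1 hy.1 hz hx.2.1 hy.2.1 e, fun δ h h' => by
      rw [ex_neg_of_mul hx.1 hy.1 hz e, ← e, ← mul_assoc, ← mul_assoc]
      exact ⟨(hy.2.2 _ (h.mul ⟨x, hx.1, hx.2.1, rfl⟩) (hx.2.2 δ h h').1).1,
        (hx.2.2 _ (h.mul ⟨-y, neg_mem hy.1, hneg hy.2.1, rfl⟩) (hy.2.2 δ h h').2).2⟩⟩)
    (fun x hx => hx.2.1) (fun s => by
      have hb : (2 * I * starRingEnd ℂ s) • N.σ N.a ∈ N.g :=
        Submodule.smul_mem _ _ (N.gr_le_g N.σa_mem)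
      obtain ⟨y, hy, z, hz, hyr, hzr, e1, e2⟩ := N.polar hb
      have hI : ZZ N q (ex (I • y)) := by
        have := ZZ.left (ZZ.right H (H.ZZ_of_RG RG_one) (2 * I * starRingEnd ℂ s))
          ⟨-z, neg_mem hz, hneg hzr, rfl⟩
        rwa [one_mul, e1, ← mul_assoc, ex_neg_mul (N.g_nilp hz), one_mul] at this
      refine ⟨y, ⟨hy, hyr, fun δ h h' => ?_⟩, ?_⟩
      · have := (H.strip h h' hy hyr hI).2
        exact ⟨by simpa using this 1, by simpa using this (-1)⟩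
      · have h2 := N.bch_lead (j := 0) (neg_mem (N.σ_F (N.g_F hb))) (N.g_F hb)
          (N.g_F (Submodule.smul_mem _ _ hy)) e2
        have h3 := Submodule.smul_mem _ (2 * I)⁻¹ h2
        have e : (2 * I)⁻¹ • ((2 * I) • y - (-N.σ ((2 * I * starRingEnd ℂ s) • N.σ N.a) +
            (2 * I * starRingEnd ℂ s) • N.σ N.a)) =
            y - (s • N.a + starRingEnd ℂ s • N.σ N.a) := by
          rw [N.σ_smul, N.σσ, map_mul, map_mul, conj_conj, conj_I,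
            show (starRingEnd ℂ) 2 = 2 from conj_ofNat 2]
          have hI0 : (2 * I : ℂ) ≠ 0 := by simp
          match_scalars <;> field_simp
        rwa [e] at h3)
  obtain ⟨y, hy, hyr, rfl⟩ := hγ
  simpa using ((hT y hy hyr).2.2 1 RG_one h1).1

theorem vanish (h1 : ∀ ν ∈ N.g, q.d (1, 1) (ν, 0) = 0) {γ : B} (hγ : N.CG γ) :
    q.f (γ, N.σ γ) = 0 := by
  have hZ : ∀ {δ}, N.RG δ → Zs N q δ := fun h => H.Zs_all (fun ν hν => by simpa using h1 ν hν) h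
  have hσ : ∀ {δ}, N.CG δ → ZZ N q δ → ZZ N q (N.σ δ) := by
    rintro _ ⟨x, hx, rfl⟩ hδ
    obtain ⟨y, hy, z, hz, hyr, hzr, e1, -⟩ := N.polar hx
    have hzR : N.RG (ex z) := ⟨z, hz, hzr, rfl⟩
    have hI : ZZ N q (ex (I • y)) := by
      have := ZZ.left hδ ⟨-z, neg_mem hz, by rw [map_neg, hzr], rfl⟩
      rwa [e1, ← mul_assoc, ex_neg_mul (N.g_nilp hz), one_mul] at this
    intro ε hε
    have := (H.strip (hε.mul hzR) (hZ (hε.mul hzR)) hy hyr hI).1 0 (-1)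
    rw [N.σσ, e1, map_mul, hzR.σ_eq, σ_ex_smul hy hyr, conj_I]
    simpa [mul_assoc] using this
  let T : Set B := {y | y ∈ N.g ∧
    ∀ δ, N.CG δ → ZZ N q δ → ZZ N q (δ * ex y) ∧ ZZ N q (δ * ex (-y))}
  have ha : ∀ (s : ℂ) δ, N.CG δ → ZZ N q δ → ZZ N q (δ * ex (s • N.a)) := by
    intro s δ h h'
    have hb : starRingEnd ℂ s • N.σ N.a ∈ N.g := Submodule.smul_mem _ _ (N.gr_le_g N.σa_mem)
    have := hσ (h.σ.mul ⟨_, hb, rfl⟩) (ZZ.right H (hσ h h') (starRingEnd ℂ s))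
    rwa [map_mul, N.σσ, N.σ_ex (N.g_F hb), N.σ_smul, N.σσ, conj_conj] at this
  have hT := chow_complex (N := N) (T := T) (fun x hx => hx.1)
    ⟨zero_mem _, fun δ _ h => by simpa using h⟩
    (fun x hx => ⟨neg_mem hx.1, fun δ h h' => by rw [neg_neg]; exact (hx.2 δ h h').symm⟩)
    (fun x hx y hy z hz e => ⟨hz, fun δ h h' => by
      rw [ex_neg_of_mul hx.1 hy.1 hz e, ← e, ← mul_assoc, ← mul_assoc]
      exact ⟨(hy.2 _ (h.mul ⟨x, hx.1, rfl⟩) (hx.2 δ h h').1).1,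
        (hx.2 _ (h.mul ⟨-y, neg_mem hy.1, rfl⟩) (hy.2 δ h h').2).2⟩⟩)
    (fun s => ⟨Submodule.smul_mem _ _ (N.gr_le_g N.a_mem), fun δ h h' =>
      ⟨ha s δ h h', by rw [← neg_smul]; exact ha _ δ h h'⟩⟩)
    (fun s => ⟨Submodule.smul_mem _ _ (N.gr_le_g N.σa_mem), fun δ _ h' =>
      ⟨ZZ.right H h' s, by rw [← neg_smul]; exact ZZ.right H h' _⟩⟩)
  obtain ⟨y, hy, rfl⟩ := hγ
  simpa using ((hT y hy).2 1 RG_one.cg (H.ZZ_of_RG RG_one)).1 1 RG_one

theorem levi_null (h : ∀ γ, N.RG γ → q.dd (γ, γ) (γ * N.a, 0) (0, γ * N.σ N.a) = 0) :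
    ∀ ν ∈ N.g, q.d (1, 1) (ν, 0) = 0 := by
  have lin : ∀ (φ : B →ₗ[ℂ] ℂ), (∀ x ∈ N.g, N.σ x = x → φ x = 0) → ∀ x ∈ N.g, φ x = 0 := by
    intro φ hφ x hx
    obtain ⟨y, hy, z, hz, hyr, hzr, rfl⟩ := real_decomp hx
    rw [map_add, map_smul, hφ y hy hyr, hφ z hz hzr]; simp
  let dia : B → B →ₗ[ℂ] B × B := fun γ => (LinearMap.mulLeft ℂ γ).prod (LinearMap.mulLeft ℂ γ)
  have tang : ∀ γ, N.RG γ → ∀ x ∈ N.g, q.d (γ, γ) (γ * x, γ * x) = 0 := by
    intro γ hγ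
    refine lin (q.d (γ, γ) ∘ₗ dia γ) fun x hx hr => ?_
    have h1 := q.chain ((WD.ex (N.g_nilp hx) γ 1 (hasDerivAt_id (0 : ℂ))).prod
      (WD.ex (N.g_nilp hx) γ 1 (hasDerivAt_id (0 : ℂ))))
    have h2 := deriv_eq_zero_of_real h1 fun s => by
      simpa using H.zeroRG (hγ.mul (RG_ex hx hr s))
    simpa [dia] using h2
  have D : ∀ ν, (∀ γ, N.RG γ → q.d (γ, γ) (γ * ν, 0) = 0) → ∀ γ, N.RG γ → ∀ x ∈ N.g,
      q.dd (γ, γ) (γ * ν, 0) (γ * x, γ * x) + q.d (γ, γ) (γ * x * ν, 0) = 0 := by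
    intro ν hν γ hγ
    refine lin (q.dd (γ, γ) (γ * ν, 0) ∘ₗ dia γ + q.d (γ, γ) ∘ₗ LinearMap.inl ℂ B B ∘ₗ
      LinearMap.mulRight ℂ ν ∘ₗ LinearMap.mulLeft ℂ γ) fun x hx hr => ?_
    have h1 := q.chain2 ((WD.ex (N.g_nilp hx) γ 1 (hasDerivAt_id (0 : ℂ))).prod
      (WD.ex (N.g_nilp hx) γ 1 (hasDerivAt_id (0 : ℂ))))
      ((WD.ex (N.g_nilp hx) γ ν (hasDerivAt_id (0 : ℂ))).prod (WD.const (0 : B) 0))
    have h2 := deriv_eq_zero_of_real h1 fun s => by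
      simpa using hν _ (hγ.mul (RG_ex hx hr s))
    simpa [dia] using h2
  have one : ∀ ν ∈ N.gr 1, ∀ γ, N.RG γ → q.d (γ, γ) (γ * ν, 0) = 0 := by
    intro ν hν γ hγ
    obtain ⟨s, t, rfl⟩ := N.mem_gr_one.1 hν
    have a1 : q.d (γ, γ) (γ * N.σ N.a, 0) = 0 := by simpa using H.inv1 (γ, γ) γ 0
    have a2 : q.d (γ, γ) (0, γ * N.a) = 0 := by simpa using H.inv1 (γ, γ) 0 γ
    have a3 := tang γ hγ _ (N.gr_le_g N.a_mem)
    have e : ((γ * N.a, γ * N.a) : B × B) = (γ * N.a, 0) + (0, γ * N.a) := by simp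
    rw [e, map_add, a2, add_zero] at a3
    have e2 : ((γ * (s • N.a + t • N.σ N.a), 0) : B × B) =
        s • (γ * N.a, 0) + t • (γ * N.σ N.a, 0) := by simp [mul_add]
    rw [e2, map_add, map_smul, map_smul, a1, a3]; simp
  have all : ∀ j, ∀ ν ∈ N.gr (j + 1), ∀ γ, N.RG γ → q.d (γ, γ) (γ * ν, 0) = 0 := by
    intro j
    induction j with
    | zero => exact one
    | succ j ih =>
      refine N.gr_induction (fun γ _ => by rw [mul_zero]; exact map_zero (q.d (γ, γ))) ?_ ?_ ?_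
      · intro x y hx hy γ hγ
        have e : ((γ * (x + y), 0) : B × B) = (γ * x, 0) + (γ * y, 0) := by simp [mul_add]
        rw [e, map_add, hx γ hγ, hy γ hγ, add_zero]
      · intro c x hx γ hγ
        have e : ((γ * (c • x), 0) : B × B) = c • (γ * x, 0) := by simp
        rw [e, map_smul, hx γ hγ, smul_zero]
      · intro x hx c hc γ hγ
        have d1 := D c (ih c hc) γ hγ x (N.gr_le_g hx)
        have d2 := D x (one x hx) γ hγ c (N.gr_le_g hc)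
        have ta : N.Tan γ (γ * N.a) := hγ.cg.tan_left (N.gr_le_g N.a_mem)
        have h0 : q.dd (γ, N.σ γ) (γ * N.a, 0) (0, N.σ (γ * N.a)) = 0 := by
          rw [map_mul, hγ.σ_eq]; exact h γ hγ
        have n1 : q.dd (γ, γ) (γ * c, 0) (0, γ * N.σ N.a) = 0 := by
          have := H.null hγ.cg (hγ.cg.tan_left (N.gr_le_g hc)) ta h0
          rwa [map_mul, hγ.σ_eq] at this
        have n2 : q.dd (γ, γ) (γ * N.a, 0) (0, γ * c) = 0 := by
          have h3 := H.null hγ.cg (hγ.cg.tan_left (N.gr_le_g (N.gr_σ hc))) ta h0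
          have h4 := H.herm γ (γ * N.σ c) (γ * N.a)
          rw [h3, map_zero, map_mul, N.σσ, hγ.σ_eq] at h4
          exact h4.symm
        have n3 : q.dd (γ, γ) (γ * N.σ N.a, 0) (0, γ * c) = 0 := by
          simpa using H.inv2 (γ, γ) γ 0 (0, γ * c)
        have n4 : q.dd (γ, γ) (γ * c, 0) (0, γ * N.a) = 0 := by
          rw [q.symm]; simpa using H.inv2 (γ, γ) 0 γ (γ * c, 0)
        have m1 : q.dd (γ, γ) (γ * c, 0) (0, γ * x) = 0 := by
          obtain ⟨s, t, rfl⟩ := N.mem_gr_one.1 hx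
          have e2 : ((0, γ * (s • N.a + t • N.σ N.a)) : B × B) =
              s • (0, γ * N.a) + t • (0, γ * N.σ N.a) := by simp [mul_add]
          rw [e2, map_add, map_smul, map_smul, n1, n4]; simp
        have m2 : q.dd (γ, γ) (γ * x, 0) (0, γ * c) = 0 := by
          obtain ⟨s, t, rfl⟩ := N.mem_gr_one.1 hx
          have e2 : ((γ * (s • N.a + t • N.σ N.a), 0) : B × B) =
              s • (γ * N.a, 0) + t • (γ * N.σ N.a, 0) := by simp [mul_add]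
          rw [q.symm, e2, map_add, map_smul, map_smul, q.symm, n2, q.symm, n3]; simp
        have e1 : ((γ * x, γ * x) : B × B) = (γ * x, 0) + (0, γ * x) := by simp
        have e2 : ((γ * c, γ * c) : B × B) = (γ * c, 0) + (0, γ * c) := by simp
        have e3 : ((γ * (x * c - c * x), 0) : B × B) = (γ * x * c, 0) - (γ * c * x, 0) := by
          simp [mul_sub, mul_assoc]
        rw [e1, map_add, m1] at d1
        rw [e2, map_add, m2, q.symm] at d2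
        rw [e3, map_sub]
        linear_combination d1 - d2
  refine N.g_induction (map_zero (q.d (1, 1))) ?_ ?_
  · intro x y hx hy
    have e : ((x + y, 0) : B × B) = (x, 0) + (y, 0) := by simp
    rw [e, map_add, hx, hy, add_zero]
  · intro j c hc
    rcases j with _ | j
    · have : c = 0 := hc
      subst this
      exact map_zero (q.d (1, 1))
    · simpa using all j c hc 1 RG_one

end Hyp

theorem PFun.deriv_vanish {N : Nil B} (q : PFun (B × B))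
    (h : ∀ γ, N.CG γ → q.f (γ, N.σ γ) = 0) {γ ν : B} (hγ : N.CG γ) (hν : ν ∈ N.g) :
    q.d (γ, N.σ γ) (ν * γ, 0) = 0 ∧ q.dd (γ, N.σ γ) (ν * γ, 0) (0, N.σ (ν * γ)) = 0 := by
  have hn := N.g_nilp hν
  have hn' := N.g_nilp (N.g_σ hν)
  have hF : ∀ a b : ℂ, q.f (1 * ex ((a + I * b) • ν) * γ,
      1 * ex ((a + -I * b) • N.σ ν) * N.σ γ) = 0 := by
    refine P1_eq_zero2 (fun b => q.alg ((InAlg.ex hn 1 γ ?_).prod (InAlg.ex hn' 1 _ ?_)))
      (fun a => q.alg ((InAlg.ex hn 1 γ ?_).prod (InAlg.ex hn' 1 _ ?_))) fun s t _ => ?_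
    · simpa using affine_mem_P1 1 (I * b)
    · simpa using affine_mem_P1 1 (-I * b)
    · simpa [add_comm] using affine_mem_P1 I a
    · simpa [add_comm] using affine_mem_P1 (-I) a
    · have hm : ((s : ℂ) + I * t) • ν ∈ N.g := Submodule.smul_mem _ _ hν
      have := h _ (CG.mul ⟨_, hm, rfl⟩ hγ)
      rw [map_mul, N.σ_ex (N.g_F hm), N.σ_smul] at this
      simpa using this
  have hF' : ∀ ζ ω : ℂ, q.f (1 * ex (ζ • ν) * γ, 1 * ex (ω • N.σ ν) * N.σ γ) = 0 := by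
    intro ζ w
    have h2 := hF ((ζ + w) / 2) ((ζ - w) / (2 * I))
    have e1 : (ζ + w) / 2 + I * ((ζ - w) / (2 * I)) = ζ := by field_simp; ring
    have e2 : (ζ + w) / 2 + -I * ((ζ - w) / (2 * I)) = w := by field_simp; ring
    rwa [e1, e2] at h2
  have hd : ∀ ω : ℂ, q.d (γ, 1 * ex (ω • N.σ ν) * N.σ γ) (ν * γ, 0) = 0 := by
    intro ω
    have := deriv_eq_zero_of_zero (q.chain ((WD.ex hn 1 γ (hasDerivAt_id (0 : ℂ))).prod
      (WD.const (1 * ex (ω • N.σ ν) * N.σ γ) 0))) fun w => hF' w ω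
    simpa using this
  refine ⟨by simpa using hd 0, ?_⟩
  have := deriv_eq_zero_of_zero (q.chain2 ((WD.const γ 0).prod
    (WD.ex hn' 1 (N.σ γ) (hasDerivAt_id (0 : ℂ)))) (WD.const ((ν * γ, 0) : B × B) 0)) hd
  simpa using this

end Pool.Agent.P.MP_1b6414_an
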