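import Pool.Agent.P.MP_1b6414_an.Model

/-! The Levi form of the approximate defining polynomial and the transfer of positivity. -/

namespace Pool.Agent.P.MP_1b6414_an

open Finset MvPolynomial

set_option linter.unusedSectionVars false

variable {N : ℕ} {O : Type*} [CommRing O] [Algebra ℂ O] [StarRing O] [StarModule ℂ O]

/-- Germs of functions of a small positive parameter. -/
structure Arc (T : Type*) [CommRing T] [Algebra ℂ T] [StarRing T] where
  t : T
  star_t : star t = t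
  o : ℕ → Ideal T
  t_mem : t ∈ o 0
  o_succ : ∀ m x, x ∈ o m → t * x ∈ o (m + 1)
  o_star : ∀ m x, x ∈ o m → star x ∈ o m
  Pos : T → Prop
  sign : ∀ (m : ℕ) g (c : ℂ), Pos g → g - c • t ^ m ∈ o m → 0 ≤ c.re

/-- Conjugation of one-variable polynomials. -/
noncomputable abbrev cP : Polynomial ℂ →+* Polynomial ℂ := Polynomial.mapRingHom (starRingEnd ℂ)

/-- Existence of arcs with prescribed coordinates along which the form `lam` is positive. -/
def ArcPos {T : Type*} [CommRing T] [Algebra ℂ T] [StarRing T] (J : Jet N O) (A : Arc T) {n : ℕ}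
    (lam : Fin n → Fin n → O) : Prop :=
  ∀ (y : Fin n → O) (u : O), (∀ j, J.ev (y j) = 0) → J.ev u = 0 → star u = u →
    (∀ v : Fin N → ℝ, (∀ j, J.ev (J.D (cst fun i => (v i : ℂ)) (y j)) = 0) →
      J.ev (J.D (cst fun i => (v i : ℂ)) u) = 0 → v = 0) →
    ∀ (Zt : Fin n → Polynomial ℂ) (Ut : Polynomial ℂ), (∀ j, Polynomial.X ∣ Zt j) →
      Polynomial.X ∣ Ut → cP Ut = Ut →
      ∃ φ : O →ₐ[ℂ] T, (∀ f, φ (star f) = star (φ f)) ∧ (∀ m f, f ∈ J.I (m + 1) → φ f ∈ A.o m) ∧
        (∀ j, φ (y j) = Polynomial.aeval A.t (Zt j)) ∧ φ u = Polynomial.aeval A.t Ut ∧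
        ∀ a : Fin n → T, A.Pos (∑ j, ∑ k, a j * star (a k) * φ (lam j k))

theorem pairO_star {η : Fin N → O} (hη : ∀ i, star (η i) = η i) (V : Fin N → O) :
    pairO η (star V) = star (pairO η V) := by
  simp [pairO, star_sum, hη]

/-- The pairing as a linear map. -/
def pairL (η : Fin N → O) : (Fin N → O) →ₗ[O] O where
  toFun := pairO η
  map_add' V W := by simp [pairO, mul_add, sum_add_distrib]
  map_smul' c V := by simp [pairO, mul_sum, mul_left_comm]

namespace Model

variable {J : Jet N O} {n : ℕ} {F : CRF J n} {η₀ : Fin N → O} {K : ℕ} (M : Model F η₀ K)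

/-- The coordinates and their conjugates. -/
def zz : Option (Fin n) ⊕ Option (Fin n) → O := Sum.elim M.z (fun i => star (M.z i))

/-- The form `∂ρ`. -/
noncomputable def dρ : (Fin N → O) →ₗ[O] O :=
  ∑ i, aeval M.zz (pderiv (Sum.inl i) M.ρ) • J.Dl (M.z i)

theorem dρ_apply (V : Fin N → O) :
    M.dρ V = ∑ i, aeval M.zz (pderiv (Sum.inl i) M.ρ) * J.D V (M.z i) := by
  simp [dρ, Jet.Dl]

/-- The Levi form of `ρ`. -/
noncomputable def lev (V W : Fin N → O) : O :=
  ∑ i, ∑ j, aeval M.zz (pderiv (Sum.inr j) (pderiv (Sum.inl i) M.ρ)) * J.D V (M.z i) *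
    star (J.D W (M.z j))

theorem span_CR {V : Fin N → O} (hV : V ∈ Submodule.span O (Set.range F.Z)) (i) :
    J.D (star V) (M.z i) ∈ J.I (K + 2) := by
  obtain ⟨c, rfl⟩ := (Submodule.mem_span_range_iff_exists_fun O).1 hV
  rw [star_sum, J.D_sum]
  refine Ideal.sum_mem _ fun j _ => ?_
  rw [star_smul, J.D_smul]
  exact Ideal.mul_mem_left _ _ (M.zCR j i)

theorem D_r (V : Fin N → O) : J.D V (aeval M.zz M.ρ) = M.dρ V + star (M.dρ (star V)) := by
  rw [derivation_aeval, Fintype.sum_sum_type, dρ_apply, dρ_apply, star_sum]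
  congr 1
  refine sum_congr rfl fun i _ => ?_
  rw [star_mul', ← J.D_star, star_star]
  congr 1
  unfold zz
  rw [star_aeval_elim, cs_pderiv, M.ρ_real]; rfl

theorem dρ_bar {V : Fin N → O} (hV : V ∈ Submodule.span O (Set.range F.Z)) :
    M.dρ (star V) ∈ J.I (K + 2) := by
  rw [dρ_apply]
  exact Ideal.sum_mem _ fun i _ => Ideal.mul_mem_left _ _ (M.span_CR hV i)

theorem dρ_span {V : Fin N → O} (hV : V ∈ Submodule.span O (Set.range F.Z)) :
    M.dρ V ∈ J.I (K + 1) := by
  have h1 : J.D V (aeval M.zz M.ρ) ∈ J.I (K + 1) := J.D_I V M.ρI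
  rw [D_r] at h1
  simpa using sub_mem h1 (vanI_anti (Nat.le_succ _) (J.star_I (M.dρ_bar hV)))

theorem ev_dρ_T_aux : J.ev (M.dρ M.T) = J.ev (aeval M.zz (pderiv (Sum.inl none) M.ρ)) := by
  rw [dρ_apply, map_sum]
  simp [M.T_z]

theorem ev_r1 : J.ev (aeval M.zz (pderiv (Sum.inl none) M.ρ)) = -Complex.I / 2 := by
  have h1 := vanI_ev (J.D_I M.T M.ρI)
  change J.ev (J.D M.T (aeval M.zz M.ρ)) = 0 at h1
  rw [D_r, M.T_real, map_add, J.ev_star, ev_dρ_T_aux, ← J.ev_star] at h1
  have h2 : star (aeval M.zz (pderiv (Sum.inl none) M.ρ)) =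
      aeval M.zz (pderiv (Sum.inr none) M.ρ) := by
    unfold zz
    rw [star_aeval_elim, cs_pderiv, M.ρ_real]; rfl
  have h3 : pderiv (Sum.inl none) M.ρ - pderiv (Sum.inr none) M.ρ = C (-Complex.I) := by
    rw [M.ρ_eq, map_sub, map_sub, realAlg_pderiv _ M.ψ_mem]
    simp only [Derivation.leibniz, pderiv_C, map_sub, pderiv_X, smul_eq_mul]
    simp only [Pi.single_eq_same, ne_eq, reduceCtorEq, not_false_eq_true, Pi.single_eq_of_ne]
    have : (C (-Complex.I) : MvPolynomial (Option (Fin n) ⊕ Option (Fin n)) ℂ) =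
        C (-Complex.I / 2) + C (-Complex.I / 2) := by rw [← map_add]; congr 1; ring
    rw [this]; ring
  have h4 := congrArg (fun P => J.ev (aeval M.zz P)) h3
  simp only [map_sub, aeval_C, AlgHom.commutes, Algebra.algebraMap_self, RingHom.id_apply] at h4
  rw [h2] at h1
  linear_combination (h1 + h4) / 2

theorem ev_dρ_T : J.ev (M.dρ M.T) = -Complex.I / 2 := M.ev_dρ_T_aux.trans M.ev_r1

theorem pair_frame {η : Fin N → O} (hη : F.Form η) (a b : Fin n → O) (c : O) :
    pairO η (∑ j, a j • F.Z j + ∑ j, b j • star (F.Z j) + c • M.T) = c * pairO η M.T := by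
  change pairL η _ = _
  simp only [map_add, map_sum, map_smul]
  have e : ∀ V, pairL η V = pairO η V := fun _ => rfl
  simp [e, hη.ann, pairO_star hη.real]

theorem rel {η : Fin N → O} (hη : F.Form η) (V : Fin N → O) :
    pairO η M.T * M.dρ V - M.dρ M.T * pairO η V ∈ J.I (K + 1) := by
  obtain ⟨a, b, c, rfl⟩ := M.frame V
  rw [M.pair_frame hη]
  simp only [map_add, map_sum, map_smul, smul_eq_mul]
  have e : ∀ A : O, pairO η M.T * (A + c * M.dρ M.T) - M.dρ M.T * (c * pairO η M.T) =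
      pairO η M.T * A := by intro A; ring
  rw [e]
  refine Ideal.mul_mem_left _ _ (add_mem (Ideal.sum_mem _ fun j _ => Ideal.mul_mem_left _ _ ?_)
    (Ideal.sum_mem _ fun j _ => Ideal.mul_mem_left _ _ ?_))
  · exact M.dρ_span (Submodule.subset_span ⟨j, rfl⟩)
  · exact vanI_anti (Nat.le_succ _) (M.dρ_bar (Submodule.subset_span ⟨j, rfl⟩))

theorem ev_pair_T {η : Fin N → O} (hη : F.Form η) : J.ev (pairO η M.T) ≠ 0 := by
  intro h
  obtain ⟨i, hi⟩ := hη.ne
  obtain ⟨a, b, c, e⟩ := M.frame (Pi.single i 1)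
  have := M.pair_frame hη a b c
  rw [← e] at this
  apply hi
  have h2 : pairO η (Pi.single i 1) = η i := by simp [pairO, Pi.single_apply]
  rw [← h2, this, map_mul, h, mul_zero]

theorem levi {V W : Fin N → O} (hV : V ∈ Submodule.span O (Set.range F.Z))
    (hW : W ∈ Submodule.span O (Set.range F.Z)) :
    M.dρ (J.br V (star W)) - M.lev V W ∈ J.I K := by
  have h1 : J.D (star W) (M.dρ V) ∈ J.I K := J.D_I _ (M.dρ_span hV)
  have h2 : ∑ i, aeval M.zz (pderiv (Sum.inl i) M.ρ) * J.D V (J.D (star W) (M.z i)) ∈ J.I K :=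
    Ideal.sum_mem _ fun i _ => Ideal.mul_mem_left _ _
      (vanI_anti (Nat.le_succ _) (J.D_I _ (M.span_CR hW i)))
  have h3 : ∑ i, ∑ j, aeval M.zz (pderiv (Sum.inl j) (pderiv (Sum.inl i) M.ρ)) *
      J.D (star W) (M.z j) * J.D V (M.z i) ∈ J.I K :=
    Ideal.sum_mem _ fun i _ => Ideal.sum_mem _ fun j _ => Ideal.mul_mem_right _ _
      (Ideal.mul_mem_left _ _ (vanI_anti (by omega) (M.span_CR hW j)))
  have := add_mem (sub_mem h2 h1) h3
  convert this using 1
  simp only [dρ_apply, lev, J.D_br, map_sum, Derivation.leibniz, smul_eq_mul, derivation_aeval,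
    Fintype.sum_sum_type, ← sum_sub_distrib, ← sum_add_distrib]
  refine sum_congr rfl fun i _ => ?_
  simp only [zz, Sum.elim_inl, Sum.elim_inr, J.D_star, sum_add_distrib, mul_add, mul_sum]
  have e1 : ∀ (f g : Option (Fin n) → O) (c : O), ∑ j, c * (f j * g j) = ∑ j, f j * c * g j :=
    fun f g c => sum_congr rfl fun j _ => by ring
  have e2 : ∀ (f g : Option (Fin n) → O) (c : O), ∑ j, c * (f j * g j) = ∑ j, f j * g j * c :=
    fun f g c => sum_congr rfl fun j _ => by ring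
  rw [e2 _ (fun j => J.D (star W) (M.z j)), e1 _ (fun j => star (J.D W (M.z j)))]
  ring

end Model

theorem Arc.o_pow {T : Type*} [CommRing T] [Algebra ℂ T] [StarRing T] (A : Arc T) {x : T}
    (hx : x ∈ A.o 0) (m : ℕ) : A.t ^ m * x ∈ A.o m := by
  induction m with
  | zero => simpa using hx
  | succ m ih => rw [pow_succ', mul_assoc]; exact A.o_succ _ _ ih

theorem Arc.star_aeval {T : Type*} [CommRing T] [Algebra ℂ T] [StarRing T] [StarModule ℂ T]
    (A : Arc T) (P : Polynomial ℂ) :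
    star (Polynomial.aeval A.t P) = Polynomial.aeval A.t (cP P) := by
  induction P using Polynomial.induction_on' with
  | add p q hp hq => simp only [map_add, star_add, hp, hq]
  | monomial n a => simp [Polynomial.aeval_monomial, star_algebraMap', A.star_t]

theorem Model.positivity {T : Type*} [CommRing T] [Algebra ℂ T] [StarRing T] [StarModule ℂ T]
    {J : Jet N O} {n : ℕ} {F : CRF J n} {η₀ : Fin N → O} {K : ℕ} (M : Model F η₀ K)
    (hη : F.Form η₀) (A : Arc T)
    (hA : ArcPos J A fun j k => (-Complex.I) • pairO η₀ (J.br (F.Z j) (star (F.Z k))))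
    {μ : ℕ} (hμK : μ + 1 ≤ K) (Zt Vt : Option (Fin n) → Polynomial ℂ)
    (hZ : ∀ i, Polynomial.X ∣ Zt i) (hV : ∀ i, Polynomial.X ∣ Vt i)
    (h0 : Polynomial.X ^ μ ∣ aeval (Sum.elim Zt fun i => cP (Zt i)) M.ρ)
    (h1 : Polynomial.X ^ μ ∣
      ∑ i, aeval (Sum.elim Zt fun i => cP (Zt i)) (pderiv (Sum.inl i) M.ρ) * Vt i)
    (h2 : Polynomial.X ^ μ ∣ ∑ i, ∑ j, aeval (Sum.elim Zt fun i => cP (Zt i))
      (pderiv (Sum.inr j) (pderiv (Sum.inl i) M.ρ)) * Vt i * cP (Vt j)) :
    0 ≤ ((∑ i, ∑ j, aeval (Sum.elim Zt fun i => cP (Zt i))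
      (pderiv (Sum.inr j) (pderiv (Sum.inl i) M.ρ)) * Vt i * cP (Vt j)).coeff μ).re := by
  have hcPX : ∀ P : Polynomial ℂ, Polynomial.X ∣ P → Polynomial.X ∣ cP P := by
    rintro _ ⟨Q, rfl⟩; simp
  have hcc : ∀ P : Polynomial ℂ, cP (cP P) = P := by
    intro P; ext k; simp
  have h2c : star (2 : ℂ)⁻¹ = (2 : ℂ)⁻¹ := by simp
  obtain ⟨φ, φs, φI, φy, φu, φpos⟩ := hA (fun j => M.z (some j))
    ((2 : ℂ)⁻¹ • (M.z none + star (M.z none))) (fun j => M.z0 _)
    (by simp [J.ev_star, M.z0]) (by rw [star_smul, star_add, star_star, add_comm, h2c]) M.nondeg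
    (fun j => Zt (some j)) ((2 : ℂ)⁻¹ • (Zt none + cP (Zt none))) (fun j => hZ _)
    (by rw [Polynomial.smul_eq_C_mul]; exact Dvd.dvd.mul_left (dvd_add (hZ _) (hcPX _ (hZ _))) _)
    (by
      rw [Polynomial.smul_eq_C_mul, map_mul, map_add, hcc, add_comm]
      congr 1
      rw [Polynomial.coe_mapRingHom, Polynomial.map_C, starRingEnd_apply, h2c])
  let ψ : Polynomial ℂ →ₐ[ℂ] T := Polynomial.aeval A.t
  have ψs : ∀ P, star (ψ P) = ψ (cP P) := A.star_aeval
  let Id : Ideal T := Ideal.span {A.t ^ μ} ⊔ A.o μ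
  have hoId : ∀ {x}, x ∈ A.o μ → x ∈ Id := fun h => Ideal.mem_sup_right h
  have hψId : ∀ {P}, Polynomial.X ^ μ ∣ P → ψ P ∈ Id := by
    rintro _ ⟨Q, rfl⟩
    refine Ideal.mem_sup_left ?_
    rw [map_mul, map_pow, Polynomial.aeval_X]
    exact Ideal.mul_mem_right _ _ (Ideal.mem_span_singleton_self _)
  have hIdo : ∀ {x y}, x ∈ Id → y ∈ A.o 0 → x * y ∈ A.o μ := by
    intro x y hx hy
    obtain ⟨u, hu, w, hw, rfl⟩ := Submodule.mem_sup.1 hx
    obtain ⟨c, rfl⟩ := Ideal.mem_span_singleton'.1 hu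
    rw [add_mul, mul_assoc]
    exact add_mem (Ideal.mul_mem_left _ _ (A.o_pow hy μ)) (Ideal.mul_mem_right _ _ hw)
  have hIds : ∀ {x}, x ∈ Id → star x ∈ Id := by
    intro x hx
    obtain ⟨u, hu, w, hw, rfl⟩ := Submodule.mem_sup.1 hx
    obtain ⟨c, rfl⟩ := Ideal.mem_span_singleton'.1 hu
    rw [star_add, star_mul', star_pow, A.star_t]
    exact add_mem (Ideal.mem_sup_left (Ideal.mul_mem_left _ _ (Ideal.mem_span_singleton_self _)))
      (hoId (A.o_star _ _ hw))
  have hψo : ∀ {P}, Polynomial.X ∣ P → ψ P ∈ A.o 0 := by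
    rintro _ ⟨Q, rfl⟩
    rw [map_mul, Polynomial.aeval_X]
    exact Ideal.mul_mem_right _ _ A.t_mem
  have φI' : ∀ {f}, f ∈ J.I K → φ f ∈ A.o μ := fun h => φI μ _ (vanI_anti hμK h)
  set ZZ : Option (Fin n) ⊕ Option (Fin n) → Polynomial ℂ := Sum.elim Zt fun i => cP (Zt i)
    with hZZ
  let s : Option (Fin n) ⊕ Option (Fin n) → T := fun α => ψ (ZZ α)
  let s' : Option (Fin n) ⊕ Option (Fin n) → T := fun α => φ (M.zz α)
  have hs : ∀ P, ψ (aeval ZZ P) = aeval s P := fun P => MvPolynomial.comp_aeval_apply _ _ _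
  have hs' : ∀ P, φ (aeval M.zz P) = aeval s' P := fun P => MvPolynomial.comp_aeval_apply _ _ _
  have c1 : ∀ j, s' (Sum.inl (some j)) = s (Sum.inl (some j)) := φy
  have c2 : ∀ j, s' (Sum.inr (some j)) = s (Sum.inr (some j)) := fun j => by
    change φ (star (M.z (some j))) = ψ (cP (Zt (some j)))
    rw [φs, φy, ψs]
  have c3 : s' (Sum.inl none) + s' (Sum.inr none) = s (Sum.inl none) + s (Sum.inr none) := by
    have := congrArg (fun x => (2 : ℂ) • x) φu
    simp only [map_smul, smul_smul, map_add] at this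
    rw [mul_inv_cancel₀ two_ne_zero, one_smul, one_smul] at this
    exact this
  have c4 : s' (Sum.inl none) - s (Sum.inl none) ∈ Id := by
    have a1 : aeval s' M.ρ - aeval s M.ρ ∈ Id := by
      rw [← hs, ← hs']
      exact sub_mem (hoId (φI' (vanI_anti (by omega) M.ρI))) (hψId h0)
    have a2 : aeval s' M.ρ - aeval s M.ρ =
        (-Complex.I) • (s' (Sum.inl none) - s (Sum.inl none)) := by
      rw [M.ρ_eq]
      simp only [map_sub, map_mul, aeval_C, aeval_X, realAlg_congr c1 c2 c3 _ M.ψ_mem,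
        ← Algebra.smul_def]
      have : s' (Sum.inr none) = s (Sum.inl none) + s (Sum.inr none) - s' (Sum.inl none) := by
        rw [← c3]; ring
      rw [this]; module
    rw [a2, Algebra.smul_def] at a1
    exact (Ideal.unit_mul_mem_iff_mem _ ((IsUnit.mk0 _ (by simp)).map (algebraMap ℂ T))).1 a1
  have c5 : ∀ α, s' α - s α ∈ Id := by
    rintro ((_ | j) | (_ | j))
    · exact c4
    · rw [c1, sub_self]; exact zero_mem _
    · have : s' (Sum.inr none) - s (Sum.inr none) = -(s' (Sum.inl none) - s (Sum.inl none)) := by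
        linear_combination c3
      rw [this]; exact neg_mem c4
    · rw [c2, sub_self]; exact zero_mem _
  have c6 : ∀ P, φ (aeval M.zz P) - ψ (aeval ZZ P) ∈ Id := fun P => by
    rw [hs, hs']; exact aeval_sub_mem Id c5 P
  obtain ⟨Cm, hC, -⟩ := J.matrix_unit (Matrix.of fun j i => J.D (F.Z j) (M.z (some i))) (by
    have : (Matrix.of fun j i => J.D (F.Z j) (M.z (some i))).map J.ev = 1 := by
      ext j k; simp [M.Z_z, Matrix.one_apply]
    rw [this]; exact isUnit_one)
  let v : Option (Fin n) → T := fun i => ψ (Vt i)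
  let a : Fin n → T := fun j => ∑ i, v (some i) * φ (Cm i j)
  let w : Option (Fin n) → T := fun i => ∑ j, a j * φ (J.D (F.Z j) (M.z i))
  have hv : ∀ i, v i ∈ A.o 0 := fun i => hψo (hV i)
  have ha : ∀ j, a j ∈ A.o 0 := fun j => Ideal.sum_mem _ fun i _ => Ideal.mul_mem_right _ _ (hv _)
  have hw : ∀ i, w i ∈ A.o 0 := fun i => Ideal.sum_mem _ fun j _ => Ideal.mul_mem_right _ _ (ha _)
  have hwv : ∀ i, w (some i) = v (some i) := by
    intro i
    simp only [w, a, sum_mul]
    rw [sum_comm]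
    have : ∀ k, ∑ j, v (some k) * φ (Cm k j) * φ (J.D (F.Z j) (M.z (some i))) =
        v (some k) * if k = i then 1 else 0 := by
      intro k
      have := congrArg φ (congrFun (congrFun hC k) i)
      rw [Matrix.mul_apply, Matrix.one_apply, map_sum, apply_ite φ, map_one, map_zero] at this
      rw [← this, mul_sum]
      exact sum_congr rfl fun j _ => by simp [mul_assoc]
    simp [this]
  have hZs : ∀ j, F.Z j ∈ Submodule.span O (Set.range F.Z) := fun j =>
    Submodule.subset_span ⟨j, rfl⟩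
  have d1 : w none - v none ∈ Id := by
    have b1 : ∑ i, φ (aeval M.zz (pderiv (Sum.inl i) M.ρ)) * w i ∈ Id := by
      have : ∑ i, φ (aeval M.zz (pderiv (Sum.inl i) M.ρ)) * w i = ∑ j, a j * φ (M.dρ (F.Z j)) := by
        simp only [w, M.dρ_apply, map_sum, map_mul, mul_sum]
        rw [sum_comm]
        exact sum_congr rfl fun j _ => sum_congr rfl fun i _ => by ring
      rw [this]
      exact Ideal.sum_mem _ fun j _ => Ideal.mul_mem_left _ _
        (hoId (φI' (vanI_anti (by omega) (M.dρ_span (hZs j)))))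
    have b2 : ∑ i, φ (aeval M.zz (pderiv (Sum.inl i) M.ρ)) * v i ∈ Id := by
      have b3 := hψId h1
      have b4 : ∑ i, (φ (aeval M.zz (pderiv (Sum.inl i) M.ρ)) -
          ψ (aeval ZZ (pderiv (Sum.inl i) M.ρ))) * v i ∈ Id :=
        Ideal.sum_mem _ fun i _ => Ideal.mul_mem_right _ _ (c6 _)
      have := add_mem b4 b3
      simpa [map_sum, sub_mul, v] using this
    have b5 := sub_mem b1 b2
    rw [← sum_sub_distrib, Fintype.sum_option] at b5
    simp only [hwv, sub_self, sum_const_zero, add_zero, ← mul_sub] at b5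
    have hu : IsUnit (aeval M.zz (pderiv (Sum.inl none) M.ρ)) :=
      J.unit _ (by rw [M.ev_r1]; simp)
    exact (Ideal.unit_mul_mem_iff_mem _ (hu.map φ)).1 b5
  have d2 : ∀ i, w i - v i ∈ Id := by
    rintro (_ | i)
    · exact d1
    · rw [hwv, sub_self]; exact zero_mem _
  set Lev := ∑ i, ∑ j, aeval ZZ (pderiv (Sum.inr j) (pderiv (Sum.inl i) M.ρ)) * Vt i * cP (Vt j)
    with hLev
  have e1 : ∑ j, ∑ k, a j * star (a k) * φ (M.lev (F.Z j) (F.Z k)) - ψ Lev ∈ A.o μ := by
    have : ∑ j, ∑ k, a j * star (a k) * φ (M.lev (F.Z j) (F.Z k)) = ∑ i, ∑ l,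
        φ (aeval M.zz (pderiv (Sum.inr l) (pderiv (Sum.inl i) M.ρ))) * w i * star (w l) := by
      simp only [Model.lev, w, map_sum, map_mul, mul_sum, sum_mul, star_sum, star_mul', φs]
      rw [sum_comm]
      conv_lhs => enter [2, k]; rw [sum_comm]; enter [2, i]; rw [sum_comm]
      rw [sum_comm]
      refine sum_congr rfl fun i _ => ?_
      rw [sum_comm]
      refine sum_congr rfl fun l _ => sum_congr rfl fun k _ => sum_congr rfl fun j _ => by ring
    rw [this, hLev, map_sum, ← sum_sub_distrib]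
    refine Ideal.sum_mem _ fun i _ => ?_
    rw [map_sum, ← sum_sub_distrib]
    refine Ideal.sum_mem _ fun l _ => ?_
    rw [map_mul, map_mul, ← ψs]
    set p := φ (aeval M.zz (pderiv (Sum.inr l) (pderiv (Sum.inl i) M.ρ)))
    set p' := ψ (aeval ZZ (pderiv (Sum.inr l) (pderiv (Sum.inl i) M.ρ)))
    have e : p * w i * star (w l) - p' * ψ (Vt i) * star (ψ (Vt l)) =
        (p - p') * w i * star (w l) + p' * ((w i - v i) * star (w l)) +
          p' * (star (w l - v l) * v i) := by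
      rw [star_sub]; simp only [v]; ring
    rw [e]
    exact add_mem (add_mem (Ideal.mul_mem_right _ _ (hIdo (c6 _) (hw i)))
      (Ideal.mul_mem_left _ _ (hIdo (d2 i) (A.o_star _ _ (hw l)))))
      (Ideal.mul_mem_left _ _ (hIdo (hIds (d2 l)) (hv i)))
  have e2 : ψ Lev - Lev.coeff μ • A.t ^ μ ∈ A.o μ := by
    obtain ⟨Q, hQ⟩ := h2
    have hc : Lev.coeff μ = Q.coeff 0 := by
      rw [hQ]; simpa using Polynomial.coeff_X_pow_mul Q μ 0
    have : ψ Lev - Lev.coeff μ • A.t ^ μ = A.t ^ μ * (A.t * ψ Q.divX) := by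
      rw [hc, hQ]
      conv_lhs => enter [1]; rw [← Polynomial.X_mul_divX_add Q]
      simp only [map_mul, map_pow, map_add, ψ, Polynomial.aeval_X, Polynomial.aeval_C,
        Algebra.smul_def]
      ring
    rw [this]
    exact A.o_pow (Ideal.mul_mem_right _ _ A.t_mem) μ
  have hk : IsUnit (Complex.I • M.dρ M.T) := J.unit _ (by rw [map_smul, M.ev_dρ_T]; simp)
  obtain ⟨k', hk'⟩ := hk.exists_left_inv
  have hk2 : J.ev k' = 2 := by
    have := congrArg J.ev hk'
    rw [map_mul, map_smul, M.ev_dρ_T, map_one, smul_eq_mul] at this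
    linear_combination 2 * this + (J.ev k') * Complex.I_mul_I
  have e3 : ∀ j k, (-Complex.I) • pairO η₀ (J.br (F.Z j) (star (F.Z k))) -
      k' * pairO η₀ M.T * M.lev (F.Z j) (F.Z k) ∈ J.I K := by
    intro j k
    have b1 := Ideal.mul_mem_left _ k' (vanI_anti (Nat.le_succ _)
      (M.rel hη (J.br (F.Z j) (star (F.Z k)))))
    have b2 := Ideal.mul_mem_left _ (k' * pairO η₀ M.T) (M.levi (hZs j) (hZs k))
    have b3 := sub_mem b2 b1
    convert b3 using 1
    have hI : (algebraMap ℂ O Complex.I) * (algebraMap ℂ O Complex.I) = -1 := by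
      rw [← map_mul, Complex.I_mul_I, map_neg, map_one]
    rw [Algebra.smul_def] at hk' ⊢
    rw [map_neg]
    linear_combination (algebraMap ℂ O Complex.I * pairO η₀ (J.br (F.Z j) (star (F.Z k)))) * hk' -
      (k' * M.dρ M.T * pairO η₀ (J.br (F.Z j) (star (F.Z k)))) * hI
  have e4 : φ (k' * pairO η₀ M.T) - algebraMap ℂ T 2 ∈ A.o 0 := by
    rw [← φ.commutes, ← map_sub]
    exact φI 0 _ (mem_vanI_one.2 (by simp [hk2, M.T_η]))
  have := A.sign μ _ (2 * Lev.coeff μ) (φpos a) (by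
    have b1 : ∑ j, ∑ k, a j * star (a k) * φ ((-Complex.I) • pairO η₀ (J.br (F.Z j)
        (star (F.Z k))) - k' * pairO η₀ M.T * M.lev (F.Z j) (F.Z k)) ∈ A.o μ :=
      Ideal.sum_mem _ fun j _ => Ideal.sum_mem _ fun k _ => Ideal.mul_mem_left _ _ (φI' (e3 j k))
    have b2 := Ideal.mul_mem_left _ (φ (k' * pairO η₀ M.T)) (add_mem e1 e2)
    have b3 := Ideal.mul_mem_left _ (algebraMap ℂ T (Lev.coeff μ)) (A.o_pow e4 μ)
    have := add_mem (add_mem b1 b2) b3
    convert this using 1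
    simp only [map_sub, map_mul, mul_sub, sum_sub_distrib, mul_add, mul_sum, Algebra.smul_def]
    have e : ∀ j k, a j * star (a k) * (φ k' * φ (pairO η₀ M.T) * φ (M.lev (F.Z j) (F.Z k))) =
        φ k' * φ (pairO η₀ M.T) * (a j * star (a k) * φ (M.lev (F.Z j) (F.Z k))) := by
      intro j k; ring
    simp only [e]
    ring)
  simp only [Complex.mul_re, Complex.re_ofNat, Complex.im_ofNat, zero_mul, sub_zero] at this
  linarith

end Pool.Agent.P.MP_1b6414_an
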