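import Pool.Agent.P.MP_1b6414_an.MkP
import Pool.Agent.P.MP_1b6414_an.Levi

/-! The triangular matrix model and generating series. -/

namespace Pool.Agent.P.MP_1b6414_an

open Finset

set_option linter.unusedSectionVars false

variable {O : Type*} [CommRing O] [Algebra ℂ O] [StarRing O] [StarModule ℂ O]

/-- Conjugation of operators. -/
def cj : Module.End ℂ O →+* Module.End ℂ O where
  toFun T :=
    { toFun := fun f => star (T (star f))
      map_add' := fun f g => by simp
      map_smul' := fun c f => by simp }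
  map_one' := by ext; simp
  map_mul' S T := by ext; simp
  map_zero' := by ext; simp
  map_add' S T := by ext; simp

@[simp] theorem cj_apply (T : Module.End ℂ O) (f : O) : cj T f = star (T (star f)) := rfl

/-- Matrices with one constant diagonal. -/
def Tm (m i : ℕ) : Module.End ℂ O →ₗ[ℂ] Matrix (Fin (m + 1)) (Fin (m + 1)) (Module.End ℂ O) where
  toFun E := Matrix.of fun a b => if (b : ℕ) = a + i then E else 0
  map_add' E E' := by ext a b : 2; simp only [Matrix.of_apply, Matrix.add_apply]; split_ifs <;> simp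
  map_smul' c E := by
    ext a b : 2; simp only [Matrix.of_apply, Matrix.smul_apply]; split_ifs <;> simp

theorem Tm_apply (m i : ℕ) (E : Module.End ℂ O) (a b : Fin (m + 1)) :
    Tm m i E a b = if (b : ℕ) = a + i then E else 0 := rfl

theorem mul_Tm_apply {m i : ℕ} (β : Matrix (Fin (m + 1)) (Fin (m + 1)) (Module.End ℂ O))
    (E : Module.End ℂ O) (a c : Fin (m + 1)) :
    (β * Tm m i E) a c =
      if i ≤ c then β a ⟨c - i, by omega⟩ * E else 0 := by
  rw [Matrix.mul_apply]
  split_ifs with h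
  · rw [sum_eq_single ⟨c - i, by omega⟩]
    · rw [Tm_apply, if_pos (by simp; omega)]
    · intro b _ hb
      rw [Tm_apply, if_neg, mul_zero]
      intro e; apply hb; ext; simp; omega
    · simp
  · refine sum_eq_zero fun b _ => ?_
    rw [Tm_apply, if_neg (by omega), mul_zero]

theorem Tm_mul (m i j : ℕ) (E E' : Module.End ℂ O) :
    Tm m i E * Tm m j E' = Tm m (i + j) (E * E') := by
  ext a c : 2
  rw [mul_Tm_apply, Tm_apply, Tm_apply]
  dsimp only
  split_ifs <;> first | rfl | omega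

theorem Tm_zero_one (m : ℕ) : Tm m 0 (1 : Module.End ℂ O) = 1 := by
  ext a c : 2
  rw [Tm_apply, Matrix.one_apply]
  simp [Fin.ext_iff, eq_comm]

theorem Nil.CG.comm_Y {B : Type*} [Ring B] [Algebra ℂ B] {N : Nil B} {γ : B} (hγ : N.CG γ) :
    ∃ ν ∈ N.g, N.Y * γ - γ * N.Y = γ * ν := by
  obtain ⟨x, hx, rfl⟩ := hγ
  refine ⟨_, N.conj_Y (neg_mem hx), ?_⟩
  have := ex_mul_neg (N.g_nilp hx)
  rw [neg_neg, mul_sub, ← mul_assoc, ← mul_assoc, this, one_mul]

/-- Two conjugate derivations and a base point. -/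
structure Two (O : Type*) [CommRing O] [Algebra ℂ O] [StarRing O] where
  ev : O →ₐ[ℂ] ℂ
  ev_star : ∀ f, ev (star f) = star (ev f)
  d : Bool → Derivation ℂ O O
  d_star : ∀ b f, d (!b) (star f) = star (d b f)

namespace Two

variable (P : Two O) (m : ℕ)

/-- Vanishing along words in the two derivations. -/
abbrev IL (j : ℕ) : Ideal O := vanI P.ev P.d j

theorem IL_star {j : ℕ} {f : O} (hf : f ∈ P.IL j) : star f ∈ P.IL j :=
  vanI_star P.ev_star (fun b => ⟨!b, fun f => by simpa using P.d_star (!b) f⟩) hf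

/-- The algebra of admissible triangular matrices of operators. -/
def BB : Subalgebra ℂ (Matrix (Fin (m + 1)) (Fin (m + 1)) (Module.End ℂ O)) where
  carrier := {β | (∀ a b, b < a → β a b = 0) ∧
    ∀ (a b : Fin (m + 1)) f, f ∈ P.IL (b + 1) → β a b f ∈ P.IL (a + 1)}
  mul_mem' := by
    rintro β γ ⟨h1, h2⟩ ⟨k1, k2⟩
    refine ⟨fun a c h => ?_, fun a c f hf => ?_⟩
    · rw [Matrix.mul_apply]
      refine sum_eq_zero fun b _ => ?_
      by_cases hb : b < a
      · rw [h1 a b hb, zero_mul]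
      · rw [k1 b c (by omega), mul_zero]
    · rw [Matrix.mul_apply, LinearMap.sum_apply]
      exact Ideal.sum_mem _ fun b _ => h2 a b _ (k2 b c f hf)
  add_mem' := by
    rintro β γ ⟨h1, h2⟩ ⟨k1, k2⟩
    exact ⟨fun a b h => by rw [Matrix.add_apply, h1 a b h, k1 a b h, add_zero],
      fun a b f hf => add_mem (h2 a b f hf) (k2 a b f hf)⟩
  algebraMap_mem' c := by
    refine ⟨fun a b h => by rw [Matrix.algebraMap_matrix_apply, if_neg h.ne'], fun a b f hf => ?_⟩
    rw [Matrix.algebraMap_matrix_apply]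
    split_ifs with h
    · subst h; exact vanI_smul c hf
    · exact zero_mem _

/-- The filtration by the distance from the diagonal. -/
def FF (j : ℕ) : Submodule ℂ (P.BB m) where
  carrier := {β | ∀ a b : Fin (m + 1), (b : ℕ) < a + j → β.1 a b = 0}
  add_mem' := fun {β γ} h k a b hab => by
    rw [Subalgebra.coe_add, Matrix.add_apply, h a b hab, k a b hab, add_zero]
  zero_mem' := fun _ _ _ => rfl
  smul_mem' := fun c β h a b hab => by
    rw [Subalgebra.coe_smul, Matrix.smul_apply, h a b hab, smul_zero]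

/-- The grading element. -/
def YY : P.BB m := ⟨Matrix.diagonal fun a => algebraMap ℂ _ (-((a : ℕ) : ℂ)),
  fun a b h => Matrix.diagonal_apply_ne _ h.ne', fun a b f hf => by
    rw [Matrix.diagonal_apply]
    split_ifs with h
    · subst h; exact vanI_smul _ hf
    · exact zero_mem _⟩

theorem YY_comm (x : P.BB m) (a b : Fin (m + 1)) :
    (P.YY m * x - x * P.YY m).1 a b = (((b : ℕ) : ℂ) - (a : ℕ)) • x.1 a b := by
  simp only [YY, AddSubgroupClass.coe_sub, MulMemClass.coe_mul, Matrix.sub_apply,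
    Matrix.diagonal_mul, Matrix.mul_diagonal]
  rw [← Algebra.commutes, ← Algebra.smul_def, ← Algebra.smul_def]
  module

/-- The conjugation. -/
def sg : P.BB m →+* P.BB m :=
  ((cj (O := O)).mapMatrix.comp (P.BB m).val.toRingHom).codRestrict (P.BB m) fun β =>
    ⟨fun a b h => by
      change cj (β.1 a b) = 0
      rw [β.2.1 a b h, map_zero],
    fun a b f hf => P.IL_star (β.2.2 a b _ (P.IL_star hf))⟩

theorem sg_apply (β : P.BB m) (a b : Fin (m + 1)) : (P.sg m β).1 a b = cj (β.1 a b) := rfl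

/-- The generators. -/
def gen (b : Bool) : P.BB m := ⟨Tm m 1 (P.d b : Module.End ℂ O),
  fun a c h => by rw [Tm_apply, if_neg (by omega)], fun a c f hf => by
    rw [Tm_apply]
    split_ifs with h
    · rw [h] at hf; exact hf.2 b
    · exact zero_mem _⟩

theorem sg_gen (b : Bool) : P.sg m (P.gen m b) = P.gen m (!b) := by
  ext a c f
  rw [sg_apply]
  simp only [gen, Tm_apply]
  split_ifs
  · simp [← P.d_star]
  · simp

/-- The nilpotent algebra data. -/
def nil : Nil (P.BB m) where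
  K := m + 1
  F := P.FF m
  F_zero x a b h := x.2.1 a b (by simpa using h)
  F_anti h hx a b hab := hx a b (by omega)
  F_mul := fun {i j x y} hx hy a c h => by
    rw [MulMemClass.coe_mul, Matrix.mul_apply]
    refine sum_eq_zero fun b _ => ?_
    by_cases hb : (b : ℕ) < a + i
    · rw [hx a b hb, zero_mul]
    · rw [hy b c (by omega), mul_zero]
  F_K := fun {x} hx => Subtype.ext (Matrix.ext fun a b => hx a b (by omega))
  Y := P.YY m
  Y_F := fun {j x} hx a b h => by
    rw [AddSubgroupClass.coe_sub, Matrix.sub_apply, YY_comm]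
    change _ - (j : ℂ) • x.1 a b = 0
    by_cases hb : (b : ℕ) < a + j
    · rw [hx a b hb, smul_zero, smul_zero, sub_zero]
    · rw [show (b : ℕ) = a + j by omega]; simp
  σ := P.sg m
  σ_smul c x := by ext a b f; simp [sg_apply]
  σσ x := by ext a b f; simp [sg_apply]
  σ_F := fun {j x} hx a b h => by rw [sg_apply, hx a b h, map_zero]
  σ_Y := by
    ext a b f
    rw [sg_apply]
    simp only [YY, Matrix.diagonal_apply]
    split_ifs <;> simp
  a := P.gen m true
  a_F a b h := by simp only [gen, Tm_apply]; rw [if_neg (by omega)]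
  Y_a := by
    ext a b : 3
    rw [YY_comm]
    simp only [gen, Tm_apply]
    split_ifs with h
    · rw [h]; simp
    · simp

theorem nil_a : (P.nil m).a = P.gen m true := rfl

theorem nil_σa : (P.nil m).σ (P.nil m).a = P.gen m false := P.sg_gen m true

theorem gen_mem (b : Bool) : P.gen m b ∈ (P.nil m).gr 1 := by
  cases b
  · rw [← nil_σa]; exact Nil.σa_mem _
  · exact Nil.a_mem _

/-- The generating polynomial. -/
noncomputable def Φ : P.BB m →ₗ[ℂ] O →ₗ[ℂ] Polynomial ℂ :=
  LinearMap.mk₂ ℂ (fun β f => ∑ j : Fin (m + 1), Polynomial.monomial j (P.ev (β.1 0 j f)))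
    (fun β γ f => by simp [sum_add_distrib])
    (fun c β f => by simp [smul_sum, Polynomial.smul_monomial])
    (fun β f g => by simp [sum_add_distrib])
    (fun c β f => by simp [smul_sum, Polynomial.smul_monomial])

variable {m}

theorem coeff_Φ (β : P.BB m) (f : O) (j : ℕ) :
    (P.Φ m β f).coeff j = if h : j < m + 1 then P.ev (β.1 0 ⟨j, h⟩ f) else 0 := by
  simp only [Φ, LinearMap.mk₂_apply, Polynomial.finsetSum_coeff, Polynomial.coeff_monomial]
  split_ifs with h
  · rw [sum_eq_single ⟨j, h⟩ (fun b _ hb => if_neg fun e => hb (Fin.ext e)) (by simp)]; simp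
  · exact sum_eq_zero fun b _ => if_neg (by omega)

theorem Φ_star (β : P.BB m) (f : O) : P.Φ m (P.sg m β) (star f) = cP (P.Φ m β f) := by
  ext j
  rw [Polynomial.coe_mapRingHom, Polynomial.coeff_map, coeff_Φ, coeff_Φ]
  split_ifs <;> simp [sg_apply, P.ev_star]

theorem Φ_dvd (β : P.BB m) {f : O} {j : ℕ} (hf : f ∈ P.IL j) :
    Polynomial.X ^ j ∣ P.Φ m β f := by
  refine Polynomial.X_pow_dvd_iff.2 fun i hi => ?_
  rw [coeff_Φ]
  split_ifs with h
  · exact vanI_ev (β.2.2 0 ⟨i, h⟩ f (vanI_anti hi hf))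
  · rfl

theorem Φ_Tm (β : P.BB m) {c : P.BB m} {i : ℕ} {E : Module.End ℂ O} (hc : c.1 = Tm m i E)
    (f : O) : Polynomial.X ^ (m + 1) ∣ P.Φ m (β * c) f - Polynomial.X ^ i * P.Φ m β (E f) := by
  refine Polynomial.X_pow_dvd_iff.2 fun j hj => ?_
  rw [Polynomial.coeff_sub, Polynomial.coeff_X_pow_mul', coeff_Φ, coeff_Φ, dif_pos hj,
    MulMemClass.coe_mul, hc, mul_Tm_apply]
  dsimp only
  split_ifs with h h'
  · simp
  · omega
  · simp

theorem Φ_eq_zero {β : P.BB m} {f : O} (h : Polynomial.X ^ (m + 1) ∣ P.Φ m β f) :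
    P.Φ m β f = 0 := by
  ext j
  by_cases hj : j < m + 1
  · exact Polynomial.X_pow_dvd_iff.1 h j hj
  · rw [coeff_Φ, dif_neg hj]; rfl

theorem Φ_gen (β : P.BB m) (b : Bool) {f : O} (hf : P.d b f ∈ P.IL m) :
    P.Φ m (β * P.gen m b) f = 0 := by
  refine P.Φ_eq_zero ?_
  have h1 := P.Φ_Tm β (c := P.gen m b) rfl f
  have h2 : Polynomial.X ^ (m + 1) ∣ Polynomial.X ^ 1 * P.Φ m β (P.d b f) := by
    rw [pow_succ', pow_one]; exact mul_dvd_mul_left _ (P.Φ_dvd β hf)
  simpa using dvd_add h1 h2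

theorem Φ_one (f : O) : P.Φ m 1 f = Polynomial.C (P.ev f) := by
  ext j
  rw [coeff_Φ, Polynomial.coeff_C]
  rcases j with _ | j
  · simp
  · rw [if_neg j.succ_ne_zero]
    split_ifs with h
    · rw [OneMemClass.coe_one, Matrix.one_apply_ne (by simp [Fin.ext_iff])]; simp
    · rfl

theorem Φ_F {β : P.BB m} {j : ℕ} (h : β ∈ P.FF m j) (f : O) : Polynomial.X ^ j ∣ P.Φ m β f := by
  refine Polynomial.X_pow_dvd_iff.2 fun i hi => ?_
  rw [coeff_Φ]
  split_ifs with h'
  · rw [h 0 ⟨i, h'⟩ (by simpa using hi)]; simp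
  · rfl

theorem Φ_Y (β : P.BB m) (f : O) :
    P.Φ m (P.YY m * β - β * P.YY m) f = Polynomial.X * Polynomial.derivative (P.Φ m β f) := by
  ext j
  rw [coeff_Φ]
  rcases j with _ | j
  · simp [YY_comm]
  · rw [Polynomial.coeff_X_mul, Polynomial.coeff_derivative, coeff_Φ]
    split_ifs with h
    · rw [YY_comm]; simp [mul_comm]
    · simp

theorem gr_rep (S : ℕ → Submodule ℂ (Module.End ℂ O))
    (h1 : ∀ b, (P.d b : Module.End ℂ O) ∈ S 1)
    (hS : ∀ j b, ∀ E ∈ S (j + 1), (P.d b : Module.End ℂ O) * E - E * P.d b ∈ S (j + 2)) (j : ℕ) :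
    ∀ c ∈ (P.nil m).gr (j + 1), ∃ E ∈ S (j + 1), c.1 = Tm m (j + 1) E := by
  have one : ∀ c ∈ (P.nil m).gr 1, ∃ s t : ℂ,
      c.1 = Tm m 1 (s • (P.d true : Module.End ℂ O) + t • (P.d false : Module.End ℂ O)) := by
    intro c hc
    obtain ⟨s, t, rfl⟩ := (P.nil m).mem_gr_one.1 hc
    refine ⟨s, t, ?_⟩
    rw [nil_σa, nil_a, map_add, map_smul, map_smul]; rfl
  induction j with
  | zero =>
    intro c hc
    obtain ⟨s, t, e⟩ := one c hc
    exact ⟨_, add_mem (Submodule.smul_mem _ _ (h1 _)) (Submodule.smul_mem _ _ (h1 _)), e⟩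
  | succ j ih =>
    refine (P.nil m).gr_induction ⟨0, zero_mem _, by simp⟩ ?_ ?_ ?_
    · rintro x y ⟨E, hE, e⟩ ⟨E', hE', e'⟩
      exact ⟨E + E', add_mem hE hE', by rw [map_add, ← e, ← e']; rfl⟩
    · rintro c x ⟨E, hE, e⟩
      exact ⟨c • E, Submodule.smul_mem _ _ hE, by rw [map_smul, ← e]; rfl⟩
    · intro x hx c hc
      obtain ⟨s, t, e⟩ := one x hx
      obtain ⟨E, hE, e'⟩ := ih c hc
      refine ⟨_, add_mem (Submodule.smul_mem _ s (hS j true E hE))
        (Submodule.smul_mem _ t (hS j false E hE)), ?_⟩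
      rw [AddSubgroupClass.coe_sub, MulMemClass.coe_mul, MulMemClass.coe_mul, e, e', Tm_mul,
        Tm_mul, add_comm 1 (j + 1), ← map_sub]
      congr 1
      simp only [mul_add, add_mul, smul_sub, mul_smul_comm, smul_mul_assoc]; abel

/-- Derivations as a submodule of operators. -/
def derS : Submodule ℂ (Module.End ℂ O) where
  carrier := {E | ∀ f g, E (f * g) = E f * g + f * E g}
  add_mem' := fun {E E'} h h' f g => by simp only [LinearMap.add_apply, h f g, h' f g]; ring
  zero_mem' := fun f g => by simp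
  smul_mem' := fun c E h f g => by
    simp only [LinearMap.smul_apply, h f g, smul_add, smul_mul_assoc, mul_smul_comm]

theorem gr_der (j : ℕ) : ∀ c ∈ (P.nil m).gr (j + 1), ∃ E ∈ derS, c.1 = Tm m (j + 1) E := by
  have hd : ∀ b, (P.d b : Module.End ℂ O) ∈ derS := fun b f g => by
    simp only [Derivation.coeFn_coe, Derivation.leibniz, smul_eq_mul]; ring
  refine P.gr_rep (fun _ => derS) hd (fun _ b E hE f g => ?_) j
  have h := hd b
  simp only [LinearMap.sub_apply, Module.End.mul_apply, hE f g, h f g, map_add, hE _ g, hE f _,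
    h _ g, h f _]
  ring

theorem CG_F {γ : P.BB m} (hγ : (P.nil m).CG γ) : γ - 1 ∈ P.FF m 1 := by
  obtain ⟨x, hx, rfl⟩ := hγ
  exact (P.nil m).ex_sub_one (j := 0) ((P.nil m).g_F hx)

theorem CG_Y {γ : P.BB m} (hγ : (P.nil m).CG γ) :
    ∃ ν ∈ (P.nil m).g, P.YY m * γ - γ * P.YY m = γ * ν := by
  exact Nil.CG.comm_Y hγ

theorem CG_ev {γ : P.BB m} (hγ : (P.nil m).CG γ) (f : O) :
    Polynomial.X ∣ P.Φ m γ f - Polynomial.C (P.ev f) := by
  have := P.Φ_F (P.CG_F hγ) f
  have e : P.Φ m γ f = P.Φ m (γ - 1) f + P.Φ m 1 f := by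
    rw [← LinearMap.add_apply, ← map_add,
      show γ - 1 + 1 = γ from Subtype.ext (sub_add_cancel γ.1 1)]
  rwa [e, Φ_one, add_sub_cancel_right, ← pow_one Polynomial.X]

theorem euler_dvd {j : ℕ} {Q : Polynomial ℂ} (h : Polynomial.X ^ (j + 1) ∣ Q)
    (h' : Polynomial.X ^ (j + 2) ∣ Polynomial.X * Polynomial.derivative Q) :
    Polynomial.X ^ (j + 2) ∣ Q := by
  refine Polynomial.X_pow_dvd_iff.2 fun i hi => ?_
  by_cases hij : i < j + 1
  · exact Polynomial.X_pow_dvd_iff.1 h i hij
  · obtain rfl : i = j + 1 := by omega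
    have := Polynomial.X_pow_dvd_iff.1 h' (j + 1) hi
    rw [Polynomial.coeff_X_mul, Polynomial.coeff_derivative] at this
    exact (mul_eq_zero.1 this).resolve_right (by exact_mod_cast Nat.succ_ne_zero j)

theorem Φ_mul {γ : P.BB m} (hγ : (P.nil m).CG γ) (f g : O) :
    Polynomial.X ^ (m + 1) ∣ P.Φ m γ (f * g) - P.Φ m γ f * P.Φ m γ g := by
  obtain ⟨ν, hν, e⟩ := P.CG_Y hγ
  have key : ∀ j, j ≤ m → ∀ f g,
      Polynomial.X ^ (j + 1) ∣ P.Φ m γ (f * g) - P.Φ m γ f * P.Φ m γ g := by
    intro j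
    induction j with
    | zero =>
      intro _ f g
      have := dvd_sub (dvd_sub (P.CG_ev hγ (f * g)) ((P.CG_ev hγ f).mul_right (P.Φ m γ g)))
        ((P.CG_ev hγ g).mul_left (Polynomial.C (P.ev f)))
      rw [zero_add, pow_one]
      convert this using 1
      simp only [map_mul]; ring
    | succ j ih =>
      intro hj f g
      refine euler_dvd (ih (by omega) f g) ?_
      have step : ∀ ν ∈ (P.nil m).g, Polynomial.X ^ (j + 2) ∣ P.Φ m (γ * ν) (f * g) -
          P.Φ m (γ * ν) f * P.Φ m γ g - P.Φ m γ f * P.Φ m (γ * ν) g := by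
        refine (P.nil m).g_induction (by simp) (fun x y hx hy => ?_) fun i c hc => ?_
        · convert dvd_add hx hy using 1
          simp only [mul_add, map_add, LinearMap.add_apply]; ring
        · rcases i with _ | i
          · have : c = 0 := hc
            subst this; simp
          obtain ⟨E, hE, ec⟩ := P.gr_der i c hc
          have hd : Polynomial.X ^ (j + 2) ∣ (Polynomial.X ^ (m + 1) : Polynomial ℂ) :=
            pow_dvd_pow _ (by omega)
          have a1 := hd.trans (P.Φ_Tm γ ec (f * g))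
          have a2 := (hd.trans (P.Φ_Tm γ ec f)).mul_right (P.Φ m γ g)
          have a3 := (hd.trans (P.Φ_Tm γ ec g)).mul_left (P.Φ m γ f)
          have hd' : Polynomial.X ^ (j + 2) ∣
              (Polynomial.X ^ (i + 1) * Polynomial.X ^ (j + 1) : Polynomial ℂ) := by
            rw [← pow_add]; exact pow_dvd_pow _ (by omega)
          have a4 := hd'.trans (mul_dvd_mul_left _
            (dvd_add (ih (by omega) (E f) g) (ih (by omega) f (E g))))
          convert dvd_add (dvd_sub (dvd_sub a1 a2) a3) a4 using 1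
          rw [hE f g, map_add]; ring
      convert step ν hν using 1
      rw [← e, Φ_Y, Φ_Y, Φ_Y, map_sub, Polynomial.derivative_mul]; ring
  exact key m le_rfl f g

theorem Φ_unit {γ : P.BB m} (hγ : (P.nil m).CG γ) : P.Φ m γ 1 = 1 := by
  obtain ⟨ν, hν, e⟩ := P.CG_Y hγ
  have step : ∀ ν ∈ (P.nil m).g, P.Φ m (γ * ν) 1 = 0 := by
    refine (P.nil m).g_induction (by simp) (fun x y hx hy => by simp [mul_add, hx, hy])
      fun i c hc => ?_
    rcases i with _ | i
    · have : c = 0 := hc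
      subst this; simp
    obtain ⟨E, hE, ec⟩ := P.gr_der i c hc
    have h1 : E 1 = 0 := by simpa using hE 1 1
    exact P.Φ_eq_zero (by simpa [h1] using P.Φ_Tm γ ec 1)
  have h := step ν hν
  rw [← e, Φ_Y, mul_eq_zero] at h
  have h2 := Polynomial.eq_C_of_derivative_eq_zero (h.resolve_left Polynomial.X_ne_zero)
  have h3 := Polynomial.X_dvd_iff.1 (P.CG_ev hγ 1)
  rw [Polynomial.coeff_sub, Polynomial.coeff_C_zero, sub_eq_zero] at h3
  rw [h2, h3, map_one, map_one]

theorem Φ_aeval {γ : P.BB m} (hγ : (P.nil m).CG γ) {ι : Type*} (s : ι → O)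
    (Q : MvPolynomial ι ℂ) : Polynomial.X ^ (m + 1) ∣
      P.Φ m γ (MvPolynomial.aeval s Q) - MvPolynomial.aeval (fun i => P.Φ m γ (s i)) Q := by
  induction Q using MvPolynomial.induction_on with
  | C a =>
    rw [MvPolynomial.aeval_C, MvPolynomial.aeval_C, Algebra.algebraMap_eq_smul_one,
      Algebra.algebraMap_eq_smul_one, map_smul, P.Φ_unit hγ, sub_self]
    exact dvd_zero _
  | add p q hp hq =>
    convert dvd_add hp hq using 1
    simp only [map_add]; ring
  | mul_X p i hp =>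
    convert dvd_add (P.Φ_mul hγ (MvPolynomial.aeval s p) (s i)) (hp.mul_right (P.Φ m γ (s i)))
      using 1
    simp only [map_mul, MvPolynomial.aeval_X]; ring

/-- Products of generators along a word. -/
def wd (w : List Bool) : P.BB m := (w.map (P.gen m)).prod

theorem wd_rep (w : List Bool) : ∃ E : Module.End ℂ O,
    (P.wd w : P.BB m).1 = Tm m w.length E ∧ ∀ f, E f = wordD P.d w f := by
  induction w with
  | nil => exact ⟨1, (Tm_zero_one m).symm, fun _ => rfl⟩
  | cons b w ih =>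
    obtain ⟨E, e, h⟩ := ih
    refine ⟨(P.d b : Module.End ℂ O) * E, ?_, fun f => by simp [h, wordD]⟩
    change (P.gen m b * P.wd w).1 = _
    rw [MulMemClass.coe_mul, e, List.length_cons, add_comm w.length, ← Tm_mul]; rfl

theorem IL_of_RG {f : O} {j : ℕ} (hj : j ≤ m + 1)
    (h : ∀ γ, (P.nil m).RG γ → Polynomial.X ^ j ∣ P.Φ m γ f) : f ∈ P.IL j := by
  refine mem_vanI_iff.2 fun w hw => ?_
  let l : P.BB m →ₗ[ℂ] ℂ := Polynomial.lcoeff ℂ w.length ∘ₗ (P.Φ m).flip f
  have key : ∀ v : List Bool, ∀ γ, (P.nil m).RG γ → l (γ * P.wd v) = 0 := by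
    intro v
    induction v with
    | nil =>
      intro γ hγ
      have := Polynomial.X_pow_dvd_iff.1 (h γ hγ) _ hw
      simpa [l, wd] using this
    | cons b v ih => exact (P.nil m).span_step l ih ((P.nil m).gr_le_g (P.gen_mem m b))
  obtain ⟨E, e, hE⟩ := P.wd_rep (m := m) w
  have h1 := Polynomial.X_pow_dvd_iff.1 (P.Φ_Tm 1 e f) w.length (by omega)
  have h2 : (P.Φ m (1 * P.wd w) f).coeff w.length = 0 := key w 1 Nil.RG_one
  rw [Polynomial.coeff_sub, h2, Φ_one, hE] at h1
  simpa using h1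

end Two

end Pool.Agent.P.MP_1b6414_an
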