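import Pool.Agent.P.MP_1b6414_an.Main

/-! Germs of functions: smooth germs at a point and continuous germs of one real variable. -/

namespace Pool.Agent.P.MP_1b6414_an

open Filter Topology Finset Asymptotics
open scoped ContDiff

section GQ

variable {X : Type} (S : StarSubalgebra ℂ (X → ℂ)) (l : Filter X)

/-- Functions that vanish eventually. -/
def evI : Ideal S where
  carrier := {f | ∀ᶠ x in l, f.1 x = 0}
  add_mem' := fun {f g} hf hg => (Eventually.and hf hg).mono fun x h => by simp [h.1, h.2]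
  zero_mem' := Eventually.of_forall fun _ => rfl
  smul_mem' := fun c f hf => Eventually.mono hf fun x h => by simp [h]

/-- Germs. -/
def GQ : Type := S ⧸ evI S l

noncomputable instance : CommRing (GQ S l) := inferInstanceAs (CommRing (S ⧸ evI S l))

noncomputable instance : Algebra ℂ (GQ S l) := inferInstanceAs (Algebra ℂ (S ⧸ evI S l))

/-- The germ of a function. -/
noncomputable def GQ.mk : S →ₐ[ℂ] GQ S l := Ideal.Quotient.mkₐ ℂ (evI S l)

theorem GQ.mk_surj (g : GQ S l) : ∃ f, GQ.mk S l f = g := Ideal.Quotient.mk_surjective g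

theorem GQ.mk_eq {f g : S} : GQ.mk S l f = GQ.mk S l g ↔ f.1 =ᶠ[l] g.1 := by
  refine Ideal.Quotient.eq.trans ?_
  change (∀ᶠ x in l, (f - g).1 x = 0) ↔ ∀ᶠ x in l, f.1 x = g.1 x
  simp [sub_eq_zero]

/-- Conjugation of germs. -/
noncomputable def GQ.st : GQ S l →+* GQ S l :=
  Ideal.quotientMap (evI S l) (starRingEnd S) fun f hf => Eventually.mono hf fun x h => by
    change star (f.1 x) = 0
    rw [h, star_zero]

noncomputable instance : StarRing (GQ S l) where
  star := GQ.st S l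
  star_involutive g := by
    obtain ⟨f, rfl⟩ := GQ.mk_surj S l g
    change GQ.mk S l (star (star f)) = _
    rw [star_star]
  star_mul f g := (map_mul (GQ.st S l) f g).trans (mul_comm _ _)
  star_add := map_add (GQ.st S l)

theorem GQ.star_mk (f : S) : star (GQ.mk S l f) = GQ.mk S l (star f) := rfl

instance : StarModule ℂ (GQ S l) where
  star_smul c g := by
    obtain ⟨f, rfl⟩ := GQ.mk_surj S l g
    rw [← map_smul, GQ.star_mk, GQ.star_mk, star_smul, map_smul]

variable {S l}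

/-- The function `f` represents the germ `g`. -/
def Rep (f : X → ℂ) (g : GQ S l) : Prop := ∃ h : f ∈ S, GQ.mk S l ⟨f, h⟩ = g

theorem Rep.exists (g : GQ S l) : ∃ f, Rep f g := by
  obtain ⟨f, rfl⟩ := GQ.mk_surj S l g
  exact ⟨f.1, f.2, rfl⟩

theorem Rep.of_mem {f : X → ℂ} (h : f ∈ S) : Rep f (GQ.mk S l ⟨f, h⟩) := ⟨h, rfl⟩

theorem Rep.mem {f : X → ℂ} {g : GQ S l} (h : Rep f g) : f ∈ S := h.1

theorem Rep.eq_iff {f f' : X → ℂ} {g g' : GQ S l} (h : Rep f g) (h' : Rep f' g') :
    g = g' ↔ f =ᶠ[l] f' := by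
  obtain ⟨_, rfl⟩ := h
  obtain ⟨_, rfl⟩ := h'
  exact GQ.mk_eq S l

theorem Rep.add {f f' : X → ℂ} {g g' : GQ S l} (h : Rep f g) (h' : Rep f' g') :
    Rep (fun x => f x + f' x) (g + g') := by
  obtain ⟨a, rfl⟩ := h
  obtain ⟨b, rfl⟩ := h'
  exact ⟨add_mem a b, by rw [← map_add]; rfl⟩

theorem Rep.sub {f f' : X → ℂ} {g g' : GQ S l} (h : Rep f g) (h' : Rep f' g') :
    Rep (fun x => f x - f' x) (g - g') := by
  obtain ⟨a, rfl⟩ := h
  obtain ⟨b, rfl⟩ := h'
  exact ⟨sub_mem a b, by rw [← map_sub]; rfl⟩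

theorem Rep.mul {f f' : X → ℂ} {g g' : GQ S l} (h : Rep f g) (h' : Rep f' g') :
    Rep (fun x => f x * f' x) (g * g') := by
  obtain ⟨a, rfl⟩ := h
  obtain ⟨b, rfl⟩ := h'
  exact ⟨mul_mem a b, by rw [← map_mul]; rfl⟩

theorem Rep.const (c : ℂ) : Rep (fun _ => c) (algebraMap ℂ (GQ S l) c) :=
  ⟨algebraMap_mem S c, (GQ.mk S l).commutes c⟩

theorem Rep.zero : Rep (fun _ => 0) (0 : GQ S l) := by simpa using Rep.const (S := S) (l := l) 0

theorem Rep.one : Rep (fun _ => 1) (1 : GQ S l) := by simpa using Rep.const (S := S) (l := l) 1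

theorem Rep.smul {f : X → ℂ} {g : GQ S l} (c : ℂ) (h : Rep f g) :
    Rep (fun x => c * f x) (c • g) := by
  rw [Algebra.smul_def]; exact (Rep.const c).mul h

theorem Rep.star {f : X → ℂ} {g : GQ S l} (h : Rep f g) :
    Rep (fun x => starRingEnd ℂ (f x)) (star g) := by
  obtain ⟨a, rfl⟩ := h
  exact ⟨star_mem a, rfl⟩

theorem Rep.sum {ι : Type*} (s : Finset ι) {f : ι → X → ℂ} {g : ι → GQ S l}
    (h : ∀ i, Rep (f i) (g i)) : Rep (fun x => ∑ i ∈ s, f i x) (∑ i ∈ s, g i) := by
  classical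
  induction s using Finset.induction_on with
  | empty => simpa using Rep.zero
  | insert i s hi ih => simpa only [sum_insert hi] using (h i).add ih

theorem Rep.pow {f : X → ℂ} {g : GQ S l} (h : Rep f g) (m : ℕ) :
    Rep (fun x => f x ^ m) (g ^ m) := by
  induction m with
  | zero => simpa using Rep.one
  | succ m ih => simpa only [pow_succ] using ih.mul h

theorem Rep.aeval {f : X → ℂ} {g : GQ S l} (h : Rep f g) (P : Polynomial ℂ) :
    Rep (fun x => P.eval (f x)) (Polynomial.aeval g P) := by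
  induction P using Polynomial.induction_on' with
  | add p q hp hq => simpa using hp.add hq
  | monomial n a => simpa [Polynomial.aeval_monomial] using (Rep.const a).mul (h.pow n)

end GQ

/-- Functions of a real variable that are continuous at zero. -/
def contS : StarSubalgebra ℂ (ℝ → ℂ) where
  carrier := {f | ContinuousAt f 0}
  mul_mem' := ContinuousAt.mul
  add_mem' := ContinuousAt.add
  algebraMap_mem' _ := continuousAt_const
  star_mem' := ContinuousAt.star

/-- Continuous germs. -/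
abbrev TT : Type := GQ contS (𝓝 0)

theorem rep_t : Rep (fun t : ℝ => (t : ℂ))
    (GQ.mk contS (𝓝 0) ⟨fun t : ℝ => (t : ℂ), Complex.continuous_ofReal.continuousAt⟩) :=
  Rep.of_mem _

/-- The arc structure on continuous germs. -/
noncomputable def arc : Arc TT where
  t := GQ.mk contS (𝓝 0) ⟨fun t : ℝ => (t : ℂ), Complex.continuous_ofReal.continuousAt⟩
  star_t := (rep_t.star.eq_iff rep_t).2 (Eventually.of_forall fun t => Complex.conj_ofReal t)
  o m :=
    { carrier := {g | ∃ f, Rep f g ∧ f =o[𝓝 0] fun t : ℝ => t ^ m}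
      add_mem' := fun ⟨_, h1, h2⟩ ⟨_, k1, k2⟩ => ⟨_, h1.add k1, h2.add k2⟩
      zero_mem' := ⟨_, Rep.zero, isLittleO_zero _ _⟩
      smul_mem' := fun c g ⟨f, h1, h2⟩ => by
        obtain ⟨e, he⟩ := Rep.exists c
        refine ⟨_, he.mul h1, ?_⟩
        have := (Tendsto.isBigO_one ℝ (he.mem : ContinuousAt e 0)).mul_isLittleO h2
        simpa using this }
  t_mem := ⟨_, rep_t, by
    simp only [pow_zero]
    exact (isLittleO_one_iff ℝ).2 (by simpa using Complex.continuous_ofReal.tendsto 0)⟩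
  o_succ m g := fun ⟨f, h1, h2⟩ => ⟨_, rep_t.mul h1, by
    have h3 : (fun t : ℝ => (t : ℂ)) =O[𝓝 0] fun t : ℝ => t :=
      IsBigO.of_bound' (Eventually.of_forall fun t => by simp)
    simpa only [pow_succ'] using h3.mul_isLittleO h2⟩
  o_star m g := fun ⟨f, h1, h2⟩ => ⟨_, h1.star, by
    rw [← isLittleO_norm_left] at h2 ⊢; simpa using h2⟩
  Pos g := ∃ f, Rep f g ∧ ∀ᶠ t in 𝓝 (0 : ℝ), 0 ≤ (f t).re
  sign m g c := fun ⟨f, h1, h2⟩ ⟨e, k1, k2⟩ => by
    have h3 := (k1.eq_iff (h1.sub ((rep_t.pow m).smul c))).1 rfl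
    by_contra hc
    push Not at hc
    have h4 := isLittleO_iff.1 k2 (c := -c.re / 2) (by linarith)
    have h5 : ∀ᶠ t in 𝓝[>] (0 : ℝ), False := by
      filter_upwards [nhdsWithin_le_nhds h2, nhdsWithin_le_nhds h3, nhdsWithin_le_nhds h4,
        self_mem_nhdsWithin] with t a1 a2 a3 a4
      have a5 : 0 < t ^ m := pow_pos a4 m
      have a6 : (e t).re = (f t).re - c.re * t ^ m := by
        rw [a2, ← Complex.ofReal_pow, Complex.sub_re, Complex.re_mul_ofReal]
      have a7 := Complex.re_le_norm (e t)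
      have a8 := mul_pos (neg_pos.2 hc) a5
      rw [Real.norm_of_nonneg a5.le] at a3
      nlinarith
    exact h5.exists.elim fun _ h => h

variable {N : ℕ} (p : Fin N → ℝ)

/-- Functions that are smooth at `p`. -/
def smS : StarSubalgebra ℂ ((Fin N → ℝ) → ℂ) where
  carrier := {f | ContDiffAt ℝ ∞ f p}
  mul_mem' := fun {f g} (h : ContDiffAt ℝ ∞ f p) (h' : ContDiffAt ℝ ∞ g p) => h.mul h'
  add_mem' := fun {f g} (h : ContDiffAt ℝ ∞ f p) (h' : ContDiffAt ℝ ∞ g p) => h.add h'
  algebraMap_mem' c := (contDiffAt_const : ContDiffAt ℝ ∞ (fun _ => c) p)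
  star_mem' := fun {f} (h : ContDiffAt ℝ ∞ f p) => Complex.conjCLE.contDiff.contDiffAt.comp p h

/-- Smooth germs. -/
abbrev OO : Type := GQ (smS p) (𝓝 p)

/-- Partial derivative of a function. -/
noncomputable def pdF (i : Fin N) (f : (Fin N → ℝ) → ℂ) (x : Fin N → ℝ) : ℂ :=
  fderiv ℝ f x (Pi.single i 1)

variable {p}

theorem mem_smS {f : (Fin N → ℝ) → ℂ} : f ∈ smS p ↔ ContDiffAt ℝ ∞ f p := Iff.rfl

theorem pdF_mem (i : Fin N) {f : (Fin N → ℝ) → ℂ} (h : f ∈ smS p) : pdF i f ∈ smS p :=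
  mem_smS.2 (((mem_smS.1 h).fderiv_right (m := ∞) le_rfl).clm_apply contDiffAt_const)

theorem ev_two {f : (Fin N → ℝ) → ℂ} (h : f ∈ smS p) : ∀ᶠ x in 𝓝 p, ContDiffAt ℝ 2 f x :=
  ((mem_smS.1 h).of_le (WithTop.coe_le_coe.2 (le_top : (2 : ℕ∞) ≤ ⊤))).eventually (by simp)

theorem ev_diff {f : (Fin N → ℝ) → ℂ} (h : f ∈ smS p) : ∀ᶠ x in 𝓝 p, DifferentiableAt ℝ f x :=
  (ev_two h).mono fun _ h => h.differentiableAt (by simp)

/-- Partial derivative of a germ. -/
noncomputable def pdG (i : Fin N) (g : OO p) : OO p :=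
  GQ.mk _ _ ⟨pdF i (Rep.exists g).choose, pdF_mem i (Rep.exists g).choose_spec.mem⟩

theorem Rep.pdG {f : (Fin N → ℝ) → ℂ} {g : OO p} (h : Rep f g) (i : Fin N) :
    Rep (pdF i f) (pdG i g) := by
  refine ⟨pdF_mem i h.mem, (GQ.mk_eq _ _).2 ?_⟩
  have := ((h.eq_iff (Rep.exists g).choose_spec).1 rfl).fderiv (𝕜 := ℝ)
  exact this.mono fun x hx => by simp only [pdF, hx]

variable (p)

/-- Partial derivative as a derivation. -/
noncomputable def pdD (i : Fin N) : Derivation ℂ (OO p) (OO p) :=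
  Derivation.mk'
    { toFun := pdG i
      map_add' := fun g g' => by
        obtain ⟨f, h⟩ := Rep.exists g
        obtain ⟨f', h'⟩ := Rep.exists g'
        refine (((h.add h').pdG i).eq_iff ((h.pdG i).add (h'.pdG i))).2 ?_
        filter_upwards [ev_diff h.mem, ev_diff h'.mem] with x a b
        simp only [pdF, fderiv_fun_add a b, add_apply]
      map_smul' := fun c g => by
        obtain ⟨f, h⟩ := Rep.exists g
        refine (((h.smul c).pdG i).eq_iff ((h.pdG i).smul c)).2 ?_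
        filter_upwards [ev_diff h.mem] with x a
        simp [pdF, fderiv_const_mul a] }
    fun g g' => by
      obtain ⟨f, h⟩ := Rep.exists g
      obtain ⟨f', h'⟩ := Rep.exists g'
      refine (((h.mul h').pdG i).eq_iff ((h.mul (h'.pdG i)).add (h'.mul (h.pdG i)))).2 ?_
      filter_upwards [ev_diff h.mem, ev_diff h'.mem] with x a b
      simp [pdF, fderiv_fun_mul a b]

/-- Evaluation at the base point. -/
noncomputable def evG : OO p →ₐ[ℂ] ℂ :=
  Ideal.Quotient.liftₐ (evI (smS p) (𝓝 p))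
    ((Pi.evalAlgHom ℂ (fun _ => ℂ) p).comp (smS p).toSubalgebra.val)
    fun f (hf : ∀ᶠ x in 𝓝 p, f.1 x = 0) => hf.self_of_nhds

variable {p}

theorem Rep.evG {f : (Fin N → ℝ) → ℂ} {g : OO p} (h : Rep f g) : evG p g = f p := by
  obtain ⟨_, rfl⟩ := h; rfl

theorem coord_mem (i : Fin N) : (fun y : Fin N → ℝ => ((y i - p i : ℝ) : ℂ)) ∈ smS p :=
  mem_smS.2 (Complex.ofRealCLM.contDiff.contDiffAt.comp p ((contDiff_apply ℝ ℝ i).contDiffAt.sub
    contDiffAt_const))

variable (p)

/-- The jet structure on smooth germs. -/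
noncomputable def jet : Jet N (OO p) where
  ev := evG p
  ev_star g := by
    obtain ⟨f, h⟩ := Rep.exists g
    rw [h.evG, h.star.evG]; rfl
  pd := pdD p
  pd_comm i j g := by
    obtain ⟨f, h⟩ := Rep.exists g
    refine (((h.pdG j).pdG i).eq_iff ((h.pdG i).pdG j)).2 ?_
    filter_upwards [ev_two h.mem] with x a
    have b : DifferentiableAt ℝ (fderiv ℝ f) x :=
      (a.fderiv_right (m := 1) le_rfl).differentiableAt (by simp)
    have e : ∀ i j, pdF i (pdF j f) x =
        fderiv ℝ (fderiv ℝ f) x (Pi.single i 1) (Pi.single j 1) := by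
      intro i j
      unfold pdF
      rw [fderiv_clm_apply b (differentiableAt_const _)]; simp
    rw [e, e]
    exact a.isSymmSndFDerivAt (by simp) _ _
  pd_star i g := by
    obtain ⟨f, h⟩ := Rep.exists g
    refine ((h.star.pdG i).eq_iff (h.pdG i).star).2 (Eventually.of_forall fun x => ?_)
    have := fderiv_star (𝕜 := ℝ) (f := f) (x := x)
    exact congrArg (fun A => A (Pi.single i 1)) this
  x i := GQ.mk _ _ ⟨_, coord_mem i⟩
  pd_x i j := by
    have h1 : Rep (fun _ => if i = j then 1 else 0) (if i = j then (1 : OO p) else 0) := by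
      split_ifs
      · exact Rep.one
      · exact Rep.zero
    refine (((Rep.of_mem (coord_mem j)).pdG i).eq_iff h1).2 (Eventually.of_forall fun x => ?_)
    have h2 : HasFDerivAt (fun y : Fin N → ℝ => ((y j - p j : ℝ) : ℂ))
        (Complex.ofRealCLM.comp (ContinuousLinearMap.proj j)) x :=
      Complex.ofRealCLM.hasFDerivAt.comp x ((hasFDerivAt_apply j x).sub_const (p j))
    simp only [pdF, h2.fderiv]
    by_cases hij : i = j
    · subst hij; simp
    · simp [hij]
  ev_x i := by rw [(Rep.of_mem (coord_mem i)).evG]; simp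
  star_x i := ((Rep.of_mem (coord_mem i)).star.eq_iff (Rep.of_mem (coord_mem i))).2
    (Eventually.of_forall fun _ => Complex.conj_ofReal _)
  unit g hg := by
    obtain ⟨f, h⟩ := Rep.exists g
    rw [h.evG] at hg
    have h' : Rep (fun x => (f x)⁻¹) (_ : OO p) := Rep.of_mem (mem_smS.2 ((mem_smS.1 h.mem).inv hg))
    refine IsUnit.of_mul_eq_one _ (((h.mul h').eq_iff Rep.one).2 ?_)
    have : ContinuousAt f p := (mem_smS.1 h.mem).continuousAt
    filter_upwards [this.eventually_ne hg] with x hx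
    exact mul_inv_cancel₀ hx

variable {p}

theorem littleO_of_I (m : ℕ) : ∀ {f : (Fin N → ℝ) → ℂ} {g : OO p}, Rep f g →
    g ∈ (jet p).I (m + 1) → f =o[𝓝 p] fun x => ‖x - p‖ ^ m := by
  induction m with
  | zero =>
    intro f g h hg
    have h0 : f p = 0 := h.evG.symm.trans (vanI_ev hg)
    have : ContinuousAt f p := (mem_smS.1 h.mem).continuousAt
    simp only [pow_zero]
    exact (isLittleO_one_iff ℝ).2 (h0 ▸ this)
  | succ m ih =>
    intro f g h hg
    have h0 : f p = 0 := h.evG.symm.trans (vanI_ev hg)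
    have h1 : ∀ i, pdF i f =o[𝓝 p] fun x => ‖x - p‖ ^ m := fun i => ih (h.pdG i) (hg.2 i)
    have h2 : fderiv ℝ f =o[𝓝 p] fun x => ‖x - p‖ ^ m := by
      have e : fderiv ℝ f = fun x => ∑ i, ContinuousLinearMap.smulRightL ℝ (Fin N → ℝ) ℂ
          (ContinuousLinearMap.proj i) (pdF i f x) := by
        funext x
        ext v
        conv_lhs => rw [pi_eq_sum_univ' v]
        simp [pdF]
      rw [e]
      exact IsLittleO.fun_sum fun i _ => (ContinuousLinearMap.isBigO_comp _ _ _).trans_isLittleO (h1 i)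
    obtain ⟨ε, hε, hb⟩ := Metric.eventually_nhds_iff_ball.1 (ev_diff h.mem)
    have h3 := (convex_ball p ε).isLittleO_pow_succ (Metric.mem_ball_self hε)
      (fun x hx => (hb x hx).hasFDerivAt.hasFDerivWithinAt) (h2.mono nhdsWithin_le_nhds)
    rw [nhdsWithin_eq_nhds.2 (Metric.ball_mem_nhds p hε)] at h3
    simpa [h0] using h3

end Pool.Agent.P.MP_1b6414_an
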