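import Pool.Agent.P.MP_1b6414_an.Nil

/-! The graded Lie algebra generated by `a` and its conjugate, and its group. -/

namespace Pool.Agent.P.MP_1b6414_an

open Finset

namespace Nil

variable {B : Type*} [Ring B] [Algebra ℂ B] (N : Nil B)

/-- Graded pieces of the Lie algebra. -/
def gr : ℕ → Submodule ℂ B
  | 0 => ⊥
  | 1 => Submodule.span ℂ {N.a, N.σ N.a}
  | (j + 2) => Submodule.span ℂ
      {z | ∃ x ∈ Submodule.span ℂ {N.a, N.σ N.a}, ∃ c ∈ gr (j + 1), z = x * c - c * x}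

/-- The Lie algebra. -/
def g : Submodule ℂ B := ⨆ j, N.gr j

theorem gr_one : N.gr 1 = Submodule.span ℂ {N.a, N.σ N.a} := rfl

theorem mem_gr_one {x : B} : x ∈ N.gr 1 ↔ ∃ s t : ℂ, s • N.a + t • N.σ N.a = x :=
  Submodule.mem_span_pair

theorem a_mem : N.a ∈ N.gr 1 := Submodule.subset_span (by simp)

theorem σa_mem : N.σ N.a ∈ N.gr 1 := Submodule.subset_span (by simp)

theorem br_mem_succ {j : ℕ} {x c : B} (hx : x ∈ N.gr 1) (hc : c ∈ N.gr (j + 1)) :
    x * c - c * x ∈ N.gr (j + 2) := Submodule.subset_span ⟨x, hx, c, hc, rfl⟩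

theorem gr_induction {j : ℕ} {p : B → Prop} (h0 : p 0) (hadd : ∀ x y, p x → p y → p (x + y))
    (hsmul : ∀ (c : ℂ) x, p x → p (c • x))
    (hbr : ∀ x ∈ N.gr 1, ∀ c ∈ N.gr (j + 1), p (x * c - c * x)) :
    ∀ z ∈ N.gr (j + 2), p z := by
  intro z hz
  induction hz using Submodule.span_induction with
  | mem z hz => obtain ⟨x, hx, c, hc, rfl⟩ := hz; exact hbr x hx c hc
  | zero => exact h0
  | add x y _ _ hx hy => exact hadd x y hx hy
  | smul c x _ hx => exact hsmul c x hx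

theorem Y_σa : N.Y * N.σ N.a - N.σ N.a * N.Y = N.σ N.a := by
  have := congrArg N.σ N.Y_a
  rwa [map_sub, map_mul, map_mul, N.σ_Y] at this

theorem gr_spec (j : ℕ) : ∀ c ∈ N.gr j,
    c ∈ N.F j ∧ N.Y * c - c * N.Y = (j : ℂ) • c ∧ N.σ c ∈ N.gr j := by
  have h1 : ∀ c ∈ N.gr 1,
      c ∈ N.F 1 ∧ N.Y * c - c * N.Y = ((1 : ℕ) : ℂ) • c ∧ N.σ c ∈ N.gr 1 := by
    intro c hc
    obtain ⟨s, t, rfl⟩ := N.mem_gr_one.1 hc
    refine ⟨add_mem (Submodule.smul_mem _ _ N.a_F) (Submodule.smul_mem _ _ (N.σ_F N.a_F)), ?_, ?_⟩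
    · have e : N.Y * (s • N.a + t • N.σ N.a) - (s • N.a + t • N.σ N.a) * N.Y =
          s • (N.Y * N.a - N.a * N.Y) + t • (N.Y * N.σ N.a - N.σ N.a * N.Y) := by
        simp only [mul_add, add_mul, mul_smul_comm, smul_mul_assoc, smul_sub]; abel
      rw [e, N.Y_a, N.Y_σa]; simp
    · rw [map_add, N.σ_smul, N.σ_smul, N.σσ]
      exact add_mem (Submodule.smul_mem _ _ N.σa_mem) (Submodule.smul_mem _ _ N.a_mem)
  induction j with
  | zero => intro c hc; have : c = 0 := hc; subst this; simp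
  | succ j ih =>
    rcases j with _ | j
    · exact h1
    · refine N.gr_induction ⟨zero_mem _, by simp, by simp⟩ ?_ ?_ ?_
      · rintro x y ⟨a1, a2, a3⟩ ⟨b1, b2, b3⟩
        refine ⟨add_mem a1 b1, ?_, by rw [map_add]; exact add_mem a3 b3⟩
        rw [smul_add, ← a2, ← b2]; noncomm_ring
      · rintro c x ⟨a1, a2, a3⟩
        refine ⟨Submodule.smul_mem _ _ a1, ?_, by rw [N.σ_smul]; exact Submodule.smul_mem _ _ a3⟩
        rw [smul_comm, ← a2, smul_sub, mul_smul_comm, smul_mul_assoc]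
      · intro x hx c hc
        obtain ⟨a1, a2, a3⟩ := h1 x hx
        obtain ⟨b1, b2, b3⟩ := ih c hc
        refine ⟨sub_mem (N.mul_le a1 b1 (by omega)) (N.mul_le b1 a1 (by omega)), ?_, ?_⟩
        · have e : N.Y * (x * c - c * x) - (x * c - c * x) * N.Y =
              (N.Y * x - x * N.Y) * c + x * (N.Y * c - c * N.Y) -
                ((N.Y * c - c * N.Y) * x + c * (N.Y * x - x * N.Y)) := by noncomm_ring
          rw [e, a2, b2]
          simp only [mul_smul_comm, smul_mul_assoc]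
          push_cast
          module
        · rw [map_sub, map_mul, map_mul]
          exact N.br_mem_succ a3 b3

theorem gr_F {j : ℕ} {c : B} (hc : c ∈ N.gr j) : c ∈ N.F j := (N.gr_spec j c hc).1

theorem gr_Y {j : ℕ} {c : B} (hc : c ∈ N.gr j) : N.Y * c - c * N.Y = (j : ℂ) • c :=
  (N.gr_spec j c hc).2.1

theorem gr_σ {j : ℕ} {c : B} (hc : c ∈ N.gr j) : N.σ c ∈ N.gr j := (N.gr_spec j c hc).2.2

theorem br_one {j : ℕ} {x c : B} (hx : x ∈ N.gr 1) (hc : c ∈ N.gr j) :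
    x * c - c * x ∈ N.gr (j + 1) := by
  rcases j with _ | j
  · have : c = 0 := hc
    subst this; simp
  · exact N.br_mem_succ hx hc

theorem gr_br (i : ℕ) : ∀ x ∈ N.gr i, ∀ j, ∀ c ∈ N.gr j, x * c - c * x ∈ N.gr (j + i) := by
  induction i with
  | zero => intro x hx j c _; have : x = 0 := hx; subst this; simp
  | succ i ih =>
    rcases i with _ | i
    · intro x hx j c hc; exact N.br_one hx hc
    · refine N.gr_induction (by intro j c _; simp) ?_ ?_ ?_
      · intro x y hx hy j c hc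
        have e : (x + y) * c - c * (x + y) = (x * c - c * x) + (y * c - c * y) := by noncomm_ring
        rw [e]; exact add_mem (hx j c hc) (hy j c hc)
      · intro s x hx j c hc
        rw [smul_mul_assoc, mul_smul_comm, ← smul_sub]
        exact Submodule.smul_mem _ _ (hx j c hc)
      · intro u hu v hv j c hc
        have e : (u * v - v * u) * c - c * (u * v - v * u) =
            (u * (v * c - c * v) - (v * c - c * v) * u) -
              (v * (u * c - c * u) - (u * c - c * u) * v) := by noncomm_ring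
        rw [e]
        refine sub_mem (N.br_one hu (ih v hv j c hc)) ?_
        have := ih v hv (j + 1) _ (N.br_one hu hc)
        rwa [show j + 1 + (i + 1) = j + (i + 1 + 1) by omega] at this

theorem gr_le_g {j : ℕ} {c : B} (hc : c ∈ N.gr j) : c ∈ N.g :=
  (le_iSup N.gr j : N.gr j ≤ N.g) hc

theorem g_induction {p : B → Prop} (h0 : p 0) (hadd : ∀ x y, p x → p y → p (x + y))
    (hgr : ∀ j, ∀ c ∈ N.gr j, p c) : ∀ z ∈ N.g, p z := by
  intro z hz
  exact Submodule.iSup_induction N.gr (motive := p) hz hgr h0 hadd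

theorem g_F {x : B} (hx : x ∈ N.g) : x ∈ N.F 1 := by
  refine N.g_induction (p := fun x => x ∈ N.F 1) (zero_mem _) (fun _ _ => add_mem) ?_ x hx
  intro j c hc
  rcases j with _ | j
  · have : c = 0 := hc
    subst this; exact zero_mem _
  · exact N.F_anti (by omega) (N.gr_F hc)

theorem g_σ {x : B} (hx : x ∈ N.g) : N.σ x ∈ N.g := by
  refine N.g_induction (p := fun x => N.σ x ∈ N.g) (by simp) ?_ ?_ x hx
  · intro x y hx hy; rw [map_add]; exact add_mem hx hy
  · intro j c hc; exact N.gr_le_g (N.gr_σ hc)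

theorem g_Y {x : B} (hx : x ∈ N.g) : N.Y * x - x * N.Y ∈ N.g := by
  refine N.g_induction (p := fun x => N.Y * x - x * N.Y ∈ N.g) (by simp) ?_ ?_ x hx
  · intro x y hx hy
    have e : N.Y * (x + y) - (x + y) * N.Y = (N.Y * x - x * N.Y) + (N.Y * y - y * N.Y) := by
      noncomm_ring
    rw [e]; exact add_mem hx hy
  · intro j c hc; rw [N.gr_Y hc]; exact Submodule.smul_mem _ _ (N.gr_le_g hc)

theorem g_br {x y : B} (hx : x ∈ N.g) (hy : y ∈ N.g) : x * y - y * x ∈ N.g := by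
  refine N.g_induction (p := fun x => x * y - y * x ∈ N.g) (by simp) ?_ ?_ x hx
  · intro x x' hx hx'
    have e : (x + x') * y - y * (x + x') = (x * y - y * x) + (x' * y - y * x') := by noncomm_ring
    rw [e]; exact add_mem hx hx'
  · intro i c hc
    refine N.g_induction (p := fun y => c * y - y * c ∈ N.g) (by simp) ?_ ?_ y hy
    · intro y y' hy hy'
      have e : c * (y + y') - (y + y') * c = (c * y - y * c) + (c * y' - y' * c) := by
        noncomm_ring
      rw [e]; exact add_mem hy hy'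
    · intro j d hd; exact N.gr_le_g (N.gr_br i c hc j d hd)

theorem g_nilp {x : B} (hx : x ∈ N.g) : IsNilpotent x := N.nilp (N.g_F hx)

theorem gr_eq_zero {j : ℕ} {c : B} (hc : c ∈ N.gr j) (hc' : c ∈ N.F (j + 1)) : c = 0 := by
  have : ∀ m, c ∈ N.F (j + 1 + m) := by
    intro m
    induction m with
    | zero => exact hc'
    | succ m ih =>
      have h1 := N.Y_F ih
      rw [N.gr_Y hc, ← sub_smul] at h1
      have h2 : ((j : ℂ) - ((j + 1 + m : ℕ) : ℂ)) ≠ 0 := by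
        rw [sub_ne_zero]; exact_mod_cast (by omega : j ≠ j + 1 + m)
      exact (Submodule.smul_mem_iff _ h2).1 h1
  exact N.F_K (N.F_anti (by omega) (this N.K))

theorem g_lead {j : ℕ} {x : B} (hx : x ∈ N.g) (hxF : x ∈ N.F j) :
    ∃ c ∈ N.gr j, x - c ∈ N.F (j + 1) := by
  have hsplit : ∀ j, ∀ x ∈ (⨆ i, N.gr (j + i) : Submodule ℂ B),
      ∃ c ∈ N.gr j, x - c ∈ (⨆ i, N.gr (j + 1 + i) : Submodule ℂ B) := by
    intro j x hx
    refine Submodule.iSup_induction (fun i => N.gr (j + i))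
      (motive := fun x => ∃ c ∈ N.gr j, x - c ∈ (⨆ i, N.gr (j + 1 + i) : Submodule ℂ B)) hx ?_
      ⟨0, zero_mem _, by simp⟩ ?_
    · intro i c hc
      rcases i with _ | i
      · exact ⟨c, hc, by simp⟩
      · refine ⟨0, zero_mem _, ?_⟩
        rw [sub_zero]
        refine (le_iSup (fun i => N.gr (j + 1 + i)) i) ?_
        rwa [show j + 1 + i = j + (i + 1) by omega]
    · rintro x y ⟨c, hc, h1⟩ ⟨d, hd, h2⟩
      exact ⟨c + d, add_mem hc hd, by rw [add_sub_add_comm]; exact add_mem h1 h2⟩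
  have hF : ∀ j, ∀ x ∈ (⨆ i, N.gr (j + i) : Submodule ℂ B), x ∈ N.F j := by
    intro j x hx
    exact (iSup_le fun i c hc => N.F_anti (Nat.le_add_right j i) (N.gr_F hc) :
      (⨆ i, N.gr (j + i) : Submodule ℂ B) ≤ N.F j) hx
  have hge : ∀ j, x ∈ N.F j → x ∈ (⨆ i, N.gr (j + i) : Submodule ℂ B) := by
    intro j
    induction j with
    | zero => intro _; simpa [g] using hx
    | succ j ih =>
      intro h
      obtain ⟨c, hc, h1⟩ := hsplit j x (ih (N.F_anti (Nat.le_succ _) h))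
      have : c = 0 := N.gr_eq_zero hc (by simpa using sub_mem h (hF _ _ h1))
      simpa [this] using h1
  obtain ⟨c, hc, h1⟩ := hsplit j x (hge j hxF)
  exact ⟨c, hc, hF _ _ h1⟩

theorem adL_pow_mem {x : B} (hx : x ∈ N.F 1) (m : ℕ) (w : B) : (adL x ^ m) w ∈ N.F m := by
  induction m with
  | zero => exact N.F_zero _
  | succ m ih =>
    rw [pow_succ', Module.End.mul_apply, adL_apply]
    exact sub_mem (N.mul_le hx ih (by omega)) (N.mul_le ih hx (by omega))

theorem adL_pow_K {x : B} (hx : x ∈ N.F 1) : adL x ^ N.K = 0 :=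
  LinearMap.ext fun w => N.F_K (N.adL_pow_mem hx _ w)

theorem adL_pow_g {x w : B} (hx : x ∈ N.g) (hw : w ∈ N.g) (m : ℕ) : (adL x ^ m) w ∈ N.g := by
  induction m with
  | zero => exact hw
  | succ m ih => rw [pow_succ', Module.End.mul_apply, adL_apply]; exact N.g_br hx ih

theorem conj_g {x w : B} (hx : x ∈ N.g) (hw : w ∈ N.g) : ex x * w * ex (-x) ∈ N.g := by
  rw [ex_conj (N.g_nilp hx), ex_eq_sum (N.adL_pow_K (N.g_F hx)), LinearMap.sum_apply]
  exact Submodule.sum_mem _ fun i _ => Submodule.smul_mem _ _ (N.adL_pow_g hx hw i)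

theorem conj_Y {x : B} (hx : x ∈ N.g) : ex x * N.Y * ex (-x) - N.Y ∈ N.g := by
  have hK : adL x ^ (N.K + 1) = 0 := by rw [pow_succ, N.adL_pow_K (N.g_F hx), zero_mul]
  rw [ex_conj (N.g_nilp hx), ex_eq_sum hK, LinearMap.sum_apply, sum_range_succ']
  simp only [Nat.factorial_zero, Nat.cast_one, inv_one, pow_zero, one_smul,
    Module.End.one_apply, add_sub_cancel_right]
  refine Submodule.sum_mem _ fun i _ => Submodule.smul_mem _ _ ?_
  rw [pow_succ, Module.End.mul_apply]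
  refine N.adL_pow_g hx ?_ i
  have := neg_mem (N.g_Y hx)
  simpa using this

/-- The invariant description of group elements. -/
def Good (u : B) : Prop :=
  u - 1 ∈ N.F 1 ∧ ∃ v, u * v = 1 ∧ v * u = 1 ∧ (∀ w ∈ N.g, u * w * v ∈ N.g) ∧
    u * N.Y * v - N.Y ∈ N.g

theorem good_ex {x : B} (hx : x ∈ N.g) : N.Good (ex x) :=
  ⟨N.ex_sub_one (j := 0) (N.g_F hx), ex (-x), ex_mul_neg (N.g_nilp hx), ex_neg_mul (N.g_nilp hx),
    fun _ hw => N.conj_g hx hw, N.conj_Y hx⟩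

theorem Good.mul {u u' : B} (h : N.Good u) (h' : N.Good u') : N.Good (u * u') := by
  obtain ⟨h1, v, h2, h3, h4, h5⟩ := h
  obtain ⟨k1, v', k2, k3, k4, k5⟩ := h'
  refine ⟨?_, v' * v, ?_, ?_, ?_, ?_⟩
  · have e : u * u' - 1 = (u - 1) * u' + (u' - 1) := by noncomm_ring
    rw [e]; exact add_mem (N.mul_right h1 _) k1
  · rw [mul_assoc, ← mul_assoc u', k2, one_mul, h2]
  · rw [mul_assoc, ← mul_assoc v, h3, one_mul, k3]
  · intro w hw
    have := h4 _ (k4 w hw)
    simpa [mul_assoc] using this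
  · have := add_mem (h4 _ k5) h5
    have e : u * (u' * N.Y * v' - N.Y) * v + (u * N.Y * v - N.Y) =
        u * u' * N.Y * (v' * v) - N.Y := by noncomm_ring
    rwa [e] at this

theorem Good.lead {u : B} {j : ℕ} (h : N.Good u) (hu : u - 1 ∈ N.F (j + 1)) :
    ∃ c ∈ N.gr (j + 1), u - 1 - c ∈ N.F (j + 2) := by
  obtain ⟨h1, v, h2, h3, -, h5⟩ := h
  have hv : v - 1 ∈ N.F 1 := by
    have e : v - 1 = -((u - 1) * v) := by rw [sub_mul, h2, one_mul]; abel
    rw [e]; exact neg_mem (N.mul_right h1 _)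
  set r := u - 1 with hr
  have hu' : u = r + 1 := by rw [hr]; abel
  have hE := N.Y_F hu
  have e : -(u * N.Y * v - N.Y) = (N.Y * r - r * N.Y) * v := by
    calc -(u * N.Y * v - N.Y) = N.Y * (u * v) - u * N.Y * v := by rw [h2]; noncomm_ring
      _ = _ := by rw [hu']; noncomm_ring
  have hEr : N.Y * r - r * N.Y ∈ N.F (j + 1) := sub_mem (N.mul_left _ hu) (N.mul_right hu _)
  have hν : (N.Y * r - r * N.Y) * v ∈ N.g := by rw [← e]; exact neg_mem h5
  obtain ⟨c, hc, hc'⟩ := N.g_lead hν (N.mul_right hEr v)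
  have hj : ((j + 1 : ℕ) : ℂ) ≠ 0 := by exact_mod_cast Nat.succ_ne_zero j
  refine ⟨((j + 1 : ℕ) : ℂ)⁻¹ • c, Submodule.smul_mem _ _ hc, ?_⟩
  rw [← Submodule.smul_mem_iff _ hj, smul_sub, smul_smul, mul_inv_cancel₀ hj, one_smul]
  have e2 : ((j + 1 : ℕ) : ℂ) • r - c = ((N.Y * r - r * N.Y) * v - c) -
      (N.Y * r - r * N.Y) * (v - 1) - (N.Y * r - r * N.Y - ((j + 1 : ℕ) : ℂ) • r) := by
    rw [mul_sub (N.Y * r - r * N.Y), mul_one]; abel
  rw [e2]
  exact sub_mem (sub_mem hc' (N.mul_le hEr hv (by omega))) hE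

theorem Good.exists_log {u : B} (h : N.Good u) : ∃ x ∈ N.g, u = ex x := by
  have key : ∀ j, ∃ x ∈ N.g, ex (-x) * u - 1 ∈ N.F (j + 1) := by
    intro j
    induction j with
    | zero => exact ⟨0, zero_mem _, by simpa using h.1⟩
    | succ j ih =>
      obtain ⟨x, hx, h1⟩ := ih
      obtain ⟨c, hc, h2⟩ := Good.lead N (Good.mul N (N.good_ex (neg_mem hx)) h) h1
      refine ⟨x + c, add_mem hx (N.gr_le_g hc), ?_⟩
      have h3 := N.ex_perturb (neg_mem (N.g_F hx)) (neg_mem (N.gr_F hc))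
      have e : ex (-(x + c)) * u - 1 = (ex (-x + -c) - ex (-x) - -c) * u +
          (ex (-x) * u - 1 - c) - c * (u - 1) := by
        rw [neg_add]; noncomm_ring
      rw [e]
      exact sub_mem (add_mem (N.mul_right h3 _) h2) (N.mul_le (N.gr_F hc) h.1 (by omega))
  obtain ⟨x, hx, h1⟩ := key N.K
  have h2 : ex (-x) * u = 1 := sub_eq_zero.1 (N.F_K (N.F_anti (Nat.le_succ _) h1))
  refine ⟨x, hx, ?_⟩
  calc u = ex x * (ex (-x) * u) := by rw [← mul_assoc, ex_mul_neg (N.g_nilp hx), one_mul]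
    _ = ex x := by rw [h2, mul_one]

theorem bch {x y : B} (hx : x ∈ N.g) (hy : y ∈ N.g) : ∃ z ∈ N.g, ex x * ex y = ex z :=
  Good.exists_log N (Good.mul N (N.good_ex hx) (N.good_ex hy))

theorem bch_real {x y z : B} (hx : x ∈ N.g) (hy : y ∈ N.g) (hz : z ∈ N.g) (hxr : N.σ x = x)
    (hyr : N.σ y = y) (h : ex x * ex y = ex z) : N.σ z = z := by
  have := congrArg N.σ h
  rw [map_mul, N.σ_ex (N.g_F hx), N.σ_ex (N.g_F hy), N.σ_ex (N.g_F hz), hxr, hyr, h] at this
  exact (N.ex_inj (N.g_F hz) (N.σ_F (N.g_F hz)) this).symm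

theorem polar {x : B} (hx : x ∈ N.g) : ∃ y ∈ N.g, ∃ z ∈ N.g, N.σ y = y ∧ N.σ z = z ∧
    ex x = ex z * ex (Complex.I • y) ∧ ex (-N.σ x) * ex x = ex ((2 * Complex.I) • y) := by
  have hσ := N.g_σ hx
  obtain ⟨θ, hθ, h1⟩ := N.bch (neg_mem hσ) hx
  have h2 : N.σ θ = -θ := by
    have h3 := congrArg N.σ h1
    rw [map_mul, N.σ_ex (N.g_F (neg_mem hσ)), N.σ_ex (N.g_F hx), N.σ_ex (N.g_F hθ), map_neg,
      N.σσ] at h3
    refine N.ex_inj (N.σ_F (N.g_F hθ)) (neg_mem (N.g_F hθ)) ?_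
    have h4 : ex (N.σ θ) * ex θ = 1 := by
      rw [← h3, ← h1, mul_assoc, ← mul_assoc (ex (N.σ x)), ex_mul_neg (N.g_nilp hσ), one_mul,
        ex_neg_mul (N.g_nilp hx)]
    calc ex (N.σ θ) = ex (N.σ θ) * ex θ * ex (-θ) := by
          rw [mul_assoc, ex_mul_neg (N.g_nilp hθ), mul_one]
      _ = ex (-θ) := by rw [h4, one_mul]
  set y := (2 * Complex.I)⁻¹ • θ with hy
  have hyg : y ∈ N.g := Submodule.smul_mem _ _ hθ
  have hyθ : (2 * Complex.I) • y = θ := by
    rw [hy, smul_smul, mul_inv_cancel₀ (by simp), one_smul]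
  have hyr : N.σ y = y := by
    rw [hy, N.σ_smul, h2]; simp [show (starRingEnd ℂ) 2 = 2 from Complex.conj_ofNat 2]
  have hyn := N.g_nilp hyg
  obtain ⟨z, hz, h5⟩ := N.bch hx (Submodule.smul_mem _ (-Complex.I) hyg)
  have hxx : ex x = ex (N.σ x) * ex ((2 * Complex.I) • y) := by
    rw [hyθ, ← h1, ← mul_assoc, ex_mul_neg (N.g_nilp hσ), one_mul]
  refine ⟨y, hyg, z, hz, hyr, ?_, ?_, by rw [hyθ, h1]⟩
  · have h6 := congrArg N.σ h5
    rw [map_mul, N.σ_ex (N.g_F hx), N.σ_ex (N.g_F (Submodule.smul_mem _ _ hyg)),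
      N.σ_ex (N.g_F hz), N.σ_smul, hyr] at h6
    refine N.ex_inj (N.σ_F (N.g_F hz)) (N.g_F hz) ?_
    rw [← h6, ← h5, hxx, mul_assoc, ← ex_smul_add hyn]
    congr 2
    simp only [map_neg, Complex.conj_I, neg_neg]
    congr 1; ring
  · rw [← h5, mul_assoc, ← ex_smul_add hyn]; simp

section Chow

variable {N}
variable {T : Set B} (hTg : ∀ x ∈ T, x ∈ N.g) (hT0 : (0 : B) ∈ T) (hTn : ∀ x ∈ T, -x ∈ T)
  (hTm : ∀ x ∈ T, ∀ y ∈ T, ∀ z ∈ N.g, ex x * ex y = ex z → z ∈ T)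

include hTg hTm in
theorem W_add {j : ℕ} {c d : B} (hc : c ∈ N.F (j + 1)) (hd : d ∈ N.F (j + 1))
    (h1 : ∃ x ∈ T, x - c ∈ N.F (j + 2)) (h2 : ∃ x ∈ T, x - d ∈ N.F (j + 2)) :
    ∃ x ∈ T, x - (c + d) ∈ N.F (j + 2) := by
  obtain ⟨x, hx, hxc⟩ := h1
  obtain ⟨y, hy, hyd⟩ := h2
  obtain ⟨z, hz, h⟩ := N.bch (hTg x hx) (hTg y hy)
  have hxF : x ∈ N.F (j + 1) := by simpa using add_mem (N.F_anti (Nat.le_succ _) hxc) hc
  have hyF : y ∈ N.F (j + 1) := by simpa using add_mem (N.F_anti (Nat.le_succ _) hyd) hd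
  refine ⟨z, hTm x hx y hy z hz h, ?_⟩
  have := add_mem (add_mem (N.bch_lead hxF hyF (N.g_F hz) h) hxc) hyd
  have e : z - (x + y) + (x - c) + (y - d) = z - (c + d) := by abel
  rwa [e] at this

include hTn in
theorem W_neg {j : ℕ} {c : B} (h1 : ∃ x ∈ T, x - c ∈ N.F j) : ∃ x ∈ T, x - (-c) ∈ N.F j := by
  obtain ⟨x, hx, hxc⟩ := h1
  refine ⟨-x, hTn x hx, ?_⟩
  have := neg_mem hxc
  have e : -(x - c) = -x - -c := by abel
  rwa [e] at this

include hTg hTn hTm in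
theorem W_br {j : ℕ} {c d : B} (hc : c ∈ N.F 1) (hd : d ∈ N.F (j + 1))
    (h1 : ∃ x ∈ T, x - c ∈ N.F 2) (h2 : ∃ x ∈ T, x - d ∈ N.F (j + 2)) :
    ∃ x ∈ T, x - (c * d - d * c) ∈ N.F (j + 1 + 2) := by
  obtain ⟨x, hx, hxc⟩ := h1
  obtain ⟨y, hy, hyd⟩ := h2
  have hxF : x ∈ N.F (0 + 1) := by simpa using add_mem (N.F_anti (Nat.le_succ _) hxc) hc
  have hyF : y ∈ N.F (j + 1) := by simpa using add_mem (N.F_anti (Nat.le_succ _) hyd) hd
  obtain ⟨z1, hz1, e1⟩ := N.bch (hTg x hx) (hTg y hy)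
  have t1 := hTm x hx y hy z1 hz1 e1
  obtain ⟨z2, hz2, e2⟩ := N.bch hz1 (hTg _ (hTn x hx))
  have t2 := hTm _ t1 _ (hTn x hx) z2 hz2 e2
  obtain ⟨z3, hz3, e3⟩ := N.bch hz2 (hTg _ (hTn y hy))
  have t3 := hTm _ t2 _ (hTn y hy) z3 hz3 e3
  refine ⟨z3, t3, ?_⟩
  have h := N.comm_lead hxF hyF (N.g_F hz3) (by rw [e1, e2, e3])
  have e : z3 - (c * d - d * c) = z3 - (x * y - y * x) +
      ((x - c) * y + c * (y - d) - ((y - d) * x + d * (x - c))) := by noncomm_ring
  rw [e]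
  refine add_mem (N.F_anti (by omega) h) (sub_mem (add_mem ?_ ?_) (add_mem ?_ ?_))
  · exact N.mul_le hxc hyF (by omega)
  · exact N.mul_le hc hyd (by omega)
  · exact N.mul_le hyd hxF (by omega)
  · exact N.mul_le hd hxc (by omega)

include hTg hT0 hTn hTm in
theorem chow_final {A : Set B}
    (hA : ∀ x ∈ T, ∀ y ∈ N.g, y ∈ A → ∀ z ∈ N.g, ex x * ex y = ex z → z ∈ A)
    (hlead : ∀ j, ∀ y ∈ N.g, y ∈ A → y ∈ N.F (j + 1) → ∃ x ∈ T, x - y ∈ N.F (j + 2)) :
    ∀ y ∈ N.g, y ∈ A → y ∈ T := by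
  have key : ∀ m j, j + m = N.K → ∀ y ∈ N.g, y ∈ A → y ∈ N.F (j + 1) → y ∈ T := by
    intro m
    induction m with
    | zero =>
      intro j hj y _ _ hy
      have : y = 0 := N.F_K (N.F_anti (by omega) hy)
      rw [this]; exact hT0
    | succ m ih =>
      intro j hj y hy hyA hyF
      obtain ⟨x, hx, hxy⟩ := hlead j y hy hyA hyF
      have hxF : x ∈ N.F (j + 1) := by simpa using add_mem (N.F_anti (Nat.le_succ _) hxy) hyF
      obtain ⟨z, hz, h⟩ := N.bch (hTg _ (hTn x hx)) hy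
      have hzF : z ∈ N.F (j + 1 + 1) := by
        have := sub_mem (N.bch_lead (neg_mem hxF) hyF (N.g_F hz) h) hxy
        have e : z - (-x + y) - (x - y) = z := by abel
        rwa [e] at this
      have hzT := ih (j + 1) (by omega) z hz (hA _ (hTn x hx) y hy hyA z hz h) hzF
      refine hTm x hx z hzT y hy ?_
      rw [← h, ← mul_assoc, ex_mul_neg (N.g_nilp (hTg x hx)), one_mul]
  exact fun y hy hyA => key N.K 0 (by simp) y hy hyA (N.g_F hy)

include hTg hT0 hTn hTm in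
theorem chow_complex (h1 : ∀ s : ℂ, s • N.a ∈ T) (h2 : ∀ s : ℂ, s • N.σ N.a ∈ T) :
    ∀ y ∈ N.g, y ∈ T := by
  have hone : ∀ c ∈ N.gr 1, ∃ x ∈ T, x - c ∈ N.F 2 := by
    intro c hc
    obtain ⟨s, t, rfl⟩ := N.mem_gr_one.1 hc
    exact W_add hTg hTm (j := 0) (Submodule.smul_mem _ _ N.a_F)
      (Submodule.smul_mem _ _ (N.σ_F N.a_F)) ⟨_, h1 s, by simp⟩ ⟨_, h2 t, by simp⟩
  have hall : ∀ j, ∀ c ∈ N.gr (j + 1), ∃ x ∈ T, x - c ∈ N.F (j + 2) := by
    intro j
    induction j with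
    | zero => exact hone
    | succ j ih =>
      have : ∀ c ∈ N.gr (j + 2), c ∈ N.F (j + 2) ∧
          ∀ s : ℂ, ∃ x ∈ T, x - s • c ∈ N.F (j + 1 + 2) := by
        refine N.gr_induction ⟨zero_mem _, fun s => ⟨0, hT0, by simp⟩⟩ ?_ ?_ ?_
        · rintro x y ⟨a1, a2⟩ ⟨b1, b2⟩
          refine ⟨add_mem a1 b1, fun s => ?_⟩
          rw [smul_add]
          exact W_add hTg hTm (Submodule.smul_mem _ _ a1) (Submodule.smul_mem _ _ b1) (a2 s) (b2 s)
        · rintro c x ⟨a1, a2⟩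
          exact ⟨Submodule.smul_mem _ _ a1, fun s => by rw [smul_smul]; exact a2 _⟩
        · intro x hx c hc
          refine ⟨N.gr_F (N.br_mem_succ hx hc), fun s => ?_⟩
          have hsx : s • x ∈ N.gr 1 := Submodule.smul_mem _ _ hx
          have := W_br hTg hTn hTm (N.gr_F hsx) (N.gr_F hc) (hone _ hsx) (ih c hc)
          rwa [smul_mul_assoc, mul_smul_comm, ← smul_sub] at this
      intro c hc
      simpa using (this c hc).2 1
  intro y hy
  refine chow_final hTg hT0 hTn hTm (A := Set.univ) (fun _ _ _ _ _ _ _ _ => trivial) ?_ y hy trivial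
  intro j y hy _ hyF
  obtain ⟨c, hc, h⟩ := N.g_lead hy hyF
  obtain ⟨x, hx, h'⟩ := hall j c hc
  refine ⟨x, hx, ?_⟩
  have := sub_mem h' h
  have e : x - c - (y - c) = x - y := by abel
  rwa [e] at this

include hTg hT0 hTn hTm in
theorem chow_real (hTr : ∀ x ∈ T, N.σ x = x)
    (h1 : ∀ s : ℂ, ∃ x ∈ T, x - (s • N.a + (starRingEnd ℂ s) • N.σ N.a) ∈ N.F 2) :
    ∀ y ∈ N.g, N.σ y = y → y ∈ T := by
  have hone : ∀ c ∈ N.gr 1, ∃ x ∈ T, x - (c + N.σ c) ∈ N.F 2 := by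
    intro c hc
    obtain ⟨s, t, rfl⟩ := N.mem_gr_one.1 hc
    obtain ⟨x, hx, h⟩ := h1 (s + starRingEnd ℂ t)
    refine ⟨x, hx, ?_⟩
    have e : s • N.a + t • N.σ N.a + N.σ (s • N.a + t • N.σ N.a) =
        (s + starRingEnd ℂ t) • N.a + (starRingEnd ℂ (s + starRingEnd ℂ t)) • N.σ N.a := by
      rw [map_add, N.σ_smul, N.σ_smul, N.σσ, map_add, Complex.conj_conj, add_smul, add_smul]
      abel
    rwa [e]
  have hall : ∀ j, ∀ c ∈ N.gr (j + 1), ∃ x ∈ T, x - (c + N.σ c) ∈ N.F (j + 2) := by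
    intro j
    induction j with
    | zero => exact hone
    | succ j ih =>
      have : ∀ c ∈ N.gr (j + 2), c ∈ N.F (j + 2) ∧
          ∀ s : ℂ, ∃ x ∈ T, x - (s • c + N.σ (s • c)) ∈ N.F (j + 1 + 2) := by
        refine N.gr_induction ⟨zero_mem _, fun s => ⟨0, hT0, by simp⟩⟩ ?_ ?_ ?_
        · rintro x y ⟨a1, a2⟩ ⟨b1, b2⟩
          refine ⟨add_mem a1 b1, fun s => ?_⟩
          have hx : s • x ∈ N.F (j + 2) := Submodule.smul_mem _ _ a1
          have hy : s • y ∈ N.F (j + 2) := Submodule.smul_mem _ _ b1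
          have := W_add hTg hTm (add_mem hx (N.σ_F hx)) (add_mem hy (N.σ_F hy)) (a2 s) (b2 s)
          rwa [add_add_add_comm, ← map_add, ← smul_add] at this
        · rintro c x ⟨a1, a2⟩
          exact ⟨Submodule.smul_mem _ _ a1, fun s => by rw [smul_smul]; exact a2 _⟩
        · intro x hx c hc
          refine ⟨N.gr_F (N.br_mem_succ hx hc), fun s => ?_⟩
          set u := (s / 2) • x with hu
          have hug : u ∈ N.gr 1 := Submodule.smul_mem _ _ hx
          have hIu : Complex.I • u ∈ N.gr 1 := Submodule.smul_mem _ _ hug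
          have hIc : Complex.I • c ∈ N.gr (j + 1) := Submodule.smul_mem _ _ hc
          have r1 : ∀ {i v}, v ∈ N.gr i → v + N.σ v ∈ N.F i := fun hv =>
            add_mem (N.gr_F hv) (N.σ_F (N.gr_F hv))
          have b1 := W_br hTg hTn hTm (r1 hug) (r1 hc) (hone _ hug) (ih c hc)
          have b2 := W_neg hTn (W_br hTg hTn hTm (r1 hIu) (r1 hIc) (hone _ hIu) (ih _ hIc))
          have f1 : ∀ {v w}, v ∈ N.F 1 → w ∈ N.F (j + 1) → v * w - w * v ∈ N.F (j + 1 + 1) :=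
            fun hv hw => sub_mem (N.mul_le hv hw (by omega)) (N.mul_le hw hv (by omega))
          have := W_add hTg hTm (f1 (r1 hug) (r1 hc)) (neg_mem (f1 (r1 hIu) (r1 hIc))) b1 b2
          have hs : s • (x * c - c * x) = (2 : ℂ) • (u * c - c * u) := by
            rw [hu, smul_mul_assoc, mul_smul_comm, ← smul_sub, smul_smul]
            congr 1; ring
          have e : (u + N.σ u) * (c + N.σ c) - (c + N.σ c) * (u + N.σ u) +
              -((Complex.I • u + N.σ (Complex.I • u)) * (Complex.I • c + N.σ (Complex.I • c)) -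
                (Complex.I • c + N.σ (Complex.I • c)) * (Complex.I • u + N.σ (Complex.I • u))) =
              s • (x * c - c * x) + N.σ (s • (x * c - c * x)) := by
            have i1 : ∀ v : B, Complex.I • v + N.σ (Complex.I • v) = Complex.I • (v - N.σ v) := by
              intro v; rw [N.σ_smul, Complex.conj_I, neg_smul, smul_sub, sub_eq_add_neg]
            have i2 : ∀ v w : B, Complex.I • v * Complex.I • w = -(v * w) := by
              intro v w
              rw [smul_mul_smul_comm, Complex.I_mul_I, neg_one_smul]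
            rw [hs, i1, i1, i2, i2, two_smul, map_add, map_sub, map_mul, map_mul]
            noncomm_ring
          rwa [e] at this
      intro c hc
      simpa using (this c hc).2 1
  refine chow_final hTg hT0 hTn hTm (A := {y | N.σ y = y}) ?_ ?_
  · intro x hx y hy hyA z hz h
    exact N.bch_real (hTg x hx) hy hz (hTr x hx) hyA h
  · intro j y hy hyA hyF
    obtain ⟨c, hc, h⟩ := N.g_lead hy hyF
    obtain ⟨x, hx, h'⟩ := hall j _ (Submodule.smul_mem _ (2 : ℂ)⁻¹ hc)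
    refine ⟨x, hx, ?_⟩
    have h2 := N.σ_F h
    rw [map_sub, (hyA : N.σ y = y)] at h2
    have := sub_mem h' (Submodule.smul_mem _ (2 : ℂ)⁻¹ (add_mem h h2))
    have e : x - ((2 : ℂ)⁻¹ • c + N.σ ((2 : ℂ)⁻¹ • c)) - (2 : ℂ)⁻¹ • (y - c + (y - N.σ c)) =
        x - y := by
      rw [N.σ_smul, map_inv₀, show (starRingEnd ℂ) 2 = 2 from Complex.conj_ofNat 2]
      module
    rwa [e] at this

end Chow

end Nil

end Pool.Agent.P.MP_1b6414_an
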