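import Mathlib

/-! An abstract ring of germs: order of vanishing, vector fields, Taylor approximation. -/

namespace Pool.Agent.P.MP_1b6414_an

open Finset

section Van

variable {O : Type*} [CommRing O] [Algebra ℂ O] {τ : Type*}

/-- Vanishing to order `m` along a family of derivations. -/
def Van (ev : O →ₐ[ℂ] ℂ) (d : τ → Derivation ℂ O O) : ℕ → O → Prop
  | 0, _ => True
  | (m + 1), f => ev f = 0 ∧ ∀ i, Van ev d m (d i f)

variable {ev : O →ₐ[ℂ] ℂ} {d : τ → Derivation ℂ O O}

theorem Van.succ : ∀ {m : ℕ} {f : O}, Van ev d (m + 1) f → Van ev d m f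
  | 0, _, _ => trivial
  | (_ + 1), _, h => ⟨h.1, fun i => Van.succ (h.2 i)⟩

theorem Van.zero : ∀ m : ℕ, Van ev d m 0
  | 0 => trivial
  | (m + 1) => ⟨map_zero _, fun i => by rw [map_zero]; exact Van.zero m⟩

theorem Van.add : ∀ {m : ℕ} {f g : O}, Van ev d m f → Van ev d m g → Van ev d m (f + g)
  | 0, _, _, _, _ => trivial
  | (_ + 1), _, _, h, h' => ⟨by rw [map_add, h.1, h'.1, add_zero], fun i => by
      rw [map_add]; exact Van.add (h.2 i) (h'.2 i)⟩

theorem Van.mul_aux : ∀ (n a b : ℕ) {f g : O}, a + b = n → Van ev d a f → Van ev d b g →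
    Van ev d n (f * g)
  | 0, _, _, _, _, _, _, _ => trivial
  | (n + 1), a, b, f, g, hn, hf, hg => by
    refine ⟨?_, fun i => ?_⟩
    · rw [map_mul]
      rcases a with _ | a
      · rcases b with _ | b
        · omega
        · rw [hg.1, mul_zero]
      · rw [hf.1, zero_mul]
    · rw [Derivation.leibniz, smul_eq_mul, smul_eq_mul]
      refine Van.add ?_ ?_
      · rcases b with _ | b
        · obtain rfl : a = n + 1 := by omega
          exact Van.mul_aux n n 0 rfl hf.succ trivial
        · exact Van.mul_aux n a b (by omega) hf (hg.2 i)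
      · rcases a with _ | a
        · obtain rfl : b = n + 1 := by omega
          exact Van.mul_aux n n 0 rfl hg.succ trivial
        · exact Van.mul_aux n b a (by omega) hg (hf.2 i)

/-- The ideal of functions vanishing to order `m`. -/
def vanI (ev : O →ₐ[ℂ] ℂ) (d : τ → Derivation ℂ O O) (m : ℕ) : Ideal O where
  carrier := {f | Van ev d m f}
  add_mem' := Van.add
  zero_mem' := Van.zero m
  smul_mem' := fun c _ hf => Van.mul_aux m 0 m (zero_add m) (f := c) trivial hf

theorem vanI_zero (f : O) : f ∈ vanI ev d 0 := trivial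

theorem mem_vanI_succ {m : ℕ} {f : O} :
    f ∈ vanI ev d (m + 1) ↔ ev f = 0 ∧ ∀ i, d i f ∈ vanI ev d m := Iff.rfl

theorem mem_vanI_one {f : O} : f ∈ vanI ev d 1 ↔ ev f = 0 := ⟨fun h => h.1, fun h => ⟨h, fun _ => trivial⟩⟩

theorem vanI_anti {a b : ℕ} {f : O} (h : a ≤ b) (hf : f ∈ vanI ev d b) : f ∈ vanI ev d a := by
  induction h with
  | refl => exact hf
  | step _ ih => exact ih (Van.succ hf)

theorem vanI_mul {a b m : ℕ} {f g : O} (hf : f ∈ vanI ev d a) (hg : g ∈ vanI ev d b)
    (h : m ≤ a + b) : f * g ∈ vanI ev d m := vanI_anti h (Van.mul_aux _ a b rfl hf hg)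

theorem vanI_ev {m : ℕ} {f : O} (hf : f ∈ vanI ev d (m + 1)) : ev f = 0 := hf.1

theorem vanI_smul {m : ℕ} {f : O} (c : ℂ) (hf : f ∈ vanI ev d m) : c • f ∈ vanI ev d m := by
  rw [Algebra.smul_def]; exact Ideal.mul_mem_left _ _ hf

theorem vanI_pow {f : O} (hf : f ∈ vanI ev d 1) (m : ℕ) : f ^ m ∈ vanI ev d m := by
  induction m with
  | zero => trivial
  | succ m ih => rw [pow_succ]; exact vanI_mul ih hf le_rfl

/-- Iterated application of derivations along a word. -/
def wordD (d : τ → Derivation ℂ O O) (w : List τ) (f : O) : O := w.foldr (fun c g => d c g) f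

theorem mem_vanI_iff {m : ℕ} {f : O} :
    f ∈ vanI ev d m ↔ ∀ w : List τ, w.length < m → ev (wordD d w f) = 0 := by
  induction m generalizing f with
  | zero => simp [vanI_zero]
  | succ m ih =>
    rw [mem_vanI_succ]
    constructor
    · rintro ⟨h0, h1⟩ w hw
      rcases List.eq_nil_or_concat w with rfl | ⟨w', c, rfl⟩
      · exact h0
      · have := ih.1 (h1 c) w' (by simpa using hw)
        simpa [wordD] using this
    · intro h
      refine ⟨h [] (by simp), fun i => ih.2 fun w hw => ?_⟩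
      have := h (w ++ [i]) (by simpa using hw)
      simpa [wordD] using this

theorem vanI_star [StarRing O] (hev : ∀ f, ev (star f) = star (ev f))
    (hd : ∀ i, ∃ j, ∀ f, d i (star f) = star (d j f)) {m : ℕ} {f : O} (hf : f ∈ vanI ev d m) :
    star f ∈ vanI ev d m := by
  induction m generalizing f with
  | zero => trivial
  | succ m ih =>
    refine ⟨by rw [hev, hf.1, star_zero], fun i => ?_⟩
    obtain ⟨j, hj⟩ := hd i
    rw [hj]; exact ih (hf.2 j)

theorem vanI_unit {m : ℕ} {u f : O} (hu : IsUnit u) : u * f ∈ vanI ev d m ↔ f ∈ vanI ev d m :=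
  Ideal.unit_mul_mem_iff_mem _ hu

theorem derivation_aeval {S : Type*} [CommRing S] [Algebra ℂ S] {ι : Type*} [Fintype ι]
    [DecidableEq ι] (D : Derivation ℂ S S) (s : ι → S) (P : MvPolynomial ι ℂ) :
    D (MvPolynomial.aeval s P) =
      ∑ α, MvPolynomial.aeval s (MvPolynomial.pderiv α P) * D (s α) := by
  induction P using MvPolynomial.induction_on with
  | C a => simp
  | add p q hp hq => simp [hp, hq, add_mul, sum_add_distrib]
  | mul_X p i hp =>
    rw [map_mul, MvPolynomial.aeval_X, Derivation.leibniz, hp]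
    simp only [Derivation.leibniz, smul_eq_mul, map_add, map_mul, MvPolynomial.aeval_X, add_mul,
      sum_add_distrib, MvPolynomial.pderiv_X, mul_sum]
    congr 1
    · rw [sum_eq_single i (by intro b _ hb; simp [Pi.single_eq_of_ne' hb]) (by simp)]; simp
    · exact sum_congr rfl fun α _ => by ring

end Van

/-- An abstract ring of smooth germs at a point of `ℝ^N`. -/
structure Jet (N : ℕ) (O : Type*) [CommRing O] [Algebra ℂ O] [StarRing O] where
  ev : O →ₐ[ℂ] ℂ
  ev_star : ∀ f, ev (star f) = star (ev f)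
  pd : Fin N → Derivation ℂ O O
  pd_comm : ∀ i j f, pd i (pd j f) = pd j (pd i f)
  pd_star : ∀ i f, pd i (star f) = star (pd i f)
  x : Fin N → O
  pd_x : ∀ i j, pd i (x j) = if i = j then 1 else 0
  ev_x : ∀ i, ev (x i) = 0
  star_x : ∀ i, star (x i) = x i
  unit : ∀ f, ev f ≠ 0 → IsUnit f

namespace Jet

variable {N : ℕ} {O : Type*} [CommRing O] [Algebra ℂ O] [StarRing O] (J : Jet N O)

/-- Functions vanishing to order `m` at the base point. -/
abbrev I (m : ℕ) : Ideal O := vanI J.ev J.pd m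

/-- The derivation given by a vector field. -/
noncomputable def D (V : Fin N → O) : Derivation ℂ O O := ∑ i, V i • J.pd i

theorem D_apply (V : Fin N → O) (f : O) : J.D V f = ∑ i, V i * J.pd i f := by
  have := congrFun (map_sum (Derivation.coeFnAddMonoidHom (R := ℂ) (A := O) (M := O))
    (fun i => V i • J.pd i) univ) f
  rw [Finset.sum_apply] at this
  exact this

theorem D_add (V W : Fin N → O) (f : O) : J.D (V + W) f = J.D V f + J.D W f := by
  simp [D_apply, add_mul, sum_add_distrib]

theorem D_smul (c : O) (V : Fin N → O) (f : O) : J.D (c • V) f = c * J.D V f := by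
  simp [D_apply, mul_sum, mul_assoc]

theorem D_zero (f : O) : J.D 0 f = 0 := by simp [D_apply]

/-- Evaluation of a vector field on a fixed function, as a linear map. -/
noncomputable def Dl (f : O) : (Fin N → O) →ₗ[O] O where
  toFun V := J.D V f
  map_add' V W := J.D_add V W f
  map_smul' c V := J.D_smul c V f

theorem D_sum {ι : Type*} (s : Finset ι) (V : ι → Fin N → O) (f : O) :
    J.D (∑ k ∈ s, V k) f = ∑ k ∈ s, J.D (V k) f := map_sum (J.Dl f) V s

theorem D_x (V : Fin N → O) (j : Fin N) : J.D V (J.x j) = V j := by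
  simp [D_apply, J.pd_x]

/-- Bracket of vector fields. -/
noncomputable def br (V W : Fin N → O) : Fin N → O := fun i => J.D V (W i) - J.D W (V i)

theorem D_br (V W : Fin N → O) (f : O) :
    J.D (J.br V W) f = J.D V (J.D W f) - J.D W (J.D V f) := by
  have key : ∀ V W : Fin N → O, J.D V (J.D W f) =
      ∑ j, J.D V (W j) * J.pd j f + ∑ j, ∑ i, W j * V i * J.pd i (J.pd j f) := by
    intro V W
    rw [J.D_apply W, map_sum, ← sum_add_distrib]
    refine sum_congr rfl fun j _ => ?_
    rw [Derivation.leibniz, smul_eq_mul, smul_eq_mul, J.D_apply V (J.pd j f), mul_sum, add_comm,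
      mul_comm (J.pd j f)]
    simp only [mul_assoc]
  rw [key V W, key W V, J.D_apply (J.br V W), sum_comm (f := fun j i => V j * W i * _)]
  simp only [br, sub_mul, sum_sub_distrib]
  have : ∑ j, ∑ i, W j * V i * J.pd i (J.pd j f) = ∑ j, ∑ i, V i * W j * J.pd j (J.pd i f) :=
    sum_congr rfl fun j _ => sum_congr rfl fun i _ => by rw [J.pd_comm, mul_comm (W j)]
  rw [this]; ring

theorem D_star (V : Fin N → O) (f : O) : J.D (star V) (star f) = star (J.D V f) := by
  simp [D_apply, J.pd_star, star_sum]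

theorem star_br (V W : Fin N → O) : star (J.br V W) = J.br (star V) (star W) := by
  funext i
  simp only [br, Pi.star_apply, star_sub, J.D_star]

theorem D_I {m : ℕ} {f : O} (V : Fin N → O) (hf : f ∈ J.I (m + 1)) : J.D V f ∈ J.I m := by
  rw [D_apply]
  exact Ideal.sum_mem _ fun i _ => Ideal.mul_mem_left _ _ (hf.2 i)

theorem star_I {m : ℕ} {f : O} (hf : f ∈ J.I m) : star f ∈ J.I m :=
  vanI_star J.ev_star (fun i => ⟨i, J.pd_star i⟩) hf

theorem I_le_van {τ : Type*} (V : τ → Fin N → O) {m : ℕ} {f : O} (hf : f ∈ J.I m) :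
    f ∈ vanI J.ev (fun i => J.D (V i)) m := by
  induction m generalizing f with
  | zero => trivial
  | succ m ih => exact ⟨hf.1, fun i => ih (J.D_I _ hf)⟩

theorem x_I (i : Fin N) : J.x i ∈ J.I 1 := mem_vanI_one.2 (J.ev_x i)

theorem euler {j : ℕ} {f : O} (hf : f ∈ J.I j) : J.D J.x f - (j : ℂ) • f ∈ J.I (j + 1) := by
  have hpd : ∀ i f, J.pd i (J.D J.x f) = J.pd i f + J.D J.x (J.pd i f) := by
    intro i f
    rw [D_apply, D_apply, map_sum]
    simp only [Derivation.leibniz, smul_eq_mul, J.pd_x, sum_add_distrib, mul_ite, mul_one,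
      mul_zero, sum_ite_eq, mem_univ, if_true]
    rw [add_comm]
    congr 1
    exact sum_congr rfl fun k _ => by rw [J.pd_comm]
  have hev : ∀ f, J.ev (J.D J.x f) = 0 := by
    intro f; simp [D_apply, J.ev_x]
  induction j generalizing f with
  | zero => simpa using mem_vanI_one.2 (hev f)
  | succ j ih =>
    refine ⟨by rw [map_sub, hev, map_smul, hf.1]; simp, fun i => ?_⟩
    have := ih (hf.2 i)
    rw [map_sub, hpd, Derivation.map_smul]
    have e : J.pd i f + J.D J.x (J.pd i f) - ((j + 1 : ℕ) : ℂ) • J.pd i f =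
        J.D J.x (J.pd i f) - (j : ℂ) • J.pd i f := by
      push_cast; rw [add_smul, one_smul]; abel
    rw [e]; exact this

theorem taylor (A : Subalgebra ℂ O) (hA : ∀ i, ∃ l ∈ A, J.x i - l ∈ J.I 2) (K : ℕ) (f : O) :
    ∃ a ∈ A, f - a ∈ J.I K := by
  choose l hlA hl using hA
  have step : ∀ j, ∀ f ∈ J.I j, ∃ a ∈ A, f - a ∈ J.I (j + 1) := by
    intro j
    induction j with
    | zero =>
      intro f _
      exact ⟨algebraMap ℂ O (J.ev f), A.algebraMap_mem _, mem_vanI_one.2 (by simp)⟩
    | succ j ih =>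
      intro f hf
      choose a haA ha using fun i => ih (J.pd i f) (hf.2 i)
      have hj : ((j + 1 : ℕ) : ℂ) ≠ 0 := by exact_mod_cast Nat.succ_ne_zero j
      refine ⟨((j + 1 : ℕ) : ℂ)⁻¹ • ∑ i, l i * a i,
        A.smul_mem (A.sum_mem fun i _ => A.mul_mem (hlA i) (haA i)) _, ?_⟩
      have h1 : J.D J.x f - ∑ i, l i * a i ∈ J.I (j + 1 + 1) := by
        rw [D_apply, ← sum_sub_distrib]
        refine Ideal.sum_mem _ fun i _ => ?_
        have haI : a i ∈ J.I j := by
          have := sub_mem (hf.2 i : J.pd i f ∈ J.I j) (vanI_anti (Nat.le_succ j) (ha i))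
          simpa using this
        have e : J.x i * J.pd i f - l i * a i = J.x i * (J.pd i f - a i) + (J.x i - l i) * a i := by
          ring
        rw [e]
        exact add_mem (vanI_mul (J.x_I i) (ha i) (by omega)) (vanI_mul (hl i) haI (by omega))
      have h2 := vanI_smul ((j + 1 : ℕ) : ℂ)⁻¹ (sub_mem h1 (J.euler hf))
      have e : ((j + 1 : ℕ) : ℂ)⁻¹ • (J.D J.x f - ∑ i, l i * a i -
          (J.D J.x f - ((j + 1 : ℕ) : ℂ) • f)) = f - ((j + 1 : ℕ) : ℂ)⁻¹ • ∑ i, l i * a i := by
        rw [sub_sub_sub_cancel_left, smul_sub, smul_smul, inv_mul_cancel₀ hj, one_smul]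
      rwa [e] at h2
  induction K with
  | zero => exact ⟨0, A.zero_mem, trivial⟩
  | succ K ih =>
    obtain ⟨a, ha, h⟩ := ih
    obtain ⟨b, hb, h'⟩ := step K _ h
    exact ⟨a + b, A.add_mem ha hb, by rwa [← sub_sub]⟩

theorem matrix_unit {κ : Type*} [Fintype κ] [DecidableEq κ] (M : Matrix κ κ O)
    (h : IsUnit (M.map J.ev)) : ∃ C : Matrix κ κ O, C * M = 1 ∧ M * C = 1 := by
  have h1 : J.ev M.det ≠ 0 := by
    have := (Matrix.isUnit_iff_isUnit_det _).1 h
    rw [AlgHom.map_det]
    exact this.ne_zero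
  obtain ⟨u, hu⟩ := (Matrix.isUnit_iff_isUnit_det M).2 (J.unit _ h1)
  exact ⟨u.inv, hu ▸ u.inv_val, hu ▸ u.val_inv⟩

theorem br_span {τ : Type*} (Z : τ → Fin N → O)
    (h : ∀ j k, J.br (Z j) (Z k) ∈ Submodule.span O (Set.range Z)) {V W : Fin N → O}
    (hV : V ∈ Submodule.span O (Set.range Z)) (hW : W ∈ Submodule.span O (Set.range Z)) :
    J.br V W ∈ Submodule.span O (Set.range Z) := by
  have add_l : ∀ U V W, J.br (U + V) W = J.br U W + J.br V W := by
    intro U V W; funext i; simp only [br, Pi.add_apply, D_add, map_add]; ring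
  have smul_l : ∀ (c : O) V W, J.br (c • V) W = c • J.br V W - J.D W c • V := by
    intro c V W; funext i
    simp only [br, Pi.smul_apply, Pi.sub_apply, D_smul, smul_eq_mul, Derivation.leibniz]; ring
  have swap : ∀ V W, J.br V W = -J.br W V := by
    intro V W; funext i; simp [br]
  have key : ∀ W, (∀ j, J.br (Z j) W ∈ Submodule.span O (Set.range Z)) →
      ∀ V ∈ Submodule.span O (Set.range Z), J.br V W ∈ Submodule.span O (Set.range Z) := by
    intro W hW V hV
    induction hV using Submodule.span_induction with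
    | mem _ hx => obtain ⟨j, rfl⟩ := hx; exact hW j
    | zero =>
      have : J.br 0 W = 0 := by funext i; simp [br, D_zero]
      rw [this]; exact zero_mem _
    | add x y _ _ hx hy => rw [add_l]; exact add_mem hx hy
    | smul c x hx' hx =>
      rw [smul_l]; exact sub_mem (Submodule.smul_mem _ _ hx) (Submodule.smul_mem _ _ hx')
  refine key W (fun j => ?_) V hV
  rw [swap]
  exact neg_mem (key (Z j) (fun k => h k j) W hW)

theorem proj_step {K : ℕ} (W : Derivation ℂ O O) (y : O) (hWy : W y = 1) (hy : y ∈ J.I 1)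
    (hW : ∀ m f, f ∈ J.I (m + 1) → W f ∈ J.I m) (f : O) (hf : W f ∈ J.I 1) :
    ∃ g, g - f ∈ J.I 2 ∧ W g ∈ J.I K ∧ ∀ W' : Derivation ℂ O O, W' y = 0 →
      (∀ h, W' (W h) = W (W' h)) → W' f ∈ J.I K → W' g ∈ J.I K := by
  let P : ℕ → O → O := fun K f =>
    ∑ m ∈ range (K + 1), ((m.factorial : ℂ)⁻¹) • ((-y) ^ m * W^[m] f)
  have hit : ∀ m k f, f ∈ J.I k → (-y) ^ m * W^[m] f ∈ J.I k := by
    intro m
    have : ∀ k f, f ∈ J.I k → W^[m] f ∈ J.I (k - m) := by
      induction m with
      | zero => intro k f h; exact h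
      | succ m ih =>
        intro k f h
        rw [Function.iterate_succ_apply']
        rcases Nat.eq_zero_or_pos (k - m) with h0 | h0
        · rw [show k - (m + 1) = 0 by omega]; trivial
        · exact hW _ _ (by rw [show k - (m + 1) + 1 = k - m by omega]; exact ih k f h)
    intro k f h
    exact vanI_mul (vanI_pow (neg_mem hy) m) (this k f h) (by omega)
  have htel : ∀ K, W (P K f) = ((K.factorial : ℂ)⁻¹) • ((-y) ^ K * W^[K + 1] f) := by
    intro K
    induction K with
    | zero => simp [P]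
    | succ K ih =>
      have e : P (K + 1) f = P K f +
          (((K + 1).factorial : ℂ)⁻¹) • ((-y) ^ (K + 1) * W^[K + 1] f) := sum_range_succ _ _
      rw [e, map_add, ih, Derivation.map_smul, Derivation.leibniz, Derivation.leibniz_pow, map_neg,
        hWy, ← Function.iterate_succ_apply' W (K + 1) f, Nat.factorial_succ]
      have h1 : ((K : ℂ) + 1) ≠ 0 := by exact_mod_cast Nat.succ_ne_zero K
      have h2 : (K.factorial : ℂ) ≠ 0 := by exact_mod_cast Nat.factorial_ne_zero K
      have e2 : (W^[K + 1] f) • (K + 1) • (-y) ^ (K + 1 - 1) • (-1 : O) =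
          (-((K : ℂ) + 1)) • ((-y) ^ K * W^[K + 1] f) := by
        rw [Algebra.smul_def (-((K : ℂ) + 1))]
        simp only [smul_eq_mul, nsmul_eq_mul, Nat.add_sub_cancel, map_neg, map_add, map_natCast,
          map_one]
        push_cast; ring
      rw [e2, smul_add, smul_smul, smul_eq_mul, Nat.succ_eq_add_one]
      have e3 : ((((K + 1) * K.factorial : ℕ) : ℂ)⁻¹ * -((K : ℂ) + 1)) = -(K.factorial : ℂ)⁻¹ := by
        push_cast; field_simp
      rw [e3, neg_smul]; abel
  refine ⟨P (K + 1) f, ?_, ?_, fun W' h1 h2 h3 => ?_⟩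
  · have e : P (K + 1) f - f = ∑ m ∈ range K, (((m + 1 + 1).factorial : ℂ)⁻¹) •
        ((-y) ^ (m + 1 + 1) * W^[m + 1 + 1] f) + (-y) * W f := by
      simp only [P]
      rw [sum_range_succ', sum_range_succ']; simp
    rw [e]
    refine add_mem (Ideal.sum_mem _ fun m _ => vanI_smul _ ?_) (vanI_mul (neg_mem hy) hf le_rfl)
    exact vanI_mul (vanI_pow (neg_mem hy) _) (vanI_zero _) (by omega)
  · rw [htel]
    exact vanI_smul _ (vanI_mul (vanI_pow (neg_mem hy) _) (vanI_zero _) (by omega))
  · simp only [P, map_sum]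
    refine Ideal.sum_mem _ fun m _ => ?_
    have hc : W' (W^[m] f) = W^[m] (W' f) := Function.Commute.iterate_right h2 m f
    rw [Derivation.map_smul, Derivation.leibniz, Derivation.leibniz_pow, map_neg, h1, hc]
    simp only [neg_zero, smul_zero, add_zero, smul_eq_mul, mul_zero]
    exact vanI_smul _ (hit m K _ h3)

theorem cr_approx {n : ℕ} (Z : Fin n → Fin N → O)
    (h : ∀ j k, J.br (Z j) (Z k) ∈ Submodule.span O (Set.range Z)) (y : Fin n → O)
    (hy : ∀ k, y k ∈ J.I 1) (hZy : ∀ j k, J.ev (J.D (Z j) (y k)) = if j = k then 1 else 0)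
    (K : ℕ) (f : O) (hf : ∀ j, J.D (Z j) f ∈ J.I 1) :
    ∃ g, g - f ∈ J.I 2 ∧ ∀ j, J.D (Z j) g ∈ J.I K := by
  obtain ⟨C, hC, hC'⟩ := J.matrix_unit (Matrix.of fun j k => J.D (Z j) (y k)) (by
    have : (Matrix.of fun j k => J.D (Z j) (y k)).map J.ev = 1 := by
      ext j k; simp [hZy, Matrix.one_apply]
    rw [this]; exact isUnit_one)
  let W : Fin n → Fin N → O := fun j => ∑ k, C j k • Z k
  have hWD : ∀ j f, J.D (W j) f = ∑ k, C j k * J.D (Z k) f := by
    intro j f; simp only [W, D_sum, D_smul]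
  have hWy : ∀ j k, J.D (W j) (y k) = if j = k then 1 else 0 := by
    intro j k
    have := congrFun (congrFun hC j) k
    rw [Matrix.mul_apply, Matrix.one_apply] at this
    rw [hWD]; exact this
  have hZW : ∀ j f, J.D (Z j) f = ∑ k, J.D (Z j) (y k) * J.D (W k) f := by
    intro j f
    simp only [hWD, mul_sum]
    rw [sum_comm]
    have : ∀ l, ∑ k, J.D (Z j) (y k) * (C k l * J.D (Z l) f) =
        (if j = l then 1 else 0) * J.D (Z l) f := by
      intro l
      have := congrFun (congrFun hC' j) l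
      rw [Matrix.mul_apply, Matrix.one_apply] at this
      rw [← this, sum_mul]
      exact sum_congr rfl fun k _ => by simp [mul_assoc]
    simp [this]
  have hspan : ∀ V ∈ Submodule.span O (Set.range Z), ∀ f,
      J.D V f = ∑ k, J.D V (y k) * J.D (W k) f := by
    intro V hV f
    induction hV using Submodule.span_induction with
    | mem _ hx => obtain ⟨j, rfl⟩ := hx; exact hZW j f
    | zero => simp [D_zero]
    | add x y _ _ hx hy => simp only [D_add, hx, hy, add_mul, sum_add_distrib]
    | smul c x _ hx => simp only [D_smul, hx, mul_sum, mul_assoc]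
  have hWs : ∀ j, W j ∈ Submodule.span O (Set.range Z) := fun j =>
    Submodule.sum_mem _ fun k _ => Submodule.smul_mem _ _ (Submodule.subset_span ⟨k, rfl⟩)
  have hcomm : ∀ i j f, J.D (W i) (J.D (W j) f) = J.D (W j) (J.D (W i) f) := by
    intro i j f
    rw [← sub_eq_zero, ← D_br, hspan _ (J.br_span Z h (hWs i) (hWs j))]
    refine sum_eq_zero fun k _ => ?_
    rw [D_br, hWy, hWy]
    split_ifs <;> simp
  have key : ∀ S : Finset (Fin n), ∃ g, g - f ∈ J.I 2 ∧ ∀ j ∈ S, J.D (W j) g ∈ J.I K := by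
    intro S
    induction S using Finset.induction_on with
    | empty => exact ⟨f, by simp, by simp⟩
    | insert j S hj ih =>
      obtain ⟨g, hg, hg'⟩ := ih
      have h1 : J.D (W j) g ∈ J.I 1 := by
        have e : J.D (W j) g = J.D (W j) (g - f) + J.D (W j) f := by rw [map_sub]; abel
        rw [e]
        refine add_mem (J.D_I _ hg) ?_
        rw [hWD]; exact Ideal.sum_mem _ fun k _ => Ideal.mul_mem_left _ _ (hf k)
      obtain ⟨g', a1, a2, a3⟩ := J.proj_step (K := K) (J.D (W j)) (y j) (by simp [hWy]) (hy j)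
        (fun m f => J.D_I _) g h1
      refine ⟨g', by simpa using add_mem a1 hg, fun i hi => ?_⟩
      rcases mem_insert.1 hi with rfl | hi
      · exact a2
      · have hij : i ≠ j := fun h => hj (h ▸ hi)
        exact a3 _ (by simp [hWy, hij]) (hcomm i j) (hg' i hi)
  obtain ⟨g, hg, hg'⟩ := key univ
  refine ⟨g, hg, fun j => ?_⟩
  rw [hZW]
  exact Ideal.sum_mem _ fun k _ => Ideal.mul_mem_left _ _ (hg' k (mem_univ _))

end Jet

end Pool.Agent.P.MP_1b6414_an
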