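import Pool.Agent.P.MP_1b6414_an.Fliess

/-! The abstract equality of the two types. -/

namespace Pool.Agent.P.MP_1b6414_an

open Finset MvPolynomial

set_option linter.unusedSectionVars false

variable {N : ℕ} {O : Type*} [CommRing O] [Algebra ℂ O] [StarRing O] [StarModule ℂ O]

/-- The field or its conjugate. -/
def pk (L : Fin N → O) (b : Bool) : Fin N → O := if b then L else star L

/-- Iterated brackets. -/
noncomputable def Jet.itBr (J : Jet N O) (L : Fin N → O) (b : Bool) (l : List Bool) : Fin N → O :=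
  l.foldr (fun c V => J.br (pk L c) V) (pk L b)

/-- The two derivations given by a vector field. -/
noncomputable def Jet.two (J : Jet N O) (L : Fin N → O) : Two O where
  ev := J.ev
  ev_star := J.ev_star
  d b := J.D (pk L b)
  d_star b f := by cases b <;> simp [pk, ← J.D_star]

namespace Model

variable {J : Jet N O} {n m : ℕ} {F : CRF J n} {η₀ : Fin N → O} (M : Model F η₀ (m + 1))
  (L : Fin N → O)

/-- The polarised family of curves. -/
noncomputable def HH : ((J.two L).BB m × (J.two L).BB m) →ₗ[ℂ]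
    (Option (Fin n) ⊕ Option (Fin n) → Polynomial ℂ) :=
  LinearMap.pi (Sum.elim (fun i => ((J.two L).Φ m).flip (M.z i) ∘ₗ LinearMap.fst ℂ _ _)
    (fun i => ((J.two L).Φ m).flip (star (M.z i)) ∘ₗ LinearMap.snd ℂ _ _))

theorem HH_inl (x y : (J.two L).BB m) (i) :
    M.HH L (x, y) (Sum.inl i) = (J.two L).Φ m x (M.z i) := rfl

theorem HH_inr (x y : (J.two L).BB m) (i) :
    M.HH L (x, y) (Sum.inr i) = (J.two L).Φ m y (star (M.z i)) := rfl

theorem HH_conj (x y : (J.two L).BB m) (α) :
    cP (M.HH L (x, y) α.swap) = M.HH L ((J.two L).sg m y, (J.two L).sg m x) α := by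
  rcases α with i | i
  · rw [Sum.swap_inl, HH_inr, HH_inl, ← Two.Φ_star, star_star]
  · rw [Sum.swap_inr, HH_inr, HH_inl, ← Two.Φ_star]

theorem HH_conj' (x y : (J.two L).BB m) (α) :
    cP (M.HH L (x, y) α) = M.HH L ((J.two L).sg m y, (J.two L).sg m x) α.swap := by
  rw [← HH_conj, Sum.swap_swap]

theorem HH_aeval (x y : (J.two L).BB m) (Q : MvPolynomial (Option (Fin n) ⊕ Option (Fin n)) ℂ) :
    cP (aeval (M.HH L (x, y)) Q) = aeval (M.HH L ((J.two L).sg m y, (J.two L).sg m x)) (cs Q) := by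
  rw [conj_aeval cP (fun a => by simp)]
  congr 2
  funext α; exact M.HH_conj L x y α

theorem HH_diag (γ : (J.two L).BB m) : M.HH L (γ, γ) = fun α => (J.two L).Φ m γ (M.zz α) := by
  funext α; rcases α with i | i <;> rfl

theorem HH_sg (γ : (J.two L).BB m) : M.HH L (γ, (J.two L).sg m γ) =
    Sum.elim (fun i => (J.two L).Φ m γ (M.z i)) (fun i => cP ((J.two L).Φ m γ (M.z i))) := by
  funext α
  rcases α with i | i
  · rfl
  · exact Two.Φ_star _ _ _

/-- The coefficient polynomials. -/
noncomputable def q (j : ℕ) : PFun ((J.two L).BB m × (J.two L).BB m) := mkP (M.HH L) M.ρ j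

theorem q_d (j : ℕ) (p) (u : (J.two L).BB m) : (M.q L j).d p (u, 0) =
    (∑ i, aeval (M.HH L p) (pderiv (Sum.inl i) M.ρ) * (J.two L).Φ m u (M.z i)).coeff j := by
  rw [q, mkP_d, Fintype.sum_sum_type]
  simp [HH_inl, HH_inr]

theorem q_dd (j : ℕ) (p) (u v : (J.two L).BB m) : (M.q L j).dd p (u, 0) (0, v) =
    (∑ i, ∑ l, aeval (M.HH L p) (pderiv (Sum.inr l) (pderiv (Sum.inl i) M.ρ)) *
      (J.two L).Φ m u (M.z i) * (J.two L).Φ m v (star (M.z l))).coeff j := by
  rw [q, mkP_dd]
  simp [Fintype.sum_sum_type, HH_inl, HH_inr]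

theorem conj_coeff (Q : Polynomial ℂ) (j : ℕ) : starRingEnd ℂ (Q.coeff j) = (cP Q).coeff j := by
  simp

variable {L} (hL : L ∈ Submodule.span O (Set.range F.Z))
include hL

theorem HH_null (u v : (J.two L).BB m) :
    M.HH L (u * (J.two L).gen m false, v * (J.two L).gen m true) = 0 := by
  have h := fun i => J.I_le_van (pk L) (vanI_anti (by omega : m ≤ m + 1 + 2) (M.span_CR hL i))
  funext α
  rcases α with i | i
  · exact Two.Φ_gen _ _ _ (h i)
  · refine Two.Φ_gen _ _ _ ?_
    have := (J.two L).IL_star (h i)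
    rwa [← J.D_star, star_star] at this

theorem hyp (hη₀ : F.Form η₀) {T : Type*} [CommRing T] [Algebra ℂ T] [StarRing T] [StarModule ℂ T]
    (A : Arc T)
    (hA : ArcPos J A fun j k => (-Complex.I) • pairO η₀ (J.br (F.Z j) (star (F.Z k))))
    {μ : ℕ} (hμ : μ ≤ m)
    (h : ∀ j < μ, ∀ γ, ((J.two L).nil m).CG γ → (M.q L j).f (γ, ((J.two L).nil m).σ γ) = 0) :
    Hyp ((J.two L).nil m) (M.q L μ) where
  real0 x y := by
    rw [q, mkP_f, mkP_f, conj_coeff, HH_aeval, M.ρ_real]; rfl
  real1 x y u v := by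
    rw [q, mkP_d, mkP_d, conj_coeff, map_sum, ← (Equiv.sumComm _ _).sum_comp]
    congr 1
    refine sum_congr rfl fun α _ => ?_
    rw [map_mul, HH_aeval, cs_pderiv, M.ρ_real, HH_conj', Equiv.sumComm_apply, Sum.swap_swap]; rfl
  real2 x y u v u' v' := by
    rw [q, mkP_dd, mkP_dd, conj_coeff, map_sum, ← (Equiv.sumComm _ _).sum_comp]
    congr 1
    refine sum_congr rfl fun α _ => ?_
    rw [map_sum, ← (Equiv.sumComm _ _).sum_comp]
    refine sum_congr rfl fun β _ => ?_
    rw [map_mul, map_mul, HH_aeval, cs_pderiv, cs_pderiv, M.ρ_real, HH_conj', HH_conj',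
      Equiv.sumComm_apply, Sum.swap_swap, Sum.swap_swap]; rfl
  zeroG x hx _ := by
    have h1 := (J.two L).Φ_aeval (m := m) ⟨x, hx, rfl⟩ M.zz M.ρ
    have h2 := (J.two L).Φ_dvd (m := m) (ex x)
      (J.I_le_van (pk L) (vanI_anti (by omega : m + 1 ≤ m + 1 + 2) M.ρI))
    have h3 := dvd_sub h2 h1
    rw [show aeval (Sum.elim M.z fun i => star (M.z i)) M.ρ = aeval M.zz M.ρ from rfl,
      sub_sub_cancel] at h3
    rw [q, mkP_f, HH_diag]
    exact Polynomial.X_pow_dvd_iff.1 h3 μ (by omega)
  inv0 x y u v := by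
    rw [q, mkP_f, mkP_f, ← Prod.mk_add_mk, map_add, Two.nil_σa, Two.nil_a, M.HH_null hL, add_zero]
  inv1 p u v := by
    rw [q, mkP_d, Two.nil_σa, Two.nil_a, M.HH_null hL]; simp
  inv2 p u v w := by
    rw [q, mkP_dd, Two.nil_σa, Two.nil_a, M.HH_null hL]; simp
  psd x hx ν hν := by
    have hγ : ((J.two L).nil m).CG (ex x) := ⟨x, hx, rfl⟩
    have e : ∀ j, (M.q L j).dd (ex x, ((J.two L).nil m).σ (ex x)) (ν * ex x, 0)
        (0, ((J.two L).nil m).σ (ν * ex x)) = (∑ i, ∑ l, aeval (Sum.elim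
          (fun i => (J.two L).Φ m (ex x) (M.z i)) (fun i => cP ((J.two L).Φ m (ex x) (M.z i))))
          (pderiv (Sum.inr l) (pderiv (Sum.inl i) M.ρ)) * (J.two L).Φ m (ν * ex x) (M.z i) *
          cP ((J.two L).Φ m (ν * ex x) (M.z l))).coeff j := by
      intro j
      rw [q_dd, ← HH_sg]
      simp only [← Two.Φ_star]; rfl
    rw [e]
    refine M.positivity hη₀ A hA (by omega) _ _ (fun i => ?_) (fun i => ?_)
      (Polynomial.X_pow_dvd_iff.2 fun j hj => ?_) (Polynomial.X_pow_dvd_iff.2 fun j hj => ?_)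
      (Polynomial.X_pow_dvd_iff.2 fun j hj => ?_)
    · have := (J.two L).CG_ev hγ (M.z i)
      rwa [show (J.two L).ev (M.z i) = 0 from M.z0 i, map_zero, sub_zero] at this
    · have := (J.two L).Φ_F (((J.two L).nil m).mul_right (((J.two L).nil m).g_F hν) (ex x)) (M.z i)
      rwa [pow_one] at this
    · rw [← HH_sg]; exact h j hj _ hγ
    · rw [← HH_sg, ← q_d]; exact ((M.q L j).deriv_vanish (h j hj) hγ hν).1
    · rw [← e]; exact ((M.q L j).deriv_vanish (h j hj) hγ hν).2

omit hL in
theorem d_formula {c : (J.two L).BB m} {i j : ℕ} {E : Module.End ℂ O} (hc : c.1 = Tm m i E)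
    (hj : j ≤ m) : (M.q L j).d (1, 1) (c, 0) =
      if i = j then J.ev (∑ l, aeval M.zz (pderiv (Sum.inl l) M.ρ) * E (M.z l)) else 0 := by
  have h1 : Polynomial.X ^ (m + 1) ∣ ∑ l, aeval (M.HH L (1, 1)) (pderiv (Sum.inl l) M.ρ) *
      (J.two L).Φ m c (M.z l) - Polynomial.X ^ i *
        Polynomial.C (J.ev (∑ l, aeval M.zz (pderiv (Sum.inl l) M.ρ) * E (M.z l))) := by
    rw [map_sum, map_sum, mul_sum, ← sum_sub_distrib]
    refine dvd_sum fun l _ => ?_
    have h2 := (J.two L).Φ_Tm 1 hc (M.z l)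
    rw [one_mul, Two.Φ_one] at h2
    have h3 : aeval (M.HH L (1, 1)) (pderiv (Sum.inl l) M.ρ) =
        Polynomial.C (J.ev (aeval M.zz (pderiv (Sum.inl l) M.ρ))) := by
      have := MvPolynomial.comp_aeval_apply (f := M.zz)
        ((Polynomial.CAlgHom (R := ℂ) (A := ℂ)).comp J.ev) (pderiv (Sum.inl l) M.ρ)
      rw [HH_diag]
      simp only [Two.Φ_one]
      exact this.symm
    convert h2.mul_left (aeval (M.HH L (1, 1)) (pderiv (Sum.inl l) M.ρ)) using 1
    rw [h3, map_mul, map_mul]
    change _ = _ * (_ - _ * Polynomial.C (J.ev _))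
    ring
  have h4 := Polynomial.X_pow_dvd_iff.1 h1 j (by omega)
  rw [Polynomial.coeff_sub, sub_eq_zero, mul_comm, Polynomial.coeff_C_mul_X_pow] at h4
  rw [q_d, h4]
  simp only [eq_comm]

omit hL in
theorem dd_formula {γ : (J.two L).BB m} (hγ : ((J.two L).nil m).CG γ) {j : ℕ} (hj : j ≤ m) :
    (M.q L j).dd (γ, γ) (γ * (J.two L).gen m true, 0) (0, γ * (J.two L).gen m false) =
      (Polynomial.X ^ 2 * (J.two L).Φ m γ (M.lev L L)).coeff j := by
  rw [q_dd, ← sub_eq_zero, ← Polynomial.coeff_sub]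
  refine Polynomial.X_pow_dvd_iff.1 (?_ : Polynomial.X ^ (m + 1) ∣ _) j (by omega)
  rw [lev, map_sum, mul_sum, ← sum_sub_distrib]
  refine dvd_sum fun i _ => ?_
  rw [map_sum, mul_sum, ← sum_sub_distrib]
  refine dvd_sum fun l _ => ?_
  set r := pderiv (Sum.inr l) (pderiv (Sum.inl i) M.ρ)
  have a1 := (J.two L).Φ_aeval hγ M.zz r
  have a2 := (J.two L).Φ_Tm γ (c := (J.two L).gen m true) rfl (M.z i)
  have a3 := (J.two L).Φ_Tm γ (c := (J.two L).gen m false) rfl (star (M.z l))
  have a4 := (J.two L).Φ_mul hγ (aeval M.zz r * J.D L (M.z i)) (star (J.D L (M.z l)))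
  have a5 := (J.two L).Φ_mul hγ (aeval M.zz r) (J.D L (M.z i))
  have e2 : ((J.two L).d true : Module.End ℂ O) (M.z i) = J.D L (M.z i) := rfl
  have e3 : ((J.two L).d false : Module.End ℂ O) (star (M.z l)) = star (J.D L (M.z l)) :=
    J.D_star _ _
  rw [e2] at a2
  rw [e3] at a3
  rw [HH_diag]
  set x1 := aeval (fun α => (J.two L).Φ m γ (M.zz α)) r
  set x2 := (J.two L).Φ m (γ * (J.two L).gen m true) (M.z i)
  set x3 := (J.two L).Φ m (γ * (J.two L).gen m false) (star (M.z l))
  set y1 := (J.two L).Φ m γ (aeval M.zz r)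
  set y2 := (J.two L).Φ m γ (J.D L (M.z i))
  set y3 := (J.two L).Φ m γ (star (J.D L (M.z l)))
  convert dvd_sub (dvd_sub (dvd_add (dvd_sub (a2.mul_left (y1 * x3)) (a1.mul_left (x2 * x3)))
    (a3.mul_left (y1 * Polynomial.X * y2))) (a4.mul_left (Polynomial.X ^ 2)))
    (a5.mul_left (Polynomial.X ^ 2 * y3)) using 1
  ring

end Model

theorem main_abstract {J : Jet N O} {n : ℕ} (F : CRF J n) {η₀ η : Fin N → O} (hη₀ : F.Form η₀)
    (hη : F.Form η) {T : Type*} [CommRing T] [Algebra ℂ T] [StarRing T] [StarModule ℂ T]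
    (A : Arc T)
    (hA : ArcPos J A fun j k => (-Complex.I) • pairO η₀ (J.br (F.Z j) (star (F.Z k))))
    {L : Fin N → O} (hL : L ∈ Submodule.span O (Set.range F.Z)) (m : ℕ) :
    (∀ b l, l.length + 1 ≤ m → J.ev (pairO η (J.itBr L b l)) = 0) ↔
      (∀ w : List Bool, w.length + 2 ≤ m →
        J.ev (wordD (fun b => J.D (pk L b)) w (pairO η (J.br L (star L)))) = 0) := by
  obtain ⟨M⟩ := exists_model F hη₀ (m + 1)
  have hT : J.ev (M.dρ M.T) ≠ 0 := by rw [M.ev_dρ_T]; simp
  have r1 : ∀ V, J.ev (M.dρ V) = 0 ↔ J.ev (pairO η V) = 0 := by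
    intro V
    have := vanI_ev (M.rel hη V)
    rw [map_sub, map_mul, map_mul, sub_eq_zero] at this
    constructor
    · intro h; rw [h, mul_zero] at this; exact (mul_eq_zero.1 this.symm).resolve_left hT
    · intro h; rw [h, mul_zero] at this
      exact (mul_eq_zero.1 this).resolve_left (M.ev_pair_T hη)
  have r2 : M.lev L L ∈ (J.two L).IL (m - 1) ↔
      pairO η (J.br L (star L)) ∈ (J.two L).IL (m - 1) := by
    have a1 : _ ∈ (J.two L).IL (m - 1) :=
      J.I_le_van (pk L) (vanI_anti (by omega) (M.rel hη (J.br L (star L))))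
    have a2 : _ ∈ (J.two L).IL (m - 1) := J.I_le_van (pk L) (vanI_anti (by omega) (M.levi hL hL))
    constructor
    · intro h
      refine (vanI_unit (J.unit _ hT)).1 ?_
      have := sub_mem (Ideal.mul_mem_left _ (pairO η M.T) (add_mem a2 h)) a1
      rwa [sub_add_cancel, sub_sub_cancel] at this
    · intro h
      have := add_mem a1 (Ideal.mul_mem_left _ (M.dρ M.T) h)
      rw [sub_add_cancel] at this
      have := sub_mem ((vanI_unit (J.unit _ (M.ev_pair_T hη))).1 this) a2
      rwa [sub_sub_cancel] at this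
  have r3 : (∀ w : List Bool, w.length + 2 ≤ m →
      J.ev (wordD (fun b => J.D (pk L b)) w (pairO η (J.br L (star L)))) = 0) ↔
      M.lev L L ∈ (J.two L).IL (m - 1) := by
    rw [r2, mem_vanI_iff]
    exact forall_congr' fun w => ⟨fun h hw => h (by omega), fun h hw => h (by omega)⟩
  rw [r3]
  have ind : (∀ μ ≤ m, Hyp ((J.two L).nil m) (M.q L μ) →
      ∀ ν ∈ ((J.two L).nil m).g, (M.q L μ).d (1, 1) (ν, 0) = 0) →
      ∀ μ ≤ m, ∀ γ, ((J.two L).nil m).CG γ → (M.q L μ).f (γ, ((J.two L).nil m).σ γ) = 0 := by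
    intro h μ
    induction μ using Nat.strong_induction_on with
    | _ μ ih =>
      intro hμ γ hγ
      have H := M.hyp hL hη₀ A hA hμ fun j hj => ih j hj (by omega)
      exact H.vanish (h μ hμ H) hγ
  constructor
  · intro h
    have key := ind fun μ hμ _ => by
      refine ((J.two L).nil m).g_induction (map_zero ((M.q L μ).d (1, 1))) ?_ ?_
      · intro x y hx hy
        rw [show ((x + y, 0) : (J.two L).BB m × (J.two L).BB m) = (x, 0) + (y, 0) by simp,
          map_add, hx, hy, add_zero]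
      · intro i c hc
        rcases i with _ | i
        · have : c = 0 := hc
          subst this
          exact map_zero ((M.q L μ).d (1, 1))
        obtain ⟨E, hE, e⟩ := (J.two L).gr_rep (fun j => Submodule.span ℂ
          {E | ∃ b l, l.length + 1 = j ∧ E = (J.D (J.itBr L b l) : Module.End ℂ O)})
          (fun b => Submodule.subset_span ⟨b, [], rfl, rfl⟩) (fun j b E hE => by
            induction hE using Submodule.span_induction with
            | mem E hE =>
              obtain ⟨b', l, hl, rfl⟩ := hE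
              refine Submodule.subset_span ⟨b', b :: l, by simpa using hl, ?_⟩
              ext f
              exact (J.D_br _ _ f).symm
            | zero => simp
            | add x y _ _ hx hy =>
              rw [mul_add, add_mul, add_sub_add_comm]; exact add_mem hx hy
            | smul c x _ hx =>
              rw [mul_smul_comm, smul_mul_assoc, ← smul_sub]; exact Submodule.smul_mem _ _ hx)
          i c hc
        rw [M.d_formula e hμ]
        split_ifs with hi
        · clear e
          induction hE using Submodule.span_induction with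
          | mem E hE =>
            obtain ⟨b', l, hl, rfl⟩ := hE
            have := (r1 _).2 (h b' l (by omega))
            rwa [M.dρ_apply] at this
          | zero => simp
          | add x y _ _ hx hy =>
            simp only [LinearMap.add_apply, mul_add, sum_add_distrib, map_add, hx, hy, add_zero]
          | smul c x _ hx =>
            simp only [LinearMap.smul_apply, mul_smul_comm, ← smul_sum, map_smul, hx, smul_zero]
        · rfl
    refine (J.two L).IL_of_RG (m := m) (by omega) fun γ hγ => Polynomial.X_pow_dvd_iff.2 ?_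
    intro j hj
    obtain ⟨ν, hν, e⟩ := hγ.cg.tan_left (((J.two L).nil m).gr_le_g ((J.two L).nil m).a_mem)
    have h1 := ((M.q L (j + 2)).deriv_vanish (key (j + 2) (by omega)) hγ.cg hν).2
    rw [← e, map_mul, hγ.σ_eq, Two.nil_σa, Two.nil_a, M.dd_formula hγ.cg (by omega),
      Polynomial.coeff_X_pow_mul] at h1
    exact h1
  · intro h b l hl
    have key := ind fun μ hμ H => H.levi_null fun γ hγ => by
      rw [Two.nil_σa, Two.nil_a, M.dd_formula hγ.cg hμ, Polynomial.coeff_X_pow_mul']
      split_ifs with h2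
      · exact Polynomial.X_pow_dvd_iff.1 ((J.two L).Φ_dvd γ h) _ (by omega)
      · rfl
    have hc : ∀ l : List Bool, ∃ c ∈ ((J.two L).nil m).gr (l.length + 1),
        c.1 = Tm m (l.length + 1) (J.D (J.itBr L b l) : Module.End ℂ O) := by
      intro l
      induction l with
      | nil => exact ⟨_, (J.two L).gen_mem m b, rfl⟩
      | cons b' l ih =>
        obtain ⟨c, hc, e⟩ := ih
        refine ⟨_, ((J.two L).nil m).br_mem_succ ((J.two L).gen_mem m b') hc, ?_⟩
        rw [AddSubgroupClass.coe_sub, MulMemClass.coe_mul, MulMemClass.coe_mul, e]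
        change Tm m 1 _ * _ - _ * Tm m 1 _ = _
        rw [Tm_mul, Tm_mul, add_comm 1 (l.length + 1), ← map_sub]
        congr 1
        ext f
        exact (J.D_br _ _ f).symm
    obtain ⟨c, hc, e⟩ := hc l
    have h1 := ((M.q L (l.length + 1)).deriv_vanish (key _ hl) Nil.RG_one.cg
      (((J.two L).nil m).gr_le_g hc)).1
    rw [map_one, mul_one, M.d_formula e hl, if_pos rfl] at h1
    exact (r1 _).1 (by rwa [M.dρ_apply])

end Pool.Agent.P.MP_1b6414_an
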