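import Pool.Agent.P.MP_1b6414_an.Core

/-! Coefficients of a polynomial evaluated on linear families of one-variable polynomials. -/

namespace Pool.Agent.P.MP_1b6414_an

open Finset MvPolynomial

/-- Coefficientwise derivative. -/
def CD (y : ℂ → Polynomial ℂ) (y' : Polynomial ℂ) (z : ℂ) : Prop :=
  ∀ j, HasDerivAt (fun w => (y w).coeff j) (y'.coeff j) z

theorem CD.const (c : Polynomial ℂ) (z : ℂ) : CD (fun _ => c) 0 z := fun j => by
  simpa using hasDerivAt_const z (c.coeff j)

theorem CD.add {y k : ℂ → Polynomial ℂ} {y' k' : Polynomial ℂ} {z : ℂ} (h : CD y y' z)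
    (h' : CD k k' z) : CD (fun w => y w + k w) (y' + k') z := fun j => by
  simp only [Polynomial.coeff_add]
  exact (h j).add (h' j)

theorem CD.mul {y k : ℂ → Polynomial ℂ} {y' k' : Polynomial ℂ} {z : ℂ} (h : CD y y' z)
    (h' : CD k k' z) : CD (fun w => y w * k w) (y' * k z + y z * k') z := fun j => by
  simp only [Polynomial.coeff_add, Polynomial.coeff_mul, ← sum_add_distrib]
  exact HasDerivAt.fun_sum fun p _ => (h p.1).mul (h' p.2)

theorem CD.sum {ι : Type*} (s : Finset ι) {y : ι → ℂ → Polynomial ℂ} {y' : ι → Polynomial ℂ}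
    {z : ℂ} (h : ∀ i, CD (y i) (y' i) z) : CD (fun w => ∑ i ∈ s, y i w) (∑ i ∈ s, y' i) z :=
  fun j => by
    simp only [Polynomial.finsetSum_coeff]
    exact HasDerivAt.fun_sum fun i _ => h i j

theorem CD.aeval {ι : Type*} [Fintype ι] [DecidableEq ι] {y : ℂ → ι → Polynomial ℂ}
    {y' : ι → Polynomial ℂ} {z : ℂ} (h : ∀ i, CD (fun w => y w i) (y' i) z)
    (P : MvPolynomial ι ℂ) :
    CD (fun w => aeval (y w) P) (∑ α, aeval (y z) (pderiv α P) * y' α) z := by
  induction P using MvPolynomial.induction_on with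
  | C a => simpa using CD.const (algebraMap ℂ (Polynomial ℂ) a) z
  | add p q hp hq => simpa [add_mul, sum_add_distrib] using hp.add hq
  | mul_X p i hp =>
    have := hp.mul (h i)
    have e : ∑ α, MvPolynomial.aeval (y z) (pderiv α (p * X i)) * y' α =
        (∑ α, MvPolynomial.aeval (y z) (pderiv α p) * y' α) * y z i +
          MvPolynomial.aeval (y z) p * y' i := by
      simp only [Derivation.leibniz, smul_eq_mul, map_add, map_mul, aeval_X, add_mul,
        sum_add_distrib, pderiv_X, sum_mul]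
      rw [add_comm]
      refine congrArg₂ (· + ·) ?_ ?_
      · exact sum_congr rfl fun α _ => by ring
      · rw [sum_eq_single i (by intro b _ hb; simp [Pi.single_eq_of_ne' hb]) (by simp)]; simp
    rw [e]
    simpa only [map_mul, aeval_X] using this

/-- Coefficientwise membership in an algebra of functions. -/
def CA {X : Type} (S : Subalgebra ℂ (X → ℂ)) (y : X → Polynomial ℂ) : Prop :=
  ∀ j, (fun p => (y p).coeff j) ∈ S

section
variable {X : Type} {S : Subalgebra ℂ (X → ℂ)}

theorem CA.const (c : Polynomial ℂ) : CA S (fun _ => c) := fun j => S.algebraMap_mem (c.coeff j)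

theorem CA.add {y k : X → Polynomial ℂ} (h : CA S y) (h' : CA S k) :
    CA S (fun w => y w + k w) := fun j => by
  simp only [Polynomial.coeff_add]
  exact S.add_mem (h j) (h' j)

theorem CA.mul {y k : X → Polynomial ℂ} (h : CA S y) (h' : CA S k) :
    CA S (fun w => y w * k w) := fun j => by
  have : (fun p => (y p * k p).coeff j) = ∑ q ∈ antidiagonal j,
      (fun p => (y p).coeff q.1) * (fun p => (k p).coeff q.2) := by
    funext p; simp [Polynomial.coeff_mul]
  rw [this]
  exact S.sum_mem fun q _ => S.mul_mem (h _) (h' _)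

theorem CA.sum {ι : Type*} (s : Finset ι) {y : ι → X → Polynomial ℂ} (h : ∀ i, CA S (y i)) :
    CA S (fun w => ∑ i ∈ s, y i w) := fun j => by
  have : (fun p => (∑ i ∈ s, y i p).coeff j) = ∑ i ∈ s, fun p => (y i p).coeff j := by
    funext p; simp
  rw [this]
  exact S.sum_mem fun i _ => h i j

theorem CA.aeval {ι : Type*} {y : X → ι → Polynomial ℂ} (h : ∀ i, CA S (fun w => y w i))
    (P : MvPolynomial ι ℂ) : CA S (fun w => aeval (y w) P) := by
  induction P using MvPolynomial.induction_on with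
  | C a => simpa using CA.const (S := S) (algebraMap ℂ (Polynomial ℂ) a)
  | add p q hp hq => simpa using hp.add hq
  | mul_X p i hp => simpa using hp.mul (h i)

end

theorem pderiv_comm' {ι : Type*} [DecidableEq ι] (α β : ι) (P : MvPolynomial ι ℂ) :
    pderiv α (pderiv β P) = pderiv β (pderiv α P) := by
  induction P using MvPolynomial.induction_on with
  | C a => simp
  | add p q hp hq => simp [hp, hq]
  | mul_X p i hp =>
    simp only [Derivation.leibniz, smul_eq_mul, map_add, hp, pderiv_X]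
    have : ∀ γ δ : ι, pderiv γ ((Pi.single δ 1 : ι → MvPolynomial ι ℂ) i) = 0 := by
      intro γ δ; by_cases h : i = δ
      · subst h; simp
      · simp [Pi.single_eq_of_ne h]
    rw [this, this]; ring

variable {W ι : Type*} [AddCommGroup W] [Module ℂ W] [Fintype ι] [DecidableEq ι]

/-- A coefficient of a component of a linear family. -/
noncomputable def coefL (H : W →ₗ[ℂ] ι → Polynomial ℂ) (i : ι) (j : ℕ) : W →ₗ[ℂ] ℂ :=
  Polynomial.lcoeff ℂ j ∘ₗ
    (LinearMap.proj i : (ι → Polynomial ℂ) →ₗ[ℂ] Polynomial ℂ) ∘ₗ H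

/-- The coefficient of `X ^ μ` of `P` evaluated on a linear family. -/
noncomputable def mkP (H : W →ₗ[ℂ] ι → Polynomial ℂ) (P : MvPolynomial ι ℂ) (μ : ℕ) :
    PFun W where
  f p := (aeval (H p) P).coeff μ
  d p := Polynomial.lcoeff ℂ μ ∘ₗ
    ∑ α, LinearMap.mulLeft ℂ (aeval (H p) (pderiv α P)) ∘ₗ
      (LinearMap.proj α : (ι → Polynomial ℂ) →ₗ[ℂ] Polynomial ℂ) ∘ₗ H
  dd p := LinearMap.mk₂ ℂ
    (fun u v => (∑ α, ∑ β, aeval (H p) (pderiv β (pderiv α P)) * H u α * H v β).coeff μ)
    (fun u u' v => by simp [mul_add, add_mul, sum_add_distrib])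
    (fun c u v => by simp [mul_sum])
    (fun u v v' => by simp [mul_add, sum_add_distrib])
    (fun c u v => by simp [mul_sum])
  symm p u v := by
    simp only [LinearMap.mk₂_apply]
    rw [sum_comm]
    refine congrArg (fun Q : Polynomial ℂ => Q.coeff μ) ?_
    exact sum_congr rfl fun α _ => sum_congr rfl fun β _ => by rw [pderiv_comm']; ring
  chain := fun {h h' z} hh => by
    have := CD.aeval (y := fun w => H (h w)) (y' := H h') (z := z) (fun i j =>
      hh (coefL H i j)) P μ
    simpa using this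
  chain2 := fun {h h' k k' z} hh hk => by
    have c1 : ∀ i, CD (fun w => H (h w) i) (H h' i) z := fun i j =>
      hh (coefL H i j)
    have c2 : ∀ i, CD (fun w => H (k w) i) (H k' i) z := fun i j =>
      hk (coefL H i j)
    have := CD.sum univ (fun α => (CD.aeval c1 (pderiv α P)).mul (c2 α)) μ
    simp only [LinearMap.comp_apply, LinearMap.sum_apply, LinearMap.mulLeft_apply,
      LinearMap.proj_apply, Polynomial.lcoeff_apply, LinearMap.mk₂_apply]
    have e : ∑ α, ∑ β, aeval (H (h z)) (pderiv β (pderiv α P)) * H (k z) α * H h' β =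
        ∑ α, (∑ β, aeval (H (h z)) (pderiv β (pderiv α P)) * H h' β) * H (k z) α := by
      refine sum_congr rfl fun α _ => ?_
      rw [sum_mul]
      exact sum_congr rfl fun β _ => by ring
    rw [e, ← Polynomial.coeff_add, ← sum_add_distrib]
    exact this
  alg := fun {X S h} hh => by
    have c1 : ∀ i, CA S (fun w => H (h w) i) := fun i j =>
      hh (coefL H i j)
    exact CA.aeval c1 P μ
  alg1 := fun {X S h k} hh hk => by
    have c1 : ∀ i, CA S (fun w => H (h w) i) := fun i j =>
      hh (coefL H i j)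
    have c2 : ∀ i, CA S (fun w => H (k w) i) := fun i j =>
      hk (coefL H i j)
    have := CA.sum univ (fun α => (CA.aeval c1 (pderiv α P)).mul (c2 α)) μ
    simpa only [LinearMap.comp_apply, LinearMap.sum_apply, LinearMap.mulLeft_apply,
      LinearMap.proj_apply, Polynomial.lcoeff_apply] using this
  alg2 := fun {X S h k m} hh hk hm => by
    have c1 : ∀ i, CA S (fun w => H (h w) i) := fun i j =>
      hh (coefL H i j)
    have c2 : ∀ i, CA S (fun w => H (k w) i) := fun i j =>
      hk (coefL H i j)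
    have c3 : ∀ i, CA S (fun w => H (m w) i) := fun i j =>
      hm (coefL H i j)
    have := CA.sum univ (fun α => CA.sum univ fun β =>
      ((CA.aeval c1 (pderiv β (pderiv α P))).mul (c2 α)).mul (c3 β)) μ
    simpa only [LinearMap.mk₂_apply] using this

theorem mkP_f (H : W →ₗ[ℂ] ι → Polynomial ℂ) (P : MvPolynomial ι ℂ) (μ : ℕ) (p : W) :
    (mkP H P μ).f p = (aeval (H p) P).coeff μ := rfl

theorem mkP_d (H : W →ₗ[ℂ] ι → Polynomial ℂ) (P : MvPolynomial ι ℂ) (μ : ℕ) (p u : W) :
    (mkP H P μ).d p u = (∑ α, aeval (H p) (pderiv α P) * H u α).coeff μ := by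
  simp [mkP]

theorem mkP_dd (H : W →ₗ[ℂ] ι → Polynomial ℂ) (P : MvPolynomial ι ℂ) (μ : ℕ) (p u v : W) :
    (mkP H P μ).dd p u v =
      (∑ α, ∑ β, aeval (H p) (pderiv β (pderiv α P)) * H u α * H v β).coeff μ := rfl

theorem Nil.span_step {B : Type*} [Ring B] [Algebra ℂ B] (N : Nil B) (l : B →ₗ[ℂ] ℂ) {β x : B}
    (h : ∀ γ, N.RG γ → l (γ * β) = 0) (hx : x ∈ N.g) : ∀ γ, N.RG γ → l (γ * (x * β)) = 0 := by
  intro γ hγ
  have key : ∀ x ∈ N.g, N.σ x = x → l (γ * (x * β)) = 0 := by
    intro x hx hr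
    have h1 := WD.ex (N.g_nilp hx) γ β (hasDerivAt_id (0 : ℂ)) l
    have h2 := deriv_eq_zero_of_real h1 fun s => h _ (hγ.mul (Nil.RG_ex hx hr s))
    simpa [mul_assoc] using h2
  obtain ⟨y, hy, z, hz, hyr, hzr, rfl⟩ := Nil.real_decomp hx
  rw [add_mul, mul_add, map_add, smul_mul_assoc, mul_smul_comm, map_smul, key y hy hyr,
    key z hz hzr]
  simp

end Pool.Agent.P.MP_1b6414_an
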