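import Pool.Agent.P.MP_1b6414_an.Jet

/-! Approximate embedding of an abstract CR structure of hypersurface type. -/

namespace Pool.Agent.P.MP_1b6414_an

open Finset MvPolynomial

/-- Conjugation of a polynomial in variables and conjugate variables. -/
noncomputable def cs {κ : Type*} : MvPolynomial (κ ⊕ κ) ℂ →+* MvPolynomial (κ ⊕ κ) ℂ :=
  (MvPolynomial.map (starRingEnd ℂ)).comp (rename Sum.swap).toRingHom

@[simp] theorem cs_C {κ : Type*} (c : ℂ) : cs (C c : MvPolynomial (κ ⊕ κ) ℂ) = C (star c) := by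
  simp [cs]

@[simp] theorem cs_X {κ : Type*} (i : κ ⊕ κ) :
    cs (X i : MvPolynomial (κ ⊕ κ) ℂ) = X i.swap := by
  simp [cs]

theorem cs_cs {κ : Type*} (P : MvPolynomial (κ ⊕ κ) ℂ) : cs (cs P) = P := by
  induction P using MvPolynomial.induction_on with
  | C a => simp
  | add p q hp hq => simp [hp, hq]
  | mul_X p i hp => simp [hp]

theorem conj_aeval {κ S : Type*} [CommRing S] [Algebra ℂ S] (c : S →+* S)
    (hc : ∀ a : ℂ, c (algebraMap ℂ S a) = algebraMap ℂ S (star a)) (s : κ ⊕ κ → S)
    (P : MvPolynomial (κ ⊕ κ) ℂ) :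
    c (aeval s P) = aeval (fun i => c (s i.swap)) (cs P) := by
  induction P using MvPolynomial.induction_on with
  | C a => simp [hc]
  | add p q hp hq => simp [hp, hq]
  | mul_X p i hp => simp [hp]

theorem cs_pderiv {κ : Type*} [DecidableEq κ] (i : κ ⊕ κ) (P : MvPolynomial (κ ⊕ κ) ℂ) :
    cs (pderiv i P) = pderiv i.swap (cs P) := by
  induction P using MvPolynomial.induction_on with
  | C a => simp
  | add p q hp hq => simp [hp, hq]
  | mul_X p j hp =>
    simp only [Derivation.leibniz, smul_eq_mul, map_add, map_mul, hp, cs_X, pderiv_X]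
    congr 2
    by_cases h : j = i
    · subst h; simp
    · have h' : j.swap ≠ i.swap := fun e => h (Sum.swap_leftInverse.injective e)
      simp [Pi.single_eq_of_ne h, Pi.single_eq_of_ne h']

theorem aeval_sub_mem {ι S : Type*} [CommRing S] [Algebra ℂ S] (A : Ideal S) {s s' : ι → S}
    (h : ∀ i, s i - s' i ∈ A) (P : MvPolynomial ι ℂ) : aeval s P - aeval s' P ∈ A := by
  induction P using MvPolynomial.induction_on with
  | C a => simp
  | add p q hp hq => rw [map_add, map_add, add_sub_add_comm]; exact add_mem hp hq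
  | mul_X p i hp =>
    rw [map_mul, map_mul, aeval_X, aeval_X]
    have e : aeval s p * s i - aeval s' p * s' i =
        (aeval s p - aeval s' p) * s i + aeval s' p * (s i - s' i) := by ring
    rw [e]; exact add_mem (Ideal.mul_mem_right _ _ hp) (Ideal.mul_mem_left _ _ (h i))

/-- Polynomials in `Z`, `Zbar` and the real part of `W`. -/
noncomputable def realAlg (n : ℕ) :
    Subalgebra ℂ (MvPolynomial (Option (Fin n) ⊕ Option (Fin n)) ℂ) :=
  Algebra.adjoin ℂ (Set.range (fun j : Fin n => X (Sum.inl (some j))) ∪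
    Set.range (fun j : Fin n => X (Sum.inr (some j))) ∪ {X (Sum.inl none) + X (Sum.inr none)})

theorem realAlg_induction {n : ℕ} {p : MvPolynomial (Option (Fin n) ⊕ Option (Fin n)) ℂ → Prop}
    (h1 : ∀ j, p (X (Sum.inl (some j)))) (h2 : ∀ j, p (X (Sum.inr (some j))))
    (h3 : p (X (Sum.inl none) + X (Sum.inr none))) (hC : ∀ c, p (C c))
    (hadd : ∀ x y, p x → p y → p (x + y)) (hmul : ∀ x y, p x → p y → p (x * y)) :
    ∀ P ∈ realAlg n, p P := by
  intro P hP
  induction hP using Algebra.adjoin_induction with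
  | mem x hx =>
    rcases hx with (⟨j, rfl⟩ | ⟨j, rfl⟩) | rfl
    · exact h1 j
    · exact h2 j
    · exact h3
  | algebraMap r => exact hC r
  | add x y _ _ hx hy => exact hadd x y hx hy
  | mul x y _ _ hx hy => exact hmul x y hx hy

theorem X1_mem {n : ℕ} (j : Fin n) : X (Sum.inl (some j)) ∈ realAlg n :=
  Algebra.subset_adjoin (Or.inl (Or.inl ⟨j, rfl⟩))

theorem X2_mem {n : ℕ} (j : Fin n) : X (Sum.inr (some j)) ∈ realAlg n :=
  Algebra.subset_adjoin (Or.inl (Or.inr ⟨j, rfl⟩))

theorem X3_mem {n : ℕ} : X (Sum.inl none) + X (Sum.inr none) ∈ realAlg n :=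
  Algebra.subset_adjoin (Or.inr rfl)

theorem cs_mem_realAlg {n : ℕ} : ∀ P ∈ realAlg n, cs P ∈ realAlg n :=
  realAlg_induction (fun j => by simpa using X2_mem j) (fun j => by simpa using X1_mem j)
    (by simpa [add_comm] using X3_mem) (fun c => by simpa using (realAlg n).algebraMap_mem (star c))
    (fun x y hx hy => by rw [map_add]; exact add_mem hx hy)
    (fun x y hx hy => by rw [map_mul]; exact mul_mem hx hy)

theorem realAlg_congr {n : ℕ} {S : Type*} [CommRing S] [Algebra ℂ S]
    {s s' : Option (Fin n) ⊕ Option (Fin n) → S}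
    (h1 : ∀ j, s (Sum.inl (some j)) = s' (Sum.inl (some j)))
    (h2 : ∀ j, s (Sum.inr (some j)) = s' (Sum.inr (some j)))
    (h3 : s (Sum.inl none) + s (Sum.inr none) = s' (Sum.inl none) + s' (Sum.inr none)) :
    ∀ P ∈ realAlg n, aeval s P = aeval s' P :=
  realAlg_induction (fun j => by simpa using h1 j) (fun j => by simpa using h2 j)
    (by simpa using h3) (fun c => by simp) (fun x y hx hy => by simp [hx, hy])
    (fun x y hx hy => by simp [hx, hy])

theorem realAlg_pderiv {n : ℕ} :
    ∀ P ∈ realAlg n, pderiv (Sum.inl none) P = pderiv (Sum.inr none) P :=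
  realAlg_induction (fun j => by simp [pderiv_X])
    (fun j => by simp [pderiv_X])
    (by simp [pderiv_X]) (fun c => by simp) (fun x y hx hy => by simp [hx, hy])
    (fun x y hx hy => by simp [hx, hy])

variable {N : ℕ} {O : Type*} [CommRing O] [Algebra ℂ O] [StarRing O] [StarModule ℂ O]

/-- Pairing of a one-form and a vector field. -/
def pairO (η V : Fin N → O) : O := ∑ i, η i * V i

/-- Constant vector field. -/
def cst (v : Fin N → ℂ) : Fin N → O := fun i => algebraMap ℂ O (v i)

/-- A CR frame in the ring of germs. -/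
structure CRF (J : Jet N O) (n : ℕ) where
  hN : N = 2 * n + 1
  Z : Fin n → Fin N → O
  int : ∀ j k, J.br (Z j) (Z k) ∈ Submodule.span O (Set.range Z)
  li : LinearIndependent ℂ (Sum.elim (fun j i => J.ev (Z j i)) (fun j i => star (J.ev (Z j i))))

/-- A real one-form that annihilates the CR frame and does not vanish at the base point. -/
structure CRF.Form {J : Jet N O} {n : ℕ} (F : CRF J n) (η : Fin N → O) : Prop where
  real : ∀ i, star (η i) = η i
  ann : ∀ j, pairO η (F.Z j) = 0
  ne : ∃ i, J.ev (η i) ≠ 0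

/-- Approximate embedding data of order `K + 2`. -/
structure Model {J : Jet N O} {n : ℕ} (F : CRF J n) (η₀ : Fin N → O) (K : ℕ) where
  z : Option (Fin n) → O
  ρ : MvPolynomial (Option (Fin n) ⊕ Option (Fin n)) ℂ
  ψ : MvPolynomial (Option (Fin n) ⊕ Option (Fin n)) ℂ
  T : Fin N → O
  z0 : ∀ i, J.ev (z i) = 0
  zCR : ∀ j i, J.D (star (F.Z j)) (z i) ∈ J.I (K + 2)
  ρI : aeval (Sum.elim z (fun i => star (z i))) ρ ∈ J.I (K + 2)
  ρ_real : cs ρ = ρ
  ρ_eq : ρ = C (-Complex.I / 2) * (X (Sum.inl none) - X (Sum.inr none)) - ψ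
  ψ_mem : ψ ∈ realAlg n
  T_real : star T = T
  T_z : ∀ i, J.ev (J.D T (z i)) = if i = none then 1 else 0
  T_η : J.ev (pairO η₀ T) = 1
  frame : ∀ V : Fin N → O, ∃ (a b : Fin n → O) (c : O),
    V = ∑ j, a j • F.Z j + ∑ j, b j • star (F.Z j) + c • T
  Z_z : ∀ j i, J.ev (J.D (F.Z j) (z (some i))) = if j = i then 1 else 0
  nondeg : ∀ v : Fin N → ℝ, (∀ j, J.ev (J.D (cst fun i => (v i : ℂ)) (z (some j))) = 0) →
    J.ev (J.D (cst fun i => (v i : ℂ)) ((2 : ℂ)⁻¹ • (z none + star (z none)))) = 0 → v = 0

theorem star_algebraMap' (c : ℂ) : star (algebraMap ℂ O c) = algebraMap ℂ O (star c) := by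
  rw [Algebra.algebraMap_eq_smul_one, Algebra.algebraMap_eq_smul_one, star_smul, star_one]

theorem star_aeval_elim {κ : Type*} (z : κ → O) (P : MvPolynomial (κ ⊕ κ) ℂ) :
    star (aeval (Sum.elim z (fun i => star (z i))) P) =
      aeval (Sum.elim z (fun i => star (z i))) (cs P) := by
  have := conj_aeval (starRingEnd O) star_algebraMap' (Sum.elim z (fun i => star (z i))) P
  rw [starRingEnd_apply] at this
  rw [this]
  congr 2
  funext i
  rcases i with i | i <;> simp [starRingEnd_apply]

theorem exists_model {J : Jet N O} {n : ℕ} (F : CRF J n) {η₀ : Fin N → O} (hη : F.Form η₀)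
    (K : ℕ) : Nonempty (Model F η₀ K) := by
  classical
  obtain ⟨i₀, hi₀⟩ := hη.ne
  have hηr : ∀ i, star (J.ev (η₀ i)) = J.ev (η₀ i) := fun i => by rw [← J.ev_star, hη.real]
  let Tp : Fin N → ℂ := Pi.single i₀ (J.ev (η₀ i₀))⁻¹
  let ηp : (Fin N → ℂ) →ₗ[ℂ] ℂ := ∑ i, J.ev (η₀ i) • LinearMap.proj i
  have ηp_apply : ∀ v, ηp v = ∑ i, J.ev (η₀ i) * v i := by intro v; simp [ηp]
  have hηT : ηp Tp = 1 := by
    rw [ηp_apply, sum_eq_single i₀ (fun b _ hb => by simp [Tp, Pi.single_eq_of_ne hb]) (by simp)]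
    simp [Tp, hi₀]
  have hTp : star Tp = Tp := by
    funext i
    by_cases h : i = i₀
    · subst h; simp [Tp, hηr]
    · simp [Tp, Pi.single_eq_of_ne h]
  have hηZ : ∀ j, ηp (fun i => J.ev (F.Z j i)) = 0 := by
    intro j
    have := congrArg J.ev (hη.ann j)
    simpa [pairO, ηp_apply] using this
  have hηZb : ∀ j, ηp (fun i => star (J.ev (F.Z j i))) = 0 := by
    intro j
    have := congrArg star (hηZ j)
    rw [ηp_apply, star_sum, star_zero] at this
    rw [ηp_apply, ← this]
    exact sum_congr rfl fun i _ => by rw [star_mul', hηr]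
  have hli := F.li.option (x := Tp) (by
    intro h
    have : ηp Tp = 0 := by
      refine (Submodule.span_le.2 ?_ : _ ≤ LinearMap.ker ηp) h
      rintro _ ⟨j | j, rfl⟩
      · exact hηZ j
      · exact hηZb j
    rw [hηT] at this; exact one_ne_zero this)
  let b := basisOfLinearIndependentOfCardEqFinrank hli (by simp [F.hN]; ring)
  let Fr : Option (Fin n ⊕ Fin n) → Fin N → O := fun α =>
    α.casesOn' (cst Tp) (Sum.elim F.Z (fun j => star (F.Z j)))
  have hb : ∀ α, b α = fun i => J.ev (Fr α i) := by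
    intro α
    rw [coe_basisOfLinearIndependentOfCardEqFinrank]
    rcases α with _ | j | j
    · funext i; simp [Fr, cst]
    · rfl
    · funext i; simp [Fr, J.ev_star]
  let bar : Option (Fin n ⊕ Fin n) → Option (Fin n ⊕ Fin n) := Option.map Sum.swap
  have hbar : ∀ α, bar (bar α) = α := by rintro (_ | j | j) <;> rfl
  have hcT : star (cst Tp : Fin N → O) = cst Tp := by
    funext i; simp only [cst, Pi.star_apply, star_algebraMap']; rw [← Pi.star_apply, hTp]
  have hFr : ∀ α, star (Fr α) = Fr (bar α) := by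
    rintro (_ | j | j)
    · exact hcT
    · rfl
    · exact star_star _
  have hbb : ∀ α, star (b α) = b (bar α) := by
    intro α; funext i; simp only [hb, Pi.star_apply, ← J.ev_star, ← hFr]
  have hcoord : ∀ α v, star (b.coord α v) = b.coord (bar α) (star v) := by
    intro α v
    conv_rhs => rw [← b.sum_repr v]
    simp only [star_sum, star_smul, hbb, map_sum, map_smul, Module.Basis.coord_apply,
      Module.Basis.repr_self, smul_eq_mul]
    rw [sum_eq_single α]
    · simp
    · intro β _ hβ
      have : bar β ≠ bar α := fun h => hβ (by rw [← hbar β, h, hbar])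
      simp [Finsupp.single_eq_of_ne' this]
    · simp
  let y : Option (Fin n ⊕ Fin n) → O := fun α => ∑ i, b.coord α (Pi.single i 1) • J.x i
  have hDy : ∀ V α, J.D V (y α) = ∑ i, b.coord α (Pi.single i 1) • V i := by
    intro V α; simp [y, J.D_x]
  have hevDy : ∀ V α, J.ev (J.D V (y α)) = b.coord α (fun i => J.ev (V i)) := by
    intro V α
    rw [hDy, map_sum, LinearMap.pi_apply_eq_sum_univ]
    refine sum_congr rfl fun i _ => ?_
    rw [map_smul, smul_eq_mul, smul_eq_mul, mul_comm]
    congr 2; funext j; simp [Pi.single_apply, eq_comm]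
  have hFy : ∀ α β, J.ev (J.D (Fr α) (y β)) = if α = β then 1 else 0 := by
    intro α β; rw [hevDy, ← hb]; simp [Finsupp.single_apply]
  have hystar : ∀ α, star (y α) = y (bar α) := by
    intro α
    simp only [y, star_sum, star_smul, J.star_x, hcoord]
    refine sum_congr rfl fun i _ => ?_
    congr 2; funext j; simp [Pi.single_apply]
  have hyI : ∀ α, y α ∈ J.I 1 := fun α => Ideal.sum_mem _ fun i _ => vanI_smul _ (J.x_I i)
  have hxy : ∀ i, J.x i = ∑ α, b α i • y α := by
    intro i
    simp only [y, smul_sum, smul_smul]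
    rw [sum_comm]
    have : ∀ k, ∑ α, (b α i * b.coord α (Pi.single k 1)) • J.x k =
        (Pi.single k 1 : Fin N → ℂ) i • J.x k := by
      intro k
      rw [← sum_smul]
      congr 1
      have := congrFun (b.sum_repr (Pi.single k 1)) i
      rw [Finset.sum_apply] at this
      rw [← this]
      exact sum_congr rfl fun α _ => by simp [mul_comm]
    simp only [this]
    rw [sum_eq_single i (fun k _ hk => by simp [Pi.single_eq_of_ne' hk]) (by simp)]
    simp
  obtain ⟨M, hM, -⟩ := J.matrix_unit (Matrix.of fun α β => J.D (Fr α) (y β)) (by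
    have : (Matrix.of fun α β => J.D (Fr α) (y β)).map J.ev = 1 := by
      ext j k; simp [hFy, Matrix.one_apply]
    rw [this]; exact isUnit_one)
  have hframe : ∀ V : Fin N → O, ∃ c : Option (Fin n ⊕ Fin n) → O, V = ∑ α, c α • Fr α := by
    intro V
    refine ⟨fun α => ∑ β, J.D V (y β) * M β α, funext fun i => ?_⟩
    have key : ∀ γ, J.D (∑ α, (∑ β, J.D V (y β) * M β α) • Fr α) (y γ) = J.D V (y γ) := by
      intro γ
      simp only [J.D_sum, J.D_smul, sum_mul]
      rw [sum_comm]
      have : ∀ β, ∑ α, J.D V (y β) * M β α * J.D (Fr α) (y γ) =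
          J.D V (y β) * if β = γ then 1 else 0 := by
        intro β
        have := congrFun (congrFun hM β) γ
        rw [Matrix.mul_apply, Matrix.one_apply] at this
        rw [← this, mul_sum]
        exact sum_congr rfl fun α _ => by simp [mul_assoc]
      simp [this]
    rw [← J.D_x V i, ← J.D_x (∑ α, _) i, hxy]
    simp only [map_sum, Derivation.map_smul, key]
  have hint : ∀ j k, J.br (star (F.Z j)) (star (F.Z k)) ∈
      Submodule.span O (Set.range fun j => star (F.Z j)) := by
    intro j k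
    obtain ⟨c, hc⟩ := (Submodule.mem_span_range_iff_exists_fun O).1 (F.int j k)
    rw [← J.star_br, ← hc, star_sum]
    refine Submodule.sum_mem _ fun l _ => ?_
    rw [star_smul]
    exact Submodule.smul_mem _ _ (Submodule.subset_span ⟨l, rfl⟩)
  let em : Option (Fin n) → Option (Fin n ⊕ Fin n) := Option.map Sum.inl
  have hcr : ∀ i, ∃ g, g - y (em i) ∈ J.I 2 ∧ ∀ j, J.D (star (F.Z j)) g ∈ J.I (K + 2) := by
    intro i
    refine J.cr_approx (fun j => star (F.Z j)) hint (fun k => y (some (Sum.inr k)))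
      (fun k => hyI _) (fun j k => ?_) (K + 2) _ fun j => mem_vanI_one.2 ?_
    · simpa [Fr] using hFy (some (Sum.inr j)) (some (Sum.inr k))
    · have := hFy (some (Sum.inr j)) (em i)
      rcases i with _ | i <;> simpa [em, Fr] using this
  choose z hz hzCR using hcr
  have hevz : ∀ V i, J.ev (J.D V (z i)) = J.ev (J.D V (y (em i))) := by
    intro V i
    have := vanI_ev (J.D_I V (hz i))
    rwa [map_sub, map_sub, sub_eq_zero] at this
  have hu : (2 : ℂ)⁻¹ • (z none + star (z none)) - y none ∈ J.I 2 := by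
    have h1 := J.star_I (hz none)
    rw [star_sub, hystar] at h1
    have h2 := vanI_smul (2 : ℂ)⁻¹ (add_mem (hz none) h1)
    have e : (2 : ℂ)⁻¹ • (z none - y (em none) + (star (z none) - y (bar (em none)))) =
        (2 : ℂ)⁻¹ • (z none + star (z none)) - y none := by
      simp only [em, bar, Option.map_none]; module
    rwa [e] at h2
  let zz : Option (Fin n) ⊕ Option (Fin n) → O := Sum.elim z (fun i => star (z i))
  obtain ⟨_, ⟨ψ₀, hψ₀, rfl⟩, hv⟩ := J.taylor ((realAlg n).map (aeval zz)) (fun i => by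
    have hY : ∀ α, ∃ l ∈ (realAlg n).map (aeval zz), y α - l ∈ J.I 2 := by
      rintro (_ | j | j)
      · refine ⟨_, ⟨(2 : ℂ)⁻¹ • (X (Sum.inl none) + X (Sum.inr none)),
          Subalgebra.smul_mem _ X3_mem _, rfl⟩, ?_⟩
        simpa [zz] using neg_mem hu
      · exact ⟨_, ⟨_, X1_mem j, rfl⟩, by simpa [zz, em] using neg_mem (hz (some j))⟩
      · refine ⟨_, ⟨_, X2_mem j, rfl⟩, ?_⟩
        have h1 := J.star_I (hz (some j))
        rw [star_sub, hystar] at h1
        simpa [zz, em, bar] using neg_mem h1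
    choose l hl hl' using hY
    refine ⟨∑ α, b α i • l α, Subalgebra.sum_mem _ fun α _ => Subalgebra.smul_mem _ (hl α) _, ?_⟩
    rw [hxy, ← sum_sub_distrib]
    exact Ideal.sum_mem _ fun α _ => by rw [← smul_sub]; exact vanI_smul _ (hl' α))
    (K + 2) ((-Complex.I / 2) • (z none - star (z none)))
  have hcI : star (-Complex.I / 2) = Complex.I / 2 := by
    simp
  refine ⟨{ z := z
            ρ := C (-Complex.I / 2) * (X (Sum.inl none) - X (Sum.inr none)) -
              C (2 : ℂ)⁻¹ * (ψ₀ + cs ψ₀)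
            ψ := C (2 : ℂ)⁻¹ * (ψ₀ + cs ψ₀)
            T := cst Tp
            z0 := fun i => ?_
            zCR := fun j i => hzCR i j
            ρI := ?_
            ρ_real := ?_
            ρ_eq := rfl
            ψ_mem := mul_mem ((realAlg n).algebraMap_mem _) (add_mem hψ₀ (cs_mem_realAlg _ hψ₀))
            T_real := hcT
            T_z := fun i => ?_
            T_η := ?_
            frame := fun V => ?_
            Z_z := fun j i => ?_
            nondeg := fun v h1 h2 => ?_ }⟩
  · have := vanI_ev (hz i)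
    rwa [map_sub, vanI_ev (hyI _), sub_zero] at this
  · have h1 := J.star_I hv
    have h2 := vanI_smul (2 : ℂ)⁻¹ (add_mem hv h1)
    have e : aeval zz (C (-Complex.I / 2) * (X (Sum.inl none) - X (Sum.inr none)) -
        C (2 : ℂ)⁻¹ * (ψ₀ + cs ψ₀)) = (2 : ℂ)⁻¹ •
        ((-Complex.I / 2) • (z none - star (z none)) - (aeval zz).toRingHom ψ₀ +
          star ((-Complex.I / 2) • (z none - star (z none)) - (aeval zz).toRingHom ψ₀)) := by
      rw [star_sub, star_smul, star_sub, star_star, hcI]
      change _ = (2 : ℂ)⁻¹ • (_ - aeval zz ψ₀ + (_ - star (aeval zz ψ₀)))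
      rw [star_aeval_elim]
      simp only [map_sub, map_mul, map_add, aeval_C, aeval_X, ← Algebra.smul_def, zz,
        Sum.elim_inl, Sum.elim_inr]
      module
    rw [e]; exact h2
  · simp only [map_sub, map_mul, map_add, cs_C, cs_X, cs_cs, Sum.swap_inl, Sum.swap_inr, hcI]
    rw [show star (2 : ℂ)⁻¹ = (2 : ℂ)⁻¹ by simp, neg_div, map_neg]
    ring
  · rw [hevz]
    have := hFy none (em i)
    rcases i with _ | i <;> simpa [em, Fr] using this
  · rw [← hηT, ηp_apply]; simp [pairO, cst]
  · obtain ⟨c, hc⟩ := hframe V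
    refine ⟨fun j => c (some (Sum.inl j)), fun j => c (some (Sum.inr j)), c none, ?_⟩
    rw [hc, Fintype.sum_option, Fintype.sum_sum_type, add_comm]
    rfl
  · rw [hevz]
    simpa [em, Fr] using hFy (some (Sum.inl j)) (some (Sum.inl i))
  · have e1 : ∀ α, J.ev (J.D (cst fun i => (v i : ℂ)) (y α)) = b.coord α (fun i => (v i : ℂ)) := by
      intro α; rw [hevDy]; simp [cst]
    have e2 : star (fun i => (v i : ℂ)) = fun i => (v i : ℂ) := by funext i; simp
    have : (fun i => (v i : ℂ)) = 0 := by
      refine b.forall_coord_eq_zero_iff.1 ?_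
      rintro (_ | j | j)
      · have := vanI_ev (J.D_I (cst fun i => (v i : ℂ)) hu)
        rw [map_sub, map_sub, h2, e1] at this
        simpa using this
      · have := h1 j
        rwa [hevz, e1] at this
      · have := h1 j
        rw [hevz, e1] at this
        have h3 := hcoord (em (some j)) (fun i => (v i : ℂ))
        rw [this, e2, star_zero] at h3
        exact h3.symm
    funext i
    simpa using congrFun this i

end Pool.Agent.P.MP_1b6414_an
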