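import Mathlib

/-! Exponentials in a filtered nilpotent algebra. -/

namespace Pool.Agent.P.MP_1b6414_an

open Finset

section Ex

variable {B : Type*} [Ring B] [Algebra ℂ B]

/-- Exponential of a nilpotent element. -/
noncomputable def ex (x : B) : B :=
  letI : Module ℚ B := Module.compHom B (algebraMap ℚ ℂ)
  IsNilpotent.exp x

theorem ex_eq_sum {x : B} {k : ℕ} (h : x ^ k = 0) :
    ex x = ∑ i ∈ range k, ((i.factorial : ℂ)⁻¹) • x ^ i := by
  let : Module ℚ B := Module.compHom B (algebraMap ℚ ℂ)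
  unfold ex
  rw [IsNilpotent.exp_eq_sum h]
  refine sum_congr rfl fun i _ => ?_
  change (algebraMap ℚ ℂ ((i.factorial : ℚ)⁻¹)) • x ^ i = _
  simp

theorem ex_add {x y : B} (h : Commute x y) (hx : IsNilpotent x) (hy : IsNilpotent y) :
    ex (x + y) = ex x * ex y := by
  let : Module ℚ B := Module.compHom B (algebraMap ℚ ℂ)
  exact IsNilpotent.exp_add_of_commute h hx hy

@[simp] theorem ex_zero : ex (0 : B) = 1 := by
  rw [ex_eq_sum (k := 1) (by simp)]; simp

theorem ex_mul_neg {x : B} (hx : IsNilpotent x) : ex x * ex (-x) = 1 := by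
  rw [← ex_add (Commute.refl x).neg_right hx hx.neg]; simp

theorem ex_neg_mul {x : B} (hx : IsNilpotent x) : ex (-x) * ex x = 1 := by
  rw [← ex_add (Commute.refl x).neg_left hx.neg hx]; simp

theorem ex_smul_add {x : B} (hx : IsNilpotent x) (s t : ℂ) :
    ex ((s + t) • x) = ex (s • x) * ex (t • x) := by
  rw [add_smul, ex_add (((Commute.refl x).smul_left s).smul_right t) (hx.smul s) (hx.smul t)]

theorem commute_ex {x y : B} (hx : IsNilpotent x) (h : Commute y x) : Commute y (ex x) := by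
  obtain ⟨k, hk⟩ := hx
  rw [ex_eq_sum hk]
  exact Commute.sum_right _ _ _ fun i _ => (h.pow_right i).smul_right _

theorem ex_smul_eq_sum {x : B} {k : ℕ} (h : x ^ k = 0) (z : ℂ) :
    ex (z • x) = ∑ i ∈ range k, (((i.factorial : ℂ)⁻¹) * z ^ i) • x ^ i := by
  rw [ex_eq_sum (k := k) (by rw [smul_pow, h, smul_zero])]
  exact sum_congr rfl fun i _ => by rw [smul_pow, smul_smul]

theorem hasDerivAt_ex {x : B} (hx : IsNilpotent x) (l : B →ₗ[ℂ] ℂ) (z : ℂ) :
    HasDerivAt (fun w : ℂ => l (ex (w • x))) (l (x * ex (z • x))) z := by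
  obtain ⟨k, hk⟩ := hx
  have hk' : x ^ (k + 1) = 0 := by rw [pow_succ, hk, zero_mul]
  have e1 : (fun w : ℂ => l (ex (w • x))) =
      fun w => ∑ i ∈ range (k + 1), (((i.factorial : ℂ)⁻¹) * w ^ i) * l (x ^ i) := by
    funext w
    rw [ex_smul_eq_sum hk', map_sum]
    simp
  have e2 : l (x * ex (z • x)) =
      ∑ i ∈ range (k + 1), (((i.factorial : ℂ)⁻¹) * ((i : ℂ) * z ^ (i - 1))) * l (x ^ i) := by
    rw [ex_smul_eq_sum hk, mul_sum, map_sum, sum_range_succ']
    simp only [Nat.cast_zero, zero_mul, mul_zero, add_zero]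
    refine sum_congr rfl fun i _ => ?_
    rw [mul_smul_comm, map_smul, ← pow_succ', smul_eq_mul, Nat.factorial_succ]
    have : ((i : ℂ) + 1) ≠ 0 := by exact_mod_cast Nat.succ_ne_zero i
    have : (i.factorial : ℂ) ≠ 0 := by exact_mod_cast Nat.factorial_ne_zero i
    push_cast
    field_simp
  rw [e1, e2]
  exact HasDerivAt.fun_sum fun i _ => ((hasDerivAt_pow i z).const_mul _).mul_const _

theorem ex_mem_subalgebra {X : Type*} (S : Subalgebra ℂ (X → ℂ)) {x : B} (hx : IsNilpotent x)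
    (l : B →ₗ[ℂ] ℂ) {c : X → ℂ} (hc : c ∈ S) : (fun p => l (ex (c p • x))) ∈ S := by
  obtain ⟨k, hk⟩ := hx
  have e1 : (fun p => l (ex (c p • x))) =
      ∑ i ∈ range k, (((i.factorial : ℂ)⁻¹) * l (x ^ i)) • c ^ i := by
    funext p
    rw [ex_smul_eq_sum hk, map_sum, Finset.sum_apply]
    exact sum_congr rfl fun i _ => by simp; ring
  rw [e1]
  exact S.sum_mem fun i _ => S.smul_mem (S.pow_mem hc i) _

/-- `ad x` as a linear map. -/
def adL (x : B) : Module.End ℂ B := LinearMap.mulLeft ℂ x - LinearMap.mulRight ℂ x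

@[simp] theorem adL_apply (x w : B) : adL x w = x * w - w * x := rfl

theorem ex_conj {x : B} (hx : IsNilpotent x) (w : B) :
    ex x * w * ex (-x) = ex (adL x) w := by
  obtain ⟨k, hk⟩ := hx
  have hL : (LinearMap.mulLeft ℂ x : Module.End ℂ B) ^ k = 0 := by
    rw [LinearMap.pow_mulLeft, hk]; ext; simp
  have hk' : (-x) ^ k = 0 := by rw [neg_pow, hk, mul_zero]
  have hR : (LinearMap.mulRight ℂ (-x) : Module.End ℂ B) ^ k = 0 := by
    rw [LinearMap.pow_mulRight, hk']; ext; simp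
  have e : adL x = LinearMap.mulLeft ℂ x + LinearMap.mulRight ℂ (-x) := by
    ext w; simp [sub_eq_add_neg]
  rw [e, ex_add (LinearMap.commute_mulLeft_right x (-x)) ⟨k, hL⟩ ⟨k, hR⟩, ex_eq_sum hL,
    ex_eq_sum hR, ex_eq_sum hk, ex_eq_sum hk']
  simp [LinearMap.pow_mulLeft, LinearMap.pow_mulRight, LinearMap.sum_apply, mul_sum, sum_mul,
    mul_assoc]

end Ex

/-- The data of a filtered nilpotent algebra with conjugation, grading element and generator. -/
structure Nil (B : Type*) [Ring B] [Algebra ℂ B] where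
  K : ℕ
  F : ℕ → Submodule ℂ B
  F_zero : ∀ x, x ∈ F 0
  F_anti : ∀ {i j x}, i ≤ j → x ∈ F j → x ∈ F i
  F_mul : ∀ {i j x y}, x ∈ F i → y ∈ F j → x * y ∈ F (i + j)
  F_K : ∀ {x}, x ∈ F K → x = 0
  Y : B
  Y_F : ∀ {j x}, x ∈ F j → Y * x - x * Y - (j : ℂ) • x ∈ F (j + 1)
  σ : B →+* B
  σ_smul : ∀ (c : ℂ) x, σ (c • x) = (starRingEnd ℂ c) • σ x
  σσ : ∀ x, σ (σ x) = x
  σ_F : ∀ {j x}, x ∈ F j → σ x ∈ F j
  σ_Y : σ Y = Y
  a : B
  a_F : a ∈ F 1
  Y_a : Y * a - a * Y = a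

namespace Nil

variable {B : Type*} [Ring B] [Algebra ℂ B] (N : Nil B)

theorem mul_left {j : ℕ} {y : B} (x : B) (hy : y ∈ N.F j) : x * y ∈ N.F j := by
  simpa using N.F_mul (N.F_zero x) hy

theorem mul_right {j : ℕ} {x : B} (hx : x ∈ N.F j) (y : B) : x * y ∈ N.F j := by
  simpa using N.F_mul hx (N.F_zero y)

theorem mul_le {i j m : ℕ} {x y : B} (hx : x ∈ N.F i) (hy : y ∈ N.F j) (h : m ≤ i + j) :
    x * y ∈ N.F m := N.F_anti h (N.F_mul hx hy)

theorem pow_mem {x : B} (hx : x ∈ N.F 1) (m : ℕ) : x ^ m ∈ N.F m := by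
  induction m with
  | zero => exact N.F_zero _
  | succ m ih => rw [pow_succ]; exact N.F_mul ih hx

theorem pow_K {x : B} (hx : x ∈ N.F 1) : x ^ N.K = 0 := N.F_K (N.pow_mem hx _)

theorem nilp {x : B} (hx : x ∈ N.F 1) : IsNilpotent x := ⟨_, N.pow_K hx⟩

theorem eq_zero_of_step {x : B} (h : ∀ j, x ∈ N.F j → x ∈ N.F (j + 1)) : x = 0 := by
  have : ∀ j, x ∈ N.F j := fun j => by
    induction j with
    | zero => exact N.F_zero _
    | succ j ih => exact h j ih
  exact N.F_K (this _)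

theorem σ_ex {x : B} (hx : x ∈ N.F 1) : N.σ (ex x) = ex (N.σ x) := by
  rw [ex_eq_sum (N.pow_K hx), ex_eq_sum (N.pow_K (N.σ_F hx)), map_sum]
  refine sum_congr rfl fun i _ => ?_
  rw [N.σ_smul, map_pow]
  simp

theorem pow_perturb {x c : B} {j : ℕ} (hx : x ∈ N.F 1) (hc : c ∈ N.F (j + 1)) (m : ℕ) :
    (x + c) ^ (m + 1) - x ^ (m + 1) ∈ N.F (j + 1 + m) := by
  have hxc : x + c ∈ N.F 1 := add_mem hx (N.F_anti (by omega) hc)
  induction m with
  | zero => simpa using hc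
  | succ m ih =>
    have e : (x + c) ^ (m + 1 + 1) - x ^ (m + 1 + 1) =
        ((x + c) ^ (m + 1) - x ^ (m + 1)) * (x + c) + x ^ (m + 1) * c := by
      rw [pow_succ (x + c) (m + 1), pow_succ x (m + 1)]; noncomm_ring
    rw [e]
    exact add_mem (N.mul_le ih hxc (by omega)) (N.mul_le (N.pow_mem hx _) hc (by omega))

theorem ex_perturb {x c : B} {j : ℕ} (hx : x ∈ N.F 1) (hc : c ∈ N.F (j + 1)) :
    ex (x + c) - ex x - c ∈ N.F (j + 2) := by
  have hxc : x + c ∈ N.F 1 := add_mem hx (N.F_anti (by omega) hc)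
  have h1 : (x + c) ^ (N.K + 2) = 0 := by rw [pow_add, N.pow_K hxc, zero_mul]
  have h2 : x ^ (N.K + 2) = 0 := by rw [pow_add, N.pow_K hx, zero_mul]
  rw [ex_eq_sum h1, ex_eq_sum h2, ← sum_sub_distrib, sum_range_succ', sum_range_succ']
  have e : ∀ A : B, A + (((0 + 1 : ℕ).factorial : ℂ)⁻¹ • (x + c) ^ (0 + 1) -
      ((0 + 1 : ℕ).factorial : ℂ)⁻¹ • x ^ (0 + 1)) + (((0 : ℕ).factorial : ℂ)⁻¹ • (x + c) ^ 0 -
      ((0 : ℕ).factorial : ℂ)⁻¹ • x ^ 0) - c = A := by
    intro A; simp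
  rw [e]
  refine Submodule.sum_mem _ fun i _ => ?_
  rw [← smul_sub]
  exact Submodule.smul_mem _ _ (N.F_anti (by omega) (N.pow_perturb hx hc (i + 1)))

theorem ex_sub {c : B} {j : ℕ} (hc : c ∈ N.F (j + 1)) : ex c - 1 - c ∈ N.F (j + 2) := by
  simpa using N.ex_perturb (x := 0) (zero_mem _) hc

theorem ex_sub_one {c : B} {j : ℕ} (hc : c ∈ N.F (j + 1)) : ex c - 1 ∈ N.F (j + 1) := by
  have := add_mem (N.F_anti (Nat.le_succ _) (N.ex_sub hc)) hc
  simpa using this

theorem ex_inj {x y : B} (hx : x ∈ N.F 1) (hy : y ∈ N.F 1) (h : ex x = ex y) : x = y := by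
  have h0 : y - x ∈ N.F 1 := sub_mem hy hx
  have : y - x = 0 := by
    refine N.eq_zero_of_step fun j hj => ?_
    rcases j with _ | j
    · exact h0
    · have := N.ex_perturb hx hj
      rw [add_sub_cancel, h, sub_self, zero_sub] at this
      exact neg_mem_iff.1 this
  exact (sub_eq_zero.1 this).symm

theorem mem_of_ex_sub_one {x : B} {j : ℕ} (hx : x ∈ N.F 1) (h : ex x - 1 ∈ N.F j) :
    x ∈ N.F j := by
  induction j with
  | zero => exact N.F_zero _
  | succ j ih =>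
    rcases j with _ | j
    · exact hx
    · have h1 := ih (N.F_anti (Nat.le_succ _) h)
      have := sub_mem h (N.ex_sub h1)
      simpa using this

theorem lead_of_ex {z c : B} {j : ℕ} (hz : z ∈ N.F 1) (hc : c ∈ N.F (j + 1))
    (h : ex z - 1 - c ∈ N.F (j + 2)) : z - c ∈ N.F (j + 2) := by
  have h1 : ex z - 1 ∈ N.F (j + 1) := by
    simpa using add_mem (N.F_anti (Nat.le_succ _) h) hc
  have h2 := N.ex_sub (N.mem_of_ex_sub_one hz h1)
  have := sub_mem h h2
  have e : ex z - 1 - c - (ex z - 1 - z) = z - c := by abel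
  rwa [e] at this

theorem bch_lead {x y z : B} {j : ℕ} (hx : x ∈ N.F (j + 1)) (hy : y ∈ N.F (j + 1))
    (hz : z ∈ N.F 1) (h : ex x * ex y = ex z) : z - (x + y) ∈ N.F (j + 2) := by
  refine N.lead_of_ex hz (add_mem hx hy) ?_
  have e : ex z - 1 - (x + y) =
      (ex x - 1) * (ex y - 1) + (ex x - 1 - x) + (ex y - 1 - y) := by
    rw [← h]; noncomm_ring
  rw [e]
  exact add_mem (add_mem (N.mul_le (N.ex_sub_one hx) (N.ex_sub_one hy) (by omega))
    (N.ex_sub hx)) (N.ex_sub hy)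

theorem comm_lead {x y z : B} {i j : ℕ} (hx : x ∈ N.F (i + 1)) (hy : y ∈ N.F (j + 1))
    (hz : z ∈ N.F 1) (h : ex x * ex y * ex (-x) * ex (-y) = ex z) :
    z - (x * y - y * x) ∈ N.F (i + j + 1 + 2) := by
  have hx1 : x ∈ N.F 1 := N.F_anti (by omega) hx
  have hy1 : y ∈ N.F 1 := N.F_anti (by omega) hy
  have hbr : x * y - y * x ∈ N.F (i + j + 1 + 1) :=
    sub_mem (N.mul_le hx hy (by omega)) (N.mul_le hy hx (by omega))
  refine N.lead_of_ex hz hbr ?_
  have i1 := ex_mul_neg (N.nilp hx1)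
  have i2 := ex_mul_neg (N.nilp hy1)
  set A := ex x - 1 with hA
  set C := ex y - 1 with hC
  set P := ex (-x) * ex (-y) with hP
  have hA' : ex x = A + 1 := by rw [hA]; abel
  have hC' : ex y = C + 1 := by rw [hC]; abel
  have e0 : ex y * ex x * P = 1 := by
    rw [hP, mul_assoc, ← mul_assoc (ex x), i1, one_mul, i2]
  have e : ex z - 1 - (x * y - y * x) = (A * C - C * A) * (P - 1) +
      ((A - x) * C + x * (C - y) - ((C - y) * A + y * (A - x))) := by
    have e1 : ex z - 1 = (A * C - C * A) * P := by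
      calc ex z - 1 = ex x * ex y * P - ex y * ex x * P := by
            rw [e0, ← h, mul_assoc (ex x * ex y)]
        _ = (A * C - C * A) * P := by rw [hA', hC']; noncomm_ring
    rw [e1]; noncomm_ring
  have hAF : A ∈ N.F (i + 1) := N.ex_sub_one hx
  have hCF : C ∈ N.F (j + 1) := N.ex_sub_one hy
  have hAx : A - x ∈ N.F (i + 2) := N.ex_sub hx
  have hCy : C - y ∈ N.F (j + 2) := N.ex_sub hy
  have hP1 : P - 1 ∈ N.F 1 := by
    have e2 : P - 1 = (ex (-x) - 1) * ex (-y) + (ex (-y) - 1) := by rw [hP]; noncomm_ring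
    rw [e2]
    exact add_mem (N.mul_right (N.ex_sub_one (j := 0) (neg_mem hx1)) _)
      (N.ex_sub_one (j := 0) (neg_mem hy1))
  rw [e]
  refine add_mem (N.mul_le (i := i + j + 2) (sub_mem (N.mul_le hAF hCF (by omega))
    (N.mul_le hCF hAF (by omega))) hP1 (by omega)) (sub_mem (add_mem ?_ ?_) (add_mem ?_ ?_))
  · exact N.mul_le hAx hCF (by omega)
  · exact N.mul_le hx hCy (by omega)
  · exact N.mul_le hCy hAF (by omega)
  · exact N.mul_le hy hAx (by omega)

end Nil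

end Pool.Agent.P.MP_1b6414_an
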