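import Mathlib

/-! Maximum principle and a Hopf lemma on a strip, for functions with second partial
derivatives. -/

namespace Pool.Agent.P.MP_1b6414_an

open Set Filter Topology

/-- Subharmonic in the elementary sense. -/
def SubH (w : ℝ → ℝ → ℝ) : Prop :=
  Continuous (fun p : ℝ × ℝ => w p.1 p.2) ∧ ∃ ws wss wt wtt : ℝ → ℝ → ℝ,
    (∀ s t, HasDerivAt (fun x => w x t) (ws s t) s) ∧
    (∀ s t, HasDerivAt (fun x => ws x t) (wss s t) s) ∧
    (∀ s t, HasDerivAt (w s) (wt s t) t) ∧ (∀ s t, HasDerivAt (wt s) (wtt s t) t) ∧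
    ∀ s t, 0 ≤ wss s t + wtt s t

theorem second_deriv_nonpos {f f' f'' : ℝ → ℝ} (h1 : ∀ x, HasDerivAt f (f' x) x)
    (h2 : ∀ x, HasDerivAt f' (f'' x) x) {x : ℝ} (hx : IsLocalMax f x) : f'' x ≤ 0 := by
  by_contra hpos
  push Not at hpos
  have e1 : deriv f = f' := funext fun y => (h1 y).deriv
  have e2 : deriv (deriv f) x = f'' x := by rw [e1]; exact (h2 x).deriv
  have hmin : IsLocalMin f x :=
    isLocalMin_of_deriv_deriv_pos (by rw [e2]; exact hpos) hx.deriv_eq_zero (h1 x).continuousAt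
  have hev : f =ᶠ[𝓝 x] fun _ => f x := by
    filter_upwards [hx, hmin] with y hy1 hy2 using le_antisymm hy1 hy2
  have := hev.deriv.deriv_eq
  rw [e2] at this
  simp at this
  exact hpos.ne' this

theorem SubH.add {w v : ℝ → ℝ → ℝ} (hw : SubH w) (hv : SubH v) :
    SubH (fun s t => w s t + v s t) := by
  obtain ⟨hc, ws, wss, wt, wtt, h1, h2, h3, h4, h5⟩ := hw
  obtain ⟨hc', vs, vss, vt, vtt, k1, k2, k3, k4, k5⟩ := hv
  refine ⟨hc.add hc', fun s t => ws s t + vs s t, fun s t => wss s t + vss s t,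
    fun s t => wt s t + vt s t, fun s t => wtt s t + vtt s t,
    fun s t => (h1 s t).add (k1 s t), fun s t => (h2 s t).add (k2 s t),
    fun s t => (h3 s t).add (k3 s t), fun s t => (h4 s t).add (k4 s t), fun s t => ?_⟩
  have := h5 s t; have := k5 s t; linarith

theorem SubH.swap {w : ℝ → ℝ → ℝ} (hw : SubH w) : SubH (fun s t => w t s) := by
  obtain ⟨hc, ws, wss, wt, wtt, h1, h2, h3, h4, h5⟩ := hw
  refine ⟨hc.comp continuous_swap, fun s t => wt t s, fun s t => wtt t s, fun s t => ws t s,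
    fun s t => wss t s, fun s t => h3 t s, fun s t => h4 t s, fun s t => h1 t s,
    fun s t => h2 t s, fun s t => ?_⟩
  have := h5 t s; linarith

theorem SubH.neg_left {w : ℝ → ℝ → ℝ} (hw : SubH w) : SubH (fun s t => w (-s) t) := by
  obtain ⟨hc, ws, wss, wt, wtt, h1, h2, h3, h4, h5⟩ := hw
  refine ⟨hc.comp (by fun_prop : Continuous fun p : ℝ × ℝ => (-p.1, p.2)),
    fun s t => -ws (-s) t, fun s t => wss (-s) t, fun s t => wt (-s) t,
    fun s t => wtt (-s) t, fun s t => ?_, fun s t => ?_, fun s t => h3 _ _,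
    fun s t => h4 _ _, fun s t => h5 _ _⟩
  · have := (h1 (-s) t).comp s (hasDerivAt_neg s)
    rw [mul_neg_one] at this
    exact this
  · have := ((h2 (-s) t).comp s (hasDerivAt_neg s)).neg
    rw [mul_neg_one, neg_neg] at this
    exact this

theorem subH_sinh (δ κ a b : ℝ) :
    SubH (fun s t => δ * (Real.sinh (κ * (s - a)) * Real.cos (κ * (t - b)))) := by
  have hl : ∀ c x : ℝ, HasDerivAt (fun y => κ * (y - c)) κ x := fun c x => by
    simpa using ((hasDerivAt_id x).sub_const c).const_mul κ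
  refine ⟨by fun_prop,
    fun s t => δ * (Real.cosh (κ * (s - a)) * κ * Real.cos (κ * (t - b))),
    fun s t => δ * (Real.sinh (κ * (s - a)) * κ * κ * Real.cos (κ * (t - b))),
    fun s t => δ * (Real.sinh (κ * (s - a)) * (-Real.sin (κ * (t - b)) * κ)),
    fun s t => δ * (Real.sinh (κ * (s - a)) * (-(Real.cos (κ * (t - b)) * κ) * κ)),
    fun s t => ?_, fun s t => ?_, fun s t => ?_, fun s t => ?_, fun s t => ?_⟩
  · exact (((hl a s).sinh).mul_const _).const_mul δ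
  · exact ((((hl a s).cosh).mul_const κ).mul_const _).const_mul δ
  · exact (((hl b t).cos).const_mul _).const_mul δ
  · exact (((((hl b t).sin).neg).mul_const κ).const_mul _).const_mul δ
  · apply le_of_eq; ring

theorem subH_cosh (δ : ℝ) :
    SubH (fun s t => δ * (Real.cosh s * Real.cos (t - 1 / 2))) := by
  have hl : ∀ x : ℝ, HasDerivAt (fun y : ℝ => y - 1 / 2) 1 x := fun x =>
    (hasDerivAt_id x).sub_const _
  refine ⟨by fun_prop,
    fun s t => δ * (Real.sinh s * Real.cos (t - 1 / 2)),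
    fun s t => δ * (Real.cosh s * Real.cos (t - 1 / 2)),
    fun s t => δ * (Real.cosh s * (-Real.sin (t - 1 / 2) * 1)),
    fun s t => δ * (Real.cosh s * (-(Real.cos (t - 1 / 2) * 1) * 1)),
    fun s t => ?_, fun s t => ?_, fun s t => ?_, fun s t => ?_, fun s t => ?_⟩
  · exact ((Real.hasDerivAt_cosh s).mul_const _).const_mul δ
  · exact ((Real.hasDerivAt_sinh s).mul_const _).const_mul δ
  · exact (((hl t).cos).const_mul _).const_mul δ
  · exact (((((hl t).sin).neg).mul_const 1).const_mul _).const_mul δ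
  · apply le_of_eq; ring

theorem SubH.rect {w : ℝ → ℝ → ℝ} (hw : SubH w) {a b c d : ℝ}
    (ha : ∀ t ∈ Icc c d, w a t ≤ 0) (hb : ∀ t ∈ Icc c d, w b t ≤ 0)
    (hc : ∀ s ∈ Icc a b, w s c ≤ 0) (hd : ∀ s ∈ Icc a b, w s d ≤ 0) :
    ∀ s ∈ Icc a b, ∀ t ∈ Icc c d, w s t ≤ 0 := by
  obtain ⟨hcont, ws, wss, wt, wtt, h1, h2, h3, h4, h5⟩ := hw
  intro s₀ hs₀ t₀ ht₀
  by_contra hpos
  push Not at hpos
  set M := w s₀ t₀ with hM
  set ε := M / ((b - a) ^ 2 + 1) with hε
  have hεpos : 0 < ε := by positivity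
  have hεM : ε * (b - a) ^ 2 < M := by
    rw [hε, div_mul_eq_mul_div, div_lt_iff₀ (by positivity)]
    nlinarith
  let v : ℝ × ℝ → ℝ := fun p => w p.1 p.2 + ε * (p.1 - a) ^ 2
  have hv : Continuous v := hcont.add (by fun_prop)
  obtain ⟨⟨s, t⟩, ⟨hs, ht⟩, hmax⟩ := (isCompact_Icc.prod isCompact_Icc).exists_isMaxOn
    (⟨(s₀, t₀), hs₀, ht₀⟩ : (Icc a b ×ˢ Icc c d).Nonempty) hv.continuousOn
  have hge : M ≤ w s t + ε * (s - a) ^ 2 := by
    have := hmax (a := (s₀, t₀)) ⟨hs₀, ht₀⟩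
    have h' : 0 ≤ ε * (s₀ - a) ^ 2 := by positivity
    simp only [v, mem_ofPred_eq] at this
    linarith
  have hsq : ε * (s - a) ^ 2 ≤ ε * (b - a) ^ 2 := by
    apply mul_le_mul_of_nonneg_left _ hεpos.le
    simp only [mem_Icc] at hs
    nlinarith [hs.1, hs.2]
  have hwpos : 0 < w s t := by linarith
  simp only [mem_Icc] at hs ht
  have hsa : a < s := lt_of_le_of_ne hs.1 (by rintro rfl; exact absurd (ha t ht) (by linarith))
  have hsb : s < b := lt_of_le_of_ne hs.2 (by rintro rfl; exact absurd (hb t ht) (by linarith))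
  have htc : c < t := lt_of_le_of_ne ht.1 (by rintro rfl; exact absurd (hc s hs) (by linarith))
  have htd : t < d := lt_of_le_of_ne ht.2 (by rintro rfl; exact absurd (hd s hs) (by linarith))
  have m1 : IsLocalMax (fun x => w x t + ε * (x - a) ^ 2) s := by
    filter_upwards [Icc_mem_nhds hsa hsb] with x hx
    exact hmax (a := (x, t)) ⟨hx, ht⟩
  have m2 : IsLocalMax (w s) t := by
    filter_upwards [Icc_mem_nhds htc htd] with y hy
    have := hmax (a := (s, y)) ⟨hs, hy⟩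
    simp only [v, mem_ofPred_eq] at this
    linarith
  have q1 : wss s t + ε * 2 ≤ 0 := by
    refine second_deriv_nonpos (f' := fun x => ws x t + ε * (2 * (x - a)))
      (f'' := fun x => wss x t + ε * 2) (fun x => (h1 x t).add ?_) (fun x => (h2 x t).add ?_) m1
    · simpa using (((hasDerivAt_id x).sub_const a).pow 2).const_mul ε
    · simpa using (((hasDerivAt_id x).sub_const a).const_mul 2).const_mul ε
  have q2 : wtt s t ≤ 0 := second_deriv_nonpos (h3 s) (h4 s) m2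
  have := h5 s t
  linarith

theorem SubH.barrier {w : ℝ → ℝ → ℝ} (hw : SubH w) {a b c r m : ℝ} (hab : a < b) (hr : 0 < r)
    (hm : 0 < m)
    (ha : ∀ t ∈ Icc (c - r) (c + r), w a t ≤ 0) (hb : ∀ t ∈ Icc (c - r) (c + r), w b t ≤ -m)
    (hc : ∀ s ∈ Icc a b, w s (c - r) ≤ 0) (hd : ∀ s ∈ Icc a b, w s (c + r) ≤ 0) :
    ∃ δ κ : ℝ, 0 < δ ∧ 0 < κ ∧ ∀ s ∈ Icc a b, w s c + δ * Real.sinh (κ * (s - a)) ≤ 0 := by
  set κ := Real.pi / (2 * r) with hκ
  have hκpos : 0 < κ := by have := Real.pi_pos; positivity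
  have hS : 0 < Real.sinh (κ * (b - a)) := Real.sinh_pos_iff.2 (by have := sub_pos.2 hab; positivity)
  refine ⟨m / Real.sinh (κ * (b - a)), κ, by positivity, hκpos, fun s hs => ?_⟩
  have key := (hw.add (subH_sinh (m / Real.sinh (κ * (b - a))) κ a c)).rect
    (a := a) (b := b) (c := c - r) (d := c + r) ?_ ?_ ?_ ?_ s hs c ⟨by linarith, by linarith⟩
  · simpa using key
  · intro t ht
    simpa using ha t ht
  · intro t ht
    have h1 := hb t ht
    have h2 : m / Real.sinh (κ * (b - a)) * (Real.sinh (κ * (b - a)) * Real.cos (κ * (t - c)))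
        = m * Real.cos (κ * (t - c)) := by field_simp
    have h3 : m * Real.cos (κ * (t - c)) ≤ m * 1 :=
      mul_le_mul_of_nonneg_left (Real.cos_le_one _) hm.le
    simp only [h2]
    linarith
  · intro s hs
    have : κ * (c - r - c) = -(Real.pi / 2) := by rw [hκ]; field_simp; ring
    simp only [this, Real.cos_neg, Real.cos_pi_div_two]
    simpa using hc s hs
  · intro s hs
    have : κ * (c + r - c) = Real.pi / 2 := by rw [hκ]; field_simp; ring
    simp only [this, Real.cos_pi_div_two]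
    simpa using hd s hs

theorem SubH.strip_nonpos {u : ℝ → ℝ → ℝ} (hu : SubH u) {C : ℝ} {d : ℕ}
    (hgr : ∀ s, ∀ t ∈ Icc (0 : ℝ) 1, u s t ≤ C * (1 + |s|) ^ d)
    (h0 : ∀ s, u s 0 ≤ 0) (h1 : ∀ s, u s 1 ≤ 0) :
    ∀ s, ∀ t ∈ Icc (0 : ℝ) 1, u s t ≤ 0 := by
  intro s₀ t₀ ht₀
  have hcos : ∀ t ∈ Icc (0 : ℝ) 1, 1 / 2 ≤ Real.cos (t - 1 / 2) := by
    intro t ht
    have := Real.one_sub_sq_div_two_le_cos (x := t - 1 / 2)
    nlinarith [ht.1, ht.2]
  have key : ∀ ε : ℝ, 0 < ε → u s₀ t₀ ≤ ε * Real.cosh s₀ := by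
    intro ε hε
    have ht := (Real.tendsto_pow_mul_exp_neg_atTop_nhds_zero d).comp
      (tendsto_atTop_add_const_left atTop 1 tendsto_id)
    have ht2 := ht.const_mul (|C| * Real.exp 1)
    rw [mul_zero] at ht2
    have hev := (ht2.eventually (gt_mem_nhds (show (0 : ℝ) < ε / 4 by positivity))).and
      (eventually_ge_atTop |s₀|)
    obtain ⟨R, hR, hRs⟩ := hev.exists
    have hR0 : 0 ≤ R := (abs_nonneg _).trans hRs
    have hbig : C * (1 + R) ^ d ≤ ε * (Real.cosh R * (1 / 2)) := by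
      simp only [Function.comp, id] at hR
      have e1 : Real.exp (-(1 + R)) * (Real.exp 1 * Real.exp R) = 1 := by
        rw [← Real.exp_add, ← Real.exp_add]; simp
      have e2 : |C| * (1 + R) ^ d =
          |C| * Real.exp 1 * ((1 + R) ^ d * Real.exp (-(1 + R))) * Real.exp R := by
        linear_combination (-(|C| * (1 + R) ^ d)) * e1
      have e3 : Real.exp R / 2 ≤ Real.cosh R := by
        rw [Real.cosh_eq]; have := Real.exp_pos (-R); linarith
      have e4 : C * (1 + R) ^ d ≤ |C| * (1 + R) ^ d :=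
        mul_le_mul_of_nonneg_right (le_abs_self C) (by positivity)
      have e5 := mul_le_mul_of_nonneg_right hR.le (Real.exp_pos R).le
      nlinarith
    have hside : ∀ s, |s| = R → ∀ t ∈ Icc (0 : ℝ) 1,
        u s t + -ε * (Real.cosh s * Real.cos (t - 1 / 2)) ≤ 0 := by
      intro s hs t ht
      have a1 := hgr s t ht
      rw [hs] at a1
      have a2 : Real.cosh s = Real.cosh R := by rw [← hs, Real.cosh_abs]
      have a3 : ε * (Real.cosh R * (1 / 2)) ≤ ε * (Real.cosh R * Real.cos (t - 1 / 2)) :=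
        mul_le_mul_of_nonneg_left
          (mul_le_mul_of_nonneg_left (hcos t ht) (Real.cosh_pos R).le) hε.le
      rw [a2]; linarith
    have hpos : ∀ s, ∀ t ∈ Icc (0 : ℝ) 1, 0 ≤ ε * (Real.cosh s * Real.cos (t - 1 / 2)) := by
      intro s t ht
      have := hcos t ht
      have := Real.cosh_pos s
      positivity
    have := (hu.add (subH_cosh (-ε))).rect (a := -R) (b := R) (c := 0) (d := 1)
      (hside _ (by simp [abs_of_nonneg hR0])) (hside _ (abs_of_nonneg hR0))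
      (fun s _ => by have := h0 s; have := hpos s 0 ⟨le_rfl, zero_le_one⟩; linarith)
      (fun s _ => by have := h1 s; have := hpos s 1 ⟨zero_le_one, le_rfl⟩; linarith)
      s₀ (abs_le.1 hRs) t₀ ht₀
    have b1 : ε * (Real.cosh s₀ * Real.cos (t₀ - 1 / 2)) ≤ ε * (Real.cosh s₀ * 1) :=
      mul_le_mul_of_nonneg_left
        (mul_le_mul_of_nonneg_left (Real.cos_le_one _) (Real.cosh_pos _).le) hε.le
    linarith
  by_contra hpos
  push Not at hpos
  have := key (u s₀ t₀ / (2 * Real.cosh s₀)) (by have := Real.cosh_pos s₀; positivity)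
  have e : u s₀ t₀ / (2 * Real.cosh s₀) * Real.cosh s₀ = u s₀ t₀ / 2 := by
    have := Real.cosh_pos s₀; field_simp
  linarith

theorem exists_Icc_neg {f : ℝ → ℝ} (hf : Continuous f) {x : ℝ} (hx : f x < 0) {U : Set ℝ}
    (hU : U ∈ 𝓝 x) : ∃ r m : ℝ, 0 < r ∧ 0 < m ∧ ∀ y ∈ Icc (x - r) (x + r), y ∈ U ∧ f y ≤ -m := by
  have h1 : ∀ᶠ y in 𝓝 x, f y < f x / 2 := hf.continuousAt.eventually (gt_mem_nhds (by linarith))
  obtain ⟨ε, hε, h⟩ := Metric.eventually_nhds_iff.1 (h1.and hU)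
  refine ⟨ε / 2, -(f x / 2), by positivity, by linarith, fun y hy => ?_⟩
  have : dist y x < ε := by rw [Real.dist_eq, abs_lt]; constructor <;> linarith [hy.1, hy.2]
  exact ⟨(h this).2, by linarith [(h this).1]⟩

theorem SubH.neg_at_zero {u : ℝ → ℝ → ℝ} (hu : SubH u)
    (hle : ∀ s, ∀ t ∈ Icc (0 : ℝ) 1, u s t ≤ 0) {s₁ t₁ : ℝ} (hs : 0 < s₁) (ht0 : 0 < t₁)
    (ht1 : t₁ < 1) (hneg : u s₁ t₁ < 0) : u 0 t₁ < 0 := by
  have hc : Continuous (u s₁) := hu.1.comp (by fun_prop : Continuous fun t : ℝ => (s₁, t))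
  obtain ⟨r, m, hr, hm, h⟩ := exists_Icc_neg hc hneg (Icc_mem_nhds ht0 ht1)
  have hr1 := (h (t₁ - r) ⟨le_rfl, by linarith⟩).1
  have hr2 := (h (t₁ + r) ⟨by linarith, le_rfl⟩).1
  obtain ⟨δ, κ, hδ, hκ, hb⟩ := hu.barrier (a := -1) (b := s₁) (c := t₁) (by linarith) hr hm
    (fun t ht => hle _ _ (h t ht).1) (fun t ht => (h t ht).2) (fun s _ => hle _ _ hr1)
    (fun s _ => hle _ _ hr2)
  have := hb 0 ⟨by linarith, hs.le⟩
  have h2 : 0 < δ * Real.sinh (κ * (0 - -1)) :=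
    mul_pos hδ (Real.sinh_pos_iff.2 (by simpa using hκ))
  linarith

/-- Hopf lemma on the strip. -/
theorem SubH.strip_eq_zero {u : ℝ → ℝ → ℝ} (hu : SubH u) {C : ℝ} {d : ℕ}
    (hgr : ∀ s, ∀ t ∈ Icc (0 : ℝ) 1, u s t ≤ C * (1 + |s|) ^ d)
    (h0 : ∀ s, u s 0 = 0) (h1 : ∀ s, u s 1 = 0) (hd : HasDerivAt (u 0) 0 0) :
    ∀ s, ∀ t ∈ Icc (0 : ℝ) 1, u s t = 0 := by
  have hle := hu.strip_nonpos hgr (fun s => (h0 s).le) (fun s => (h1 s).le)
  intro s₁ t₁ ht₁
  by_contra hne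
  have hneg : u s₁ t₁ < 0 := lt_of_le_of_ne (hle _ _ ht₁) hne
  have ht0 : 0 < t₁ := lt_of_le_of_ne ht₁.1 (by rintro rfl; exact hne (h0 _))
  have ht1 : t₁ < 1 := lt_of_le_of_ne ht₁.2 (by rintro rfl; exact hne (h1 _))
  have hz : u 0 t₁ < 0 := by
    rcases lt_trichotomy s₁ 0 with h | h | h
    · have := hu.neg_left.neg_at_zero (s₁ := -s₁) (t₁ := t₁) (fun s t ht => hle _ _ ht)
        (by linarith) ht0 ht1 (by simpa using hneg)
      simpa using this
    · rwa [h] at hneg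
    · exact hu.neg_at_zero hle h ht0 ht1 hneg
  have hc : Continuous (fun s => u s t₁) :=
    hu.1.comp (by fun_prop : Continuous fun s : ℝ => (s, t₁))
  obtain ⟨r, m, hr, hm, h⟩ := exists_Icc_neg hc hz (univ_mem)
  obtain ⟨δ, κ, hδ, hκ, hb⟩ := hu.swap.barrier (a := 0) (b := t₁) (c := 0) ht0 hr hm
    (fun s _ => (h0 s).le) (fun s hs => (h s hs).2)
    (fun t ht => hle _ _ ⟨ht.1, ht.2.trans ht1.le⟩) (fun t ht => hle _ _ ⟨ht.1, ht.2.trans ht1.le⟩)
  have hg : HasDerivAt (fun t => u 0 t + δ * Real.sinh (κ * (t - 0))) (δ * κ) 0 := by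
    have hl : HasDerivAt (fun y : ℝ => κ * (y - 0)) κ 0 := by
      simpa using ((hasDerivAt_id (0 : ℝ)).sub_const 0).const_mul κ
    have := hd.add (hl.sinh.const_mul δ)
    rw [show (0 : ℝ) + δ * (Real.cosh (κ * (0 - 0)) * κ) = δ * κ by simp] at this
    exact this
  have hlim := hg.tendsto_slope_zero_right
  have : δ * κ ≤ 0 := by
    refine le_of_tendsto hlim ?_
    filter_upwards [Ioo_mem_nhdsGT ht0] with t ht
    have := hb t ⟨ht.1.le, ht.2.le⟩
    simp only [zero_add, sub_zero, mul_zero, Real.sinh_zero, add_zero, h0, smul_eq_mul] at this ⊢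
    exact mul_nonpos_of_nonneg_of_nonpos (inv_nonneg.2 ht.1.le) this
  have := mul_pos hδ hκ
  linarith

end Pool.Agent.P.MP_1b6414_an
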