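import Pool.Agent.P.MP_1b6414_an.Grp
import Pool.Agent.P.MP_1b6414_an.Strip

/-! Polynomial functions on a vector space, weak derivatives, and one-variable lemmas. -/

namespace Pool.Agent.P.MP_1b6414_an

open Set

/-- Weak derivative of a curve. -/
def WD {W : Type*} [AddCommGroup W] [Module ℂ W] (h : ℂ → W) (h' : W) (z : ℂ) : Prop :=
  ∀ l : W →ₗ[ℂ] ℂ, HasDerivAt (fun w => l (h w)) (l h') z

/-- All linear coordinates of `h` lie in the algebra of functions `S`. -/
def InAlg {W X : Type*} [AddCommGroup W] [Module ℂ W] (S : Subalgebra ℂ (X → ℂ)) (h : X → W) :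
    Prop := ∀ l : W →ₗ[ℂ] ℂ, (fun p => l (h p)) ∈ S

/-- A polynomial function with its first two differentials. -/
structure PFun (W : Type*) [AddCommGroup W] [Module ℂ W] where
  f : W → ℂ
  d : W → W →ₗ[ℂ] ℂ
  dd : W → W →ₗ[ℂ] W →ₗ[ℂ] ℂ
  symm : ∀ p u v, dd p u v = dd p v u
  chain : ∀ {h h' z}, WD h h' z → HasDerivAt (fun w => f (h w)) (d (h z) h') z
  chain2 : ∀ {h h' k k' z}, WD h h' z → WD k k' z →
    HasDerivAt (fun w => d (h w) (k w)) (dd (h z) (k z) h' + d (h z) k') z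
  alg : ∀ {X : Type} {S : Subalgebra ℂ (X → ℂ)} {h : X → W}, InAlg S h →
    (fun p => f (h p)) ∈ S
  alg1 : ∀ {X : Type} {S : Subalgebra ℂ (X → ℂ)} {h k : X → W}, InAlg S h → InAlg S k →
    (fun p => d (h p) (k p)) ∈ S
  alg2 : ∀ {X : Type} {S : Subalgebra ℂ (X → ℂ)} {h k m : X → W}, InAlg S h → InAlg S k →
    InAlg S m → (fun p => dd (h p) (k p) (m p)) ∈ S

section

variable {W W' : Type*} [AddCommGroup W] [Module ℂ W] [AddCommGroup W'] [Module ℂ W']

theorem WD.const (c : W) (z : ℂ) : WD (fun _ => c) 0 z := fun l => by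
  simpa using hasDerivAt_const z (l c)

theorem lin_prod (l : W × W' →ₗ[ℂ] ℂ) (x : W) (y : W') :
    l (x, y) = (l ∘ₗ LinearMap.inl ℂ W W') x + (l ∘ₗ LinearMap.inr ℂ W W') y := by
  simp [← map_add]

theorem WD.prod {h : ℂ → W} {k : ℂ → W'} {h' : W} {k' : W'} {z : ℂ} (hh : WD h h' z)
    (hk : WD k k' z) : WD (fun w => (h w, k w)) (h', k') z := fun l => by
  simp only [lin_prod l]
  exact (hh _).add (hk _)

theorem WD.smul {h : ℂ → W} {h' : W} {z : ℂ} (hh : WD h h' z) (c : ℂ) :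
    WD (fun w => c • h w) (c • h') z := fun l => by
  simp only [map_smul, smul_eq_mul]
  exact (hh l).const_mul c

theorem InAlg.const {X : Type*} (S : Subalgebra ℂ (X → ℂ)) (c : W) : InAlg S (fun _ => c) :=
  fun l => S.algebraMap_mem (l c)

theorem InAlg.prod {X : Type*} {S : Subalgebra ℂ (X → ℂ)} {h : X → W} {k : X → W'}
    (hh : InAlg S h) (hk : InAlg S k) : InAlg S (fun w => (h w, k w)) := fun l => by
  simp only [lin_prod l]
  exact S.add_mem (hh _) (hk _)

variable {B : Type*} [Ring B] [Algebra ℂ B]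

theorem WD.ex {x : B} (hx : IsNilpotent x) (A C : B) {c : ℂ → ℂ} {c' z : ℂ}
    (hc : HasDerivAt c c' z) :
    WD (fun w => A * ex (c w • x) * C) (c' • (A * x * ex (c z • x) * C)) z := fun l => by
  have := (hasDerivAt_ex hx (l ∘ₗ LinearMap.mulRight ℂ C ∘ₗ LinearMap.mulLeft ℂ A) (c z)).comp z hc
  simp only [LinearMap.comp_apply, LinearMap.mulLeft_apply, LinearMap.mulRight_apply] at this
  rw [map_smul, smul_eq_mul, mul_comm c', mul_assoc A x]
  exact this

theorem InAlg.ex {X : Type*} {S : Subalgebra ℂ (X → ℂ)} {x : B} (hx : IsNilpotent x) (A C : B)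
    {c : X → ℂ} (hc : c ∈ S) : InAlg S (fun w => A * ex (c w • x) * C) := fun l =>
  ex_mem_subalgebra S hx (l ∘ₗ LinearMap.mulRight ℂ C ∘ₗ LinearMap.mulLeft ℂ A) hc

theorem ex_eq_one_add {x : B} (hx : IsNilpotent x) (c : ℂ) : ∃ u, ex (c • x) = 1 + u * x := by
  obtain ⟨k, hk⟩ := hx
  have hk' : x ^ (k + 1) = 0 := by rw [pow_succ, hk, zero_mul]
  refine ⟨∑ i ∈ Finset.range k, ((((i + 1).factorial : ℂ)⁻¹) * c ^ (i + 1)) • x ^ i, ?_⟩
  rw [ex_smul_eq_sum hk', Finset.sum_range_succ', Finset.sum_mul, add_comm]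
  simp [pow_succ]

end

/-- Polynomial functions of one complex variable. -/
noncomputable def P1 : Subalgebra ℂ (ℂ → ℂ) := (Polynomial.aeval (id : ℂ → ℂ)).range

theorem mem_P1 {f : ℂ → ℂ} : f ∈ P1 ↔ ∃ p : Polynomial ℂ, ∀ z, f z = p.eval z := by
  have key : ∀ (p : Polynomial ℂ) z, (Polynomial.aeval (id : ℂ → ℂ) p) z = p.eval z := by
    intro p z
    induction p using Polynomial.induction_on' with
    | add p q hp hq => simp
    | monomial n a => simp [Polynomial.aeval_monomial]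
  constructor
  · rintro ⟨p, rfl⟩; exact ⟨p, key p⟩
  · rintro ⟨p, hp⟩; exact ⟨p, funext fun z => (key p z).trans (hp z).symm⟩

theorem affine_mem_P1 (α β : ℂ) : (fun z => α * z + β) ∈ P1 :=
  mem_P1.2 ⟨Polynomial.C α * Polynomial.X + Polynomial.C β, fun z => by simp⟩

theorem poly_eq_zero_of_Icc {p : Polynomial ℂ} (h : ∀ t ∈ Icc (0 : ℝ) 1, p.eval (t : ℂ) = 0) :
    p = 0 := by
  apply Polynomial.eq_zero_of_infinite_isRoot
  have : (((↑) : ℝ → ℂ) '' Icc (0 : ℝ) 1).Infinite :=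
    (Set.Icc_infinite zero_lt_one).image Complex.ofReal_injective.injOn
  refine this.mono ?_
  rintro _ ⟨t, ht, rfl⟩
  exact h t ht

theorem P1_eq_zero {f : ℂ → ℂ} (hf : f ∈ P1) (h : ∀ t ∈ Icc (0 : ℝ) 1, f t = 0) (z : ℂ) :
    f z = 0 := by
  obtain ⟨p, hp⟩ := mem_P1.1 hf
  have : p = 0 := poly_eq_zero_of_Icc fun t ht => (hp t).symm.trans (h t ht)
  rw [hp, this]; simp

theorem P1_eq_zero2 {F : ℂ → ℂ → ℂ} (h1 : ∀ b, (fun a => F a b) ∈ P1) (h2 : ∀ a, F a ∈ P1)
    (h : ∀ s : ℝ, ∀ t ∈ Icc (0 : ℝ) 1, F s t = 0) (a b : ℂ) : F a b = 0 :=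
  P1_eq_zero (h2 a) (fun t ht => P1_eq_zero (h1 t) (fun s _ => h s t ht) a) b

theorem P1_const {f : ℂ → ℂ} (hf : f ∈ P1) (h0 : ∀ s : ℝ, (f s).re = 0)
    (h1 : ∀ s : ℝ, (f (s + Complex.I)).re = 0) (z : ℂ) : f z = f 0 := by
  obtain ⟨p, hp⟩ := mem_P1.1 hf
  have hconj : ∀ w, (p.map (starRingEnd ℂ)).eval (starRingEnd ℂ w) = starRingEnd ℂ (p.eval w) := by
    intro w
    rw [Polynomial.eval_map, Polynomial.eval₂_at_apply]
  have e1 : p + p.map (starRingEnd ℂ) = 0 := by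
    refine poly_eq_zero_of_Icc fun t _ => ?_
    have := hconj t
    rw [Complex.conj_ofReal] at this
    rw [Polynomial.eval_add, this, Complex.add_conj, ← hp, h0]; simp
  have e2 : ∀ w, p.eval (w + Complex.I) = p.eval (w - Complex.I) := by
    have : p.comp (Polynomial.X + Polynomial.C Complex.I) -
        p.comp (Polynomial.X - Polynomial.C Complex.I) = 0 := by
      refine poly_eq_zero_of_Icc fun t _ => ?_
      have a1 := hconj (t + Complex.I)
      have a2 : p.map (starRingEnd ℂ) = -p := eq_neg_of_add_eq_zero_right e1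
      rw [a2, map_add, Complex.conj_ofReal, Complex.conj_I] at a1
      have a3 := Complex.add_conj (p.eval (t + Complex.I))
      rw [← hp, h1, hp, ← a1] at a3
      simpa [sub_eq_add_neg] using a3
    intro w
    have := congrArg (Polynomial.eval w) this
    simpa [sub_eq_zero] using this
  have e3 : ∀ n : ℕ, p.eval ((n : ℂ) * (2 * Complex.I)) = p.eval 0 := by
    intro n
    induction n with
    | zero => simp
    | succ n ih =>
      have := e2 ((n : ℂ) * (2 * Complex.I) + Complex.I)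
      rw [add_sub_cancel_right, ih] at this
      rw [← this]; congr 1; push_cast; ring
  have e4 : p - Polynomial.C (p.eval 0) = 0 := by
    apply Polynomial.eq_zero_of_infinite_isRoot
    have hinj : Function.Injective fun n : ℕ => (n : ℂ) * (2 * Complex.I) := by
      intro m n h
      exact_mod_cast mul_right_cancel₀ (by simp) h
    refine (Set.infinite_range_of_injective hinj).mono ?_
    rintro _ ⟨n, rfl⟩
    simp [e3]
  have := congrArg (Polynomial.eval z) e4
  rw [hp, hp]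
  simpa [sub_eq_zero] using this

theorem deriv_eq_zero_of_real {f : ℂ → ℂ} {f' : ℂ} (hf : HasDerivAt f f' 0)
    (h : ∀ s : ℝ, f s = 0) : f' = 0 := by
  have h1 : HasDerivAt (fun s : ℝ => f s) f' 0 := by
    have : HasDerivAt f f' ((0 : ℝ) : ℂ) := by simpa using hf
    exact this.comp_ofReal
  have h2 : (fun s : ℝ => f s) = fun _ => 0 := funext h
  rw [h2] at h1
  exact h1.unique (hasDerivAt_const _ _)

theorem deriv_eq_zero_of_zero {f : ℂ → ℂ} {f' z : ℂ} (hf : HasDerivAt f f' z)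
    (h : ∀ w, f w = 0) : f' = 0 := by
  have h2 : f = fun _ => 0 := funext h
  rw [h2] at hf
  exact hf.unique (hasDerivAt_const _ _)

/-- Continuous functions of polynomial growth on the strip. -/
def S2 : Subalgebra ℂ (ℝ × ℝ → ℂ) where
  carrier := {f | Continuous f ∧
    ∃ (C : ℝ) (d : ℕ), ∀ s, ∀ t ∈ Icc (0 : ℝ) 1, ‖f (s, t)‖ ≤ C * (1 + |s|) ^ d}
  mul_mem' := by
    rintro f g ⟨hf, C, d, h1⟩ ⟨hg, C', d', h2⟩
    refine ⟨hf.mul hg, C * C', d + d', fun s t ht => ?_⟩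
    rw [Pi.mul_apply, norm_mul]
    calc _ ≤ (C * (1 + |s|) ^ d) * (C' * (1 + |s|) ^ d') :=
          mul_le_mul (h1 s t ht) (h2 s t ht) (norm_nonneg _) ((norm_nonneg _).trans (h1 s t ht))
      _ = _ := by ring
  add_mem' := by
    rintro f g ⟨hf, C, d, h1⟩ ⟨hg, C', d', h2⟩
    refine ⟨hf.add hg, |C| + |C'|, d + d', fun s t ht => ?_⟩
    have h0 : (1 : ℝ) ≤ 1 + |s| := by have := abs_nonneg s; linarith
    have a1 : C * (1 + |s|) ^ d ≤ |C| * (1 + |s|) ^ (d + d') :=
      mul_le_mul (le_abs_self _) (pow_le_pow_right₀ h0 (by omega)) (by positivity) (abs_nonneg _)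
    have a2 : C' * (1 + |s|) ^ d' ≤ |C'| * (1 + |s|) ^ (d + d') :=
      mul_le_mul (le_abs_self _) (pow_le_pow_right₀ h0 (by omega)) (by positivity) (abs_nonneg _)
    have := norm_add_le (f (s, t)) (g (s, t))
    have := h1 s t ht
    have := h2 s t ht
    rw [Pi.add_apply, add_mul]
    linarith
  algebraMap_mem' := fun c => ⟨continuous_const, ‖c‖, 0, fun s t _ => by simp⟩

theorem lin_mem_S2 (c : ℂ) : (fun p : ℝ × ℝ => (p.1 : ℂ) + c * (p.2 : ℂ)) ∈ S2 := by
  refine ⟨by fun_prop, 1 + ‖c‖, 1, fun s t ht => ?_⟩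
  have h1 := norm_add_le (s : ℂ) (c * t)
  rw [norm_mul, Complex.norm_real, Complex.norm_real, Real.norm_eq_abs, Real.norm_eq_abs,
    abs_of_nonneg ht.1] at h1
  have h2 : ‖c‖ * t ≤ ‖c‖ * 1 := mul_le_mul_of_nonneg_left ht.2 (norm_nonneg _)
  have h3 : 0 ≤ ‖c‖ * |s| := by positivity
  simp only [pow_one]
  nlinarith

end Pool.Agent.P.MP_1b6414_an
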